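import Pool.Agent.Bst88.Swap

/-! Cabling the first two strands of a family satisfying the pure braid relations. -/

namespace Pool.Agent.Bst88

open Pool.Agent.Conf14

variable {m : ℕ} {G : Type*} [Group G]

/-- the family in which the strands `0` and `1` are fused to the new strand `0` -/
def cab (c : Fin (m + 2) → Fin (m + 2) → G) (i j : Fin (m + 1)) : G :=
  if i = 0 then (if j = 0 then 1 else c 0 j.succ * c 1 j.succ)
  else if j = 0 then c 0 i.succ * c 1 i.succ else c i.succ j.succ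

variable {c : Fin (m + 2) → Fin (m + 2) → G}

theorem cab_zero {j : Fin (m + 1)} (h : j ≠ 0) : cab c 0 j = c 0 j.succ * c 1 j.succ := by
  rw [cab, if_pos rfl, if_neg h]

theorem cab_zero' {j : Fin (m + 1)} (h : j ≠ 0) : cab c j 0 = c 0 j.succ * c 1 j.succ := by
  rw [cab, if_neg h, if_pos rfl]

theorem cab_ne {i j : Fin (m + 1)} (hi : i ≠ 0) (hj : j ≠ 0) : cab c i j = c i.succ j.succ := by
  rw [cab, if_neg hi, if_neg hj]

theorem one_lt_succ {j : Fin (m + 1)} (h : j ≠ 0) : (1 : Fin (m + 2)) < j.succ := by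
  rw [Fin.lt_def, Fin.val_succ]
  have : (j : ℕ) ≠ 0 := fun e => h (Fin.ext e)
  have h1 : ((1 : Fin (m + 2)) : ℕ) = 1 := rfl
  omega

theorem zero_lt_one' : (0 : Fin (m + 2)) < 1 := by
  rw [Fin.lt_def]
  have h1 : ((1 : Fin (m + 2)) : ℕ) = 1 := rfl
  have h2 : ((0 : Fin (m + 2)) : ℕ) = 0 := rfl
  omega

/-- a group computation: the fused triple -/
theorem tri_cab {a0 a1 b0 b1 w : G} (t0 : Tri a0 b0 w) (t1 : Tri a1 b1 w)
    (h2 : Commute b0 a1) (h3 : Commute (w * a0 * w⁻¹) b1) :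
    Tri (a0 * a1) (b0 * b1) w := by
  obtain ⟨d0, hd0⟩ : ∃ d, d = a0 * b0 * w := ⟨_, rfl⟩
  obtain ⟨d1, hd1⟩ : ∃ d, d = a1 * b1 * w := ⟨_, rfl⟩
  have e0 : b0 * w * a0 = d0 := by rw [hd0]; exact t0.rot2
  have e1 : b1 * w * a1 = d1 := by rw [hd1]; exact t1.rot2
  have w0 : Commute d0 w := by rw [hd0]; exact t0.cz
  have w1 : Commute d1 w := by rw [hd1]; exact t1.cz
  have h2' : a1 * b0 = b0 * a1 := h2.eq.symm
  have h3' : w * a0 * w⁻¹ * b1 = b1 * (w * a0 * w⁻¹) := h3
  -- the product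
  have hP : a0 * a1 * (b0 * b1) * w = d0 * w⁻¹ * d1 := by
    calc a0 * a1 * (b0 * b1) * w = a0 * (a1 * b0) * b1 * w := by group
      _ = a0 * (b0 * a1) * b1 * w := by rw [h2']
      _ = a0 * b0 * w * w⁻¹ * (a1 * b1 * w) := by group
      _ = _ := by rw [← hd0, ← hd1]
  have hQ : b0 * b1 * w * (a0 * a1) = d0 * w⁻¹ * d1 := by
    calc b0 * b1 * w * (a0 * a1) = b0 * (b1 * (w * a0 * w⁻¹)) * w * a1 := by group
      _ = b0 * (w * a0 * w⁻¹ * b1) * w * a1 := by rw [h3']
      _ = (b0 * w * a0) * w⁻¹ * (b1 * w * a1) := by group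
      _ = _ := by rw [e0, e1]
  obtain ⟨P, hPd⟩ : ∃ P, P = d0 * w⁻¹ * d1 := ⟨_, rfl⟩
  have cw : Commute P w := by
    rw [hPd]
    exact (w0.mul_left (Commute.refl w).inv_left).mul_left w1
  rw [← hPd] at hP hQ
  have ca : Commute P (a0 * a1) := by
    show P * (a0 * a1) = a0 * a1 * P
    calc P * (a0 * a1) = a0 * a1 * (b0 * b1) * w * (a0 * a1) := by rw [hP]
      _ = a0 * a1 * (b0 * b1 * w * (a0 * a1)) := by group
      _ = _ := by rw [hQ]
  have cb : Commute P (b0 * b1) := by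
    have e : b0 * b1 = (a0 * a1)⁻¹ * P * w⁻¹ := by rw [← hP]; group
    rw [e]
    exact (ca.inv_right.mul_right (Commute.refl P)).mul_right cw.inv_right
  refine ⟨?_, ?_, ?_⟩ <;> rw [hP]
  · exact ca
  · exact cb
  · exact cw

theorem cab_tri (h : PB c) {i j k : Fin (m + 1)} (h1 : i < j) (h2 : j < k) :
    Tri (cab c i j) (cab c i k) (cab c j k) := by
  have hj : j ≠ 0 := fun e => by rw [e] at h1; exact absurd h1 (Fin.not_lt_zero i)
  have hk : k ≠ 0 := fun e => by rw [e] at h2; exact absurd h2 (Fin.not_lt_zero j)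
  have hjk : j.succ < k.succ := Fin.succ_lt_succ_iff.mpr h2
  by_cases hi : i = 0
  · subst hi
    rw [cab_zero hj, cab_zero hk, cab_ne hj hk]
    have l1 := one_lt_succ hj
    have l0 := zero_lt_one' (m := m)
    exact tri_cab (PB.tri h (l0.trans l1) hjk) (PB.tri h l1 hjk) (h.q2 _ _ _ _ l0 l1 hjk)
      (h.q3 _ _ _ _ l0 l1 hjk)
  · rw [cab_ne hi hj, cab_ne hi hk, cab_ne hj hk]
    exact PB.tri h (Fin.succ_lt_succ_iff.mpr h1) hjk

/-- the cabled family satisfies the pure braid relations -/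
theorem PB.cab (h : PB c) : PB (cab c) where
  symm i j := by
    by_cases hi : i = 0 <;> by_cases hj : j = 0
    · rw [hi, hj]
    · rw [hi, cab_zero hj, cab_zero' hj]
    · rw [hj, cab_zero hi, cab_zero' hi]
    · rw [cab_ne hi hj, cab_ne hj hi, h.symm]
  t1 i j k h1 h2 := (cab_tri h h1 h2).cy
  t2 i j k h1 h2 := (cab_tri h h1 h2).cz
  q1 i j k l h1 h2 h3 := by
    have hj : j ≠ 0 := fun e => by rw [e] at h1; exact absurd h1 (Fin.not_lt_zero i)
    have hk : k ≠ 0 := fun e => by rw [e] at h2; exact absurd h2 (Fin.not_lt_zero j)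
    have hl : l ≠ 0 := fun e => by rw [e] at h3; exact absurd h3 (Fin.not_lt_zero k)
    have hjk : j.succ < k.succ := Fin.succ_lt_succ_iff.mpr h2
    have hkl : k.succ < l.succ := Fin.succ_lt_succ_iff.mpr h3
    rw [cab_ne hk hl]
    by_cases hi : i = 0
    · subst hi
      rw [cab_zero hj]
      have l1 := one_lt_succ hj
      have l0 := zero_lt_one' (m := m)
      exact (h.q1 _ _ _ _ (l0.trans l1) hjk hkl).mul_left (h.q1 _ _ _ _ l1 hjk hkl)
    · rw [cab_ne hi hj]
      exact h.q1 _ _ _ _ (Fin.succ_lt_succ_iff.mpr h1) hjk hkl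
  q2 i j k l h1 h2 h3 := by
    have hj : j ≠ 0 := fun e => by rw [e] at h1; exact absurd h1 (Fin.not_lt_zero i)
    have hk : k ≠ 0 := fun e => by rw [e] at h2; exact absurd h2 (Fin.not_lt_zero j)
    have hl : l ≠ 0 := fun e => by rw [e] at h3; exact absurd h3 (Fin.not_lt_zero k)
    have hjk : j.succ < k.succ := Fin.succ_lt_succ_iff.mpr h2
    have hkl : k.succ < l.succ := Fin.succ_lt_succ_iff.mpr h3
    rw [cab_ne hj hk]
    by_cases hi : i = 0
    · subst hi
      rw [cab_zero hl]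
      have l1 := one_lt_succ hj
      have l0 := zero_lt_one' (m := m)
      exact (h.q2 _ _ _ _ (l0.trans l1) hjk hkl).mul_left (h.q2 _ _ _ _ l1 hjk hkl)
    · rw [cab_ne hi hl]
      exact h.q2 _ _ _ _ (Fin.succ_lt_succ_iff.mpr h1) hjk hkl
  q3 i j k l h1 h2 h3 := by
    have hj : j ≠ 0 := fun e => by rw [e] at h1; exact absurd h1 (Fin.not_lt_zero i)
    have hk : k ≠ 0 := fun e => by rw [e] at h2; exact absurd h2 (Fin.not_lt_zero j)
    have hl : l ≠ 0 := fun e => by rw [e] at h3; exact absurd h3 (Fin.not_lt_zero k)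
    have hjk : j.succ < k.succ := Fin.succ_lt_succ_iff.mpr h2
    have hkl : k.succ < l.succ := Fin.succ_lt_succ_iff.mpr h3
    rw [cab_ne hk hl, cab_ne hj hl]
    by_cases hi : i = 0
    · subst hi
      rw [cab_zero hk]
      have l1 := one_lt_succ hj
      have l0 := zero_lt_one' (m := m)
      have e : c k.succ l.succ * (c 0 k.succ * c 1 k.succ) * (c k.succ l.succ)⁻¹ =
          (c k.succ l.succ * c 0 k.succ * (c k.succ l.succ)⁻¹) *
            (c k.succ l.succ * c 1 k.succ * (c k.succ l.succ)⁻¹) := by group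
      rw [e]
      exact (h.q3 _ _ _ _ (l0.trans l1) hjk hkl).mul_left (h.q3 _ _ _ _ l1 hjk hkl)
    · rw [cab_ne hi hk]
      exact h.q3 _ _ _ _ (Fin.succ_lt_succ_iff.mpr h1) hjk hkl

/-- the cabled family commutes with the generator of the two fused strands -/
theorem cab_comm (h : PB c) (i j : Fin (m + 1)) (hij : i ≠ j) : Commute (c 0 1) (cab c i j) := by
  have l0 := zero_lt_one' (m := m)
  have key : ∀ j : Fin (m + 1), j ≠ 0 → Commute (c 0 1) (c 0 j.succ * c 1 j.succ) := by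
    intro j hj
    have t := PB.tri h l0 (one_lt_succ hj)
    have e : c 0 j.succ * c 1 j.succ = (c 0 1)⁻¹ * (c 0 1 * c 0 j.succ * c 1 j.succ) := by group
    rw [e]
    exact (Commute.refl _).inv_right.mul_right t.cx.symm
  by_cases hi : i = 0
  · subst hi
    rw [cab_zero hij.symm]
    exact key j hij.symm
  by_cases hj : j = 0
  · subst hj
    rw [cab_zero' hi]
    exact key i hi
  rw [cab_ne hi hj]
  rcases lt_or_gt_of_ne hij with h1 | h1
  · exact h.q1 _ _ _ _ l0 (one_lt_succ hi) (Fin.succ_lt_succ_iff.mpr h1)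
  · rw [h.symm i.succ j.succ]
    exact h.q1 _ _ _ _ l0 (one_lt_succ hj) (Fin.succ_lt_succ_iff.mpr h1)

end Pool.Agent.Bst88
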