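import Pool.Agent.Conf14.Ind

/-! Chains of commuting endomorphisms with partners. -/

namespace Pool.Agent.Bst88

open Module

variable {V : Type*} [AddCommGroup V] [Module ℂ V]

/-- a list of pairs, in which the first member of a pair commutes with both members of the later
pairs, but not with its partner -/
def Chain (L : List (End ℂ V × End ℂ V)) : Prop :=
  L.Pairwise (fun p q => Commute p.1 q.1 ∧ Commute p.1 q.2) ∧ ∀ p ∈ L, ¬ Commute p.1 p.2

theorem chain_nil : Chain ([] : List (End ℂ V × End ℂ V)) :=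
  ⟨List.Pairwise.nil, fun _ h => absurd h (List.not_mem_nil)⟩

theorem chain_cons {p : End ℂ V × End ℂ V} {L : List (End ℂ V × End ℂ V)} :
    Chain (p :: L) ↔ (∀ q ∈ L, Commute p.1 q.1 ∧ Commute p.1 q.2) ∧ ¬ Commute p.1 p.2 ∧ Chain L := by
  unfold Chain
  rw [List.pairwise_cons, List.forall_mem_cons]
  tauto

theorem Chain.le [FiniteDimensional ℂ V] [Nontrivial V] {L : List (End ℂ V × End ℂ V)}
    (h : Chain L) : L.length + 1 ≤ finrank ℂ V := by
  have hp := List.pairwise_iff_get.mp h.1
  have := Pool.Agent.Conf14.indep_iso (fun i : Fin L.length => (L.get i).1)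
    (fun i => (L.get i).2) (fun i => (i : ℕ)) ?_ ?_ ?_
  · rwa [Fintype.card_fin] at this
  · intro i j v
    rcases lt_trichotomy i j with hij | hij | hij
    · exact LinearMap.congr_fun (hp i j hij).1.eq v
    · rw [hij]
    · exact (LinearMap.congr_fun (hp j i hij).1.eq v).symm
  · intro i j hij ho v
    have hlt : i < j := lt_of_le_of_ne ho hij
    exact LinearMap.congr_fun (hp i j hlt).2.eq v
  · intro i
    have hn := h.2 (L.get i) (List.get_mem L i)
    by_contra hcon
    push Not at hcon
    exact hn (LinearMap.ext hcon)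

/-- restriction of a chain to a summand -/
theorem Chain.le_rank [FiniteDimensional ℂ V] {L : List (End ℂ V × End ℂ V)}
    (h : Chain L) {e : End ℂ V} (he : e * e = e) (h0 : e ≠ 0)
    (hc : ∀ p ∈ L, Commute e p.1 ∧ Commute e p.2)
    (hn : ∀ p ∈ L, p.1 * p.2 * e ≠ p.2 * p.1 * e) :
    L.length + 1 ≤ finrank ℂ (LinearMap.range e) := by
  have hinv : ∀ T : End ℂ V, Commute e T → ∀ v ∈ LinearMap.range e, T v ∈ LinearMap.range e := by
    rintro T hT _ ⟨v, rfl⟩
    exact ⟨T v, LinearMap.congr_fun hT.eq v⟩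
  have hev : ∀ v ∈ LinearMap.range e, e v = v := by
    rintro _ ⟨v, rfl⟩
    exact LinearMap.congr_fun he v
  let P : End ℂ V → End ℂ (LinearMap.range e) := fun T =>
    LinearMap.codRestrict (LinearMap.range e) ((e * T) ∘ₗ (LinearMap.range e).subtype)
      (fun v => ⟨T v, rfl⟩)
  have hP : ∀ T, Commute e T → ∀ v : LinearMap.range e, ((P T v : LinearMap.range e) : V) = T v := by
    intro T hT v
    show e (T v) = T v
    exact hev _ (hinv T hT v v.2)
  have hcomm : ∀ S T, Commute e S → Commute e T → Commute S T → Commute (P S) (P T) := by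
    intro S T hS hT hST
    refine LinearMap.ext fun v => Subtype.ext ?_
    show ((P S (P T v) : LinearMap.range e) : V) = ((P T (P S v) : LinearMap.range e) : V)
    rw [hP S hS, hP T hT, hP T hT, hP S hS]
    exact LinearMap.congr_fun hST.eq v
  haveI : Nontrivial (LinearMap.range e) := by
    rw [Submodule.nontrivial_iff_ne_bot]
    intro hb
    exact h0 (LinearMap.range_eq_bot.mp hb)
  have hch : Chain (L.map fun p => (P p.1, P p.2)) := by
    constructor
    · rw [List.pairwise_map]
      apply h.1.imp_of_mem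
      intro p q hp hq hpq
      exact ⟨hcomm _ _ (hc p hp).1 (hc q hq).1 hpq.1, hcomm _ _ (hc p hp).1 (hc q hq).2 hpq.2⟩
    · intro q hq
      obtain ⟨p, hp, rfl⟩ := List.mem_map.mp hq
      intro hcon
      apply hn p hp
      refine LinearMap.ext fun v => ?_
      have h1 := congrArg (Subtype.val) (LinearMap.congr_fun hcon.eq ⟨e v, v, rfl⟩)
      have h2 : ((P p.1 (P p.2 ⟨e v, v, rfl⟩) : LinearMap.range e) : V) = p.1 (p.2 (e v)) := by
        rw [hP p.1 (hc p hp).1, hP p.2 (hc p hp).2]
      have h3 : ((P p.2 (P p.1 ⟨e v, v, rfl⟩) : LinearMap.range e) : V) = p.2 (p.1 (e v)) := by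
        rw [hP p.2 (hc p hp).2, hP p.1 (hc p hp).1]
      show p.1 (p.2 (e v)) = p.2 (p.1 (e v))
      rw [← h2, ← h3]
      exact h1
  have := hch.le
  rwa [List.length_map] at this

end Pool.Agent.Bst88
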