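import Pool.Agent.Bst88.Swap

/-! A swap of two adjacent strands does not change the generated group. -/

namespace Pool.Agent.Bst88

open Pool.Agent.Conf14

variable {n : ℕ} {G : Type*} [Group G] {a : Fin n → Fin n → G} {p q : Fin n}

/-- the group generated by the family -/
def gp (a : Fin n → Fin n → G) : Subgroup G :=
  Subgroup.closure {g | ∃ i j, i ≠ j ∧ g = a i j}

theorem mem_gp {a : Fin n → Fin n → G} {i j : Fin n} (h : i ≠ j) : a i j ∈ gp a :=
  Subgroup.subset_closure ⟨i, j, h, rfl⟩

theorem sw_mem (hne : p ≠ q) {i j : Fin n} (hij : i ≠ j) : sw a p q i j ∈ gp a := by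
  have h1 : a (Equiv.swap p q i) (Equiv.swap p q j) ∈ gp a :=
    mem_gp fun e => hij ((Equiv.swap p q).injective e)
  rw [sw]
  split_ifs
  · exact (gp a).mul_mem ((gp a).mul_mem (mem_gp hne) h1) ((gp a).inv_mem (mem_gp hne))
  · exact h1

theorem mem_sw (h : PB a) (hpq : (q : ℕ) = p + 1) {i j : Fin n} (hij : i ≠ j) :
    a i j ∈ gp (sw a p q) := by
  have hne : p ≠ q := by
    intro e
    rw [e] at hpq
    omega
  have h0 : a p q ∈ gp (sw a p q) := by
    have := mem_gp (a := sw a p q) hne
    rwa [sw_pq h hpq] at this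
  have h1 : sw a p q (Equiv.swap p q i) (Equiv.swap p q j) ∈ gp (sw a p q) :=
    mem_gp fun e => hij ((Equiv.swap p q).injective e)
  rw [sw, Equiv.swap_apply_self, Equiv.swap_apply_self] at h1
  split_ifs at h1
  · have h2 := (gp (sw a p q)).mul_mem ((gp (sw a p q)).mul_mem
      ((gp (sw a p q)).inv_mem h0) h1) h0
    have e : (a p q)⁻¹ * (a p q * a i j * (a p q)⁻¹) * a p q = a i j := by group
    rwa [e] at h2
  · exact h1

theorem gp_sw (h : PB a) (hpq : (q : ℕ) = p + 1) : gp (sw a p q) = gp a := by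
  have hne : p ≠ q := by
    intro e
    rw [e] at hpq
    omega
  apply le_antisymm
  · apply (Subgroup.closure_le _).mpr
    rintro _ ⟨i, j, hij, rfl⟩
    exact sw_mem hne hij
  · apply (Subgroup.closure_le _).mpr
    rintro _ ⟨i, j, hij, rfl⟩
    exact mem_sw h hpq hij

end Pool.Agent.Bst88
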