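import Pool.Agent.Bst88.Ord
import Pool.Agent.Bst88.Gen

/-! Reorderings which keep the strand `0`. -/

namespace Pool.Agent.Bst88

open Pool.Agent.Conf14

variable {n : ℕ} {G : Type*} [Group G]

/-- the families obtained by adjacent swaps which do not move the first strand -/
inductive Rch (c : Fin n → Fin n → G) : (Fin n → Fin n → G) → Equiv.Perm (Fin n) → Prop
  | refl : Rch c c 1
  | step {c' : Fin n → Fin n → G} {w : Equiv.Perm (Fin n)} (p q : Fin n) (hr : Rch c c' w)
      (hp : 0 < (p : ℕ)) (hpq : (q : ℕ) = p + 1) : Rch c (sw c' p q) (w * Equiv.swap p q)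

variable {c c' c'' : Fin n → Fin n → G} {w w' : Equiv.Perm (Fin n)}

theorem Rch.trans (h1 : Rch c c' w) (h2 : Rch c' c'' w') : Rch c c'' (w * w') := by
  induction h2 with
  | refl => rw [mul_one]; exact h1
  | step p q hr hp hpq ih =>
      rw [← mul_assoc]
      exact Rch.step p q ih hp hpq

theorem Rch.reo (h : PB c) (hr : Rch c c' w) : Reo c c' w := by
  induction hr with
  | refl => exact ⟨h, fun i j k _ _ _ => Iff.rfl⟩
  | step p q hr hp hpq ih =>
      have h2 := reo_swap ih.pb hpq
      refine ⟨h2.pb, fun i j k hij hjk hik => ?_⟩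
      rw [h2.cm i j k hij hjk hik, ih.cm _ _ _ (fun e => hij ((Equiv.swap p q).injective e))
        (fun e => hjk ((Equiv.swap p q).injective e)) (fun e => hik ((Equiv.swap p q).injective e))]
      rfl

theorem Rch.gp (h : PB c) (hr : Rch c c' w) : gp c' = gp c := by
  induction hr with
  | refl => rfl
  | step p q hr hp hpq ih => rw [gp_sw (hr.reo h).pb hpq, ih]

theorem Rch.zero {m : ℕ} {c c' : Fin (m + 1) → Fin (m + 1) → G} {w : Equiv.Perm (Fin (m + 1))}
    (hr : Rch c c' w) : w 0 = 0 := by
  induction hr with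
  | refl => rfl
  | step p q hr hp hpq ih =>
      rw [Equiv.Perm.mul_apply, Equiv.swap_apply_of_ne_of_ne, ih]
      · intro e
        rw [← e] at hp
        exact absurd hp (lt_irrefl _)
      · intro e
        rw [← e] at hpq
        have : ((0 : Fin (m + 1)) : ℕ) = 0 := rfl
        omega

/-- the strand `q` can be moved down to the position `p` without changing its entries -/
theorem exists_down (d : ℕ) : ∀ (c : Fin n → Fin n → G), PB c → ∀ p q : Fin n, 0 < (p : ℕ) →
    (q : ℕ) = p + d → ∃ c' w, Rch c c' w ∧ w p = q ∧ (∀ j, j < p → w j = j) ∧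
      (∀ j, q < j → w j = j) ∧ (∀ j, j ≠ p → c' p j = c q (w j)) ∧
      ∀ i j, i < p ∨ q < i → j < p ∨ q < j → c' i j = c i j := by
  induction d with
  | zero =>
      intro c h p q hp hq
      have e : q = p := Fin.ext (by omega)
      subst e
      exact ⟨c, 1, Rch.refl, rfl, fun _ _ => rfl, fun _ _ => rfl, fun _ _ => rfl, fun _ _ _ _ => rfl⟩
  | succ d ih =>
      intro c h p q hp hq
      have hqn : (q : ℕ) - 1 < n := by omega
      obtain ⟨r, hr⟩ : ∃ r : Fin n, r = ⟨(q : ℕ) - 1, hqn⟩ := ⟨_, rfl⟩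
      have hrv : (r : ℕ) = q - 1 := by rw [hr]
      have hrq : (q : ℕ) = r + 1 := by omega
      have hpr : p ≤ r := by rw [Fin.le_def]; omega
      have hrq' : r < q := by rw [Fin.lt_def]; omega
      have h1 := PB.sw h hrq
      obtain ⟨c', w', g1, g2, g3, g4, g5, g6⟩ := ih (sw c r q) h1 p r hp (by omega)
      have hc1 : Rch c (sw c r q) (Equiv.swap r q) := by
        have := Rch.step (c := c) r q Rch.refl (by omega) hrq
        rwa [one_mul] at this
      refine ⟨c', Equiv.swap r q * w', hc1.trans g1, ?_, ?_, ?_, ?_, ?_⟩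
      · rw [Equiv.Perm.mul_apply, g2, Equiv.swap_apply_left]
      · intro j hj
        rw [Equiv.Perm.mul_apply, g3 j hj, Equiv.swap_apply_of_ne_of_ne (hj.trans_le hpr).ne
          ((hj.trans_le hpr).trans hrq').ne]
      · intro j hj
        rw [Equiv.Perm.mul_apply, g4 j (hrq'.trans hj), Equiv.swap_apply_of_ne_of_ne
          (hrq'.trans hj).ne' hj.ne']
      · intro j hj
        rw [g5 j hj, Equiv.Perm.mul_apply]
        have hne : w' j ≠ r := by
          intro e
          rw [← g2] at e
          exact hj (w'.injective e)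
        by_cases hq' : w' j = q
        · rw [hq', Equiv.swap_apply_right, sw_pq h hrq, h.symm]
        · rw [sw_p hne hq' hrq'.ne, Equiv.swap_apply_of_ne_of_ne hne hq']
      · intro i j hi hj
        have key : ∀ i : Fin n, i < p ∨ q < i → i ≠ r ∧ i ≠ q ∧ (i < p ∨ r < i) := by
          intro i hi
          rcases hi with hi | hi
          · exact ⟨(hi.trans_le hpr).ne, ((hi.trans_le hpr).trans hrq').ne, Or.inl hi⟩
          · exact ⟨(hrq'.trans hi).ne', hi.ne', Or.inr (hrq'.trans hi)⟩
        obtain ⟨k1, k2, k3⟩ := key i hi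
        obtain ⟨k4, k5, k6⟩ := key j hj
        rw [g6 i j k3 k6, sw_o k1 k2 k4 k5]

end Pool.Agent.Bst88
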