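import Pool.Agent.Bst88.Gen

/-! Infinity as a strand: the big loops `E k` of a family with the pure braid relations, and the
extended family in which infinity is the strand `0`. -/

namespace Pool.Agent.Bst88

open Pool.Agent.Conf14

/-- product of the values of `f` along a list -/
def pr {ι G : Type*} [Group G] (f : ι → G) (L : List ι) : G := (L.map f).prod

section
variable {ι G : Type*} [Group G]

@[simp] theorem pr_nil (f : ι → G) : pr f [] = 1 := rfl

@[simp] theorem pr_cons (f : ι → G) (u : ι) (L : List ι) : pr f (u :: L) = f u * pr f L := by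
  simp [pr]

@[simp] theorem pr_append (f : ι → G) (L M : List ι) : pr f (L ++ M) = pr f L * pr f M := by
  simp [pr]

theorem pr_congr {f g : ι → G} {L : List ι} (h : ∀ u ∈ L, f u = g u) : pr f L = pr g L := by
  unfold pr
  rw [List.map_congr_left h]

theorem pr_comm {f : ι → G} {L : List ι} {w : G} (h : ∀ u ∈ L, Commute (f u) w) :
    Commute (pr f L) w := by
  induction L with
  | nil => exact Commute.one_left _
  | cons u L ih =>
      rw [pr_cons]
      exact (h u (by simp)).mul_left (ih fun v hv => h v (by simp [hv]))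

theorem pr_conj {f : ι → G} {L : List ι} {x : G} :
    x * pr f L * x⁻¹ = pr (fun u => x * f u * x⁻¹) L := by
  induction L with
  | nil => simp
  | cons u L ih =>
      rw [pr_cons, pr_cons, ← ih]
      group

end

/-- the element in front of a sorted list -/
theorem exists_cons {n : ℕ} {L : List (Fin n)} (hL : L.Pairwise (· < ·)) {q : Fin n} (hq : q ∈ L)
    (hm : ∀ u ∈ L, q ≤ u) :
    ∃ M : List (Fin n), L = q :: M ∧ M.Pairwise (· < ·) ∧ ∀ u ∈ M, q < u := by
  cases L with
  | nil => simp at hq
  | cons u M =>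
      rw [List.pairwise_cons] at hL
      rcases List.mem_cons.mp hq with rfl | h1
      · exact ⟨M, rfl, hL.2, hL.1⟩
      · exact absurd (hL.1 q h1) (not_lt.mpr (hm u (by simp)))

/-- the ordered list of all strands, cut at `k` -/
theorem exists_cut {n : ℕ} (k : Fin n) :
    ∃ L M : List (Fin n), List.finRange n = L ++ k :: M ∧ L.Pairwise (· < ·) ∧
      M.Pairwise (· < ·) ∧ (∀ u ∈ L, u < k) ∧ (∀ u ∈ M, k < u) ∧ ∀ u, k < u → u ∈ M := by
  obtain ⟨L, M, h⟩ := List.append_of_mem (List.mem_finRange k)
  have hs : (List.finRange n).Pairwise (· < ·) := List.pairwise_lt_finRange n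
  rw [h, List.pairwise_append, List.pairwise_cons] at hs
  refine ⟨L, M, h, hs.1, hs.2.1.2, fun u hu => hs.2.2 u hu k (by simp), hs.2.1.1, ?_⟩
  intro u hu
  have h1 : u ∈ List.finRange n := List.mem_finRange u
  rw [h] at h1
  rcases List.mem_append.mp h1 with h2 | h2
  · exact absurd (hs.2.2 u h2 k (by simp)) (not_lt.mpr hu.le)
  · rcases List.mem_cons.mp h2 with h3 | h3
    · exact absurd hu (by rw [h3]; exact lt_irrefl _)
    · exact h3

/-- cut at two adjacent strands -/
theorem exists_cut2 {n : ℕ} {p q : Fin n} (hpq : (q : ℕ) = p + 1) :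
    ∃ L M : List (Fin n), List.finRange n = L ++ p :: q :: M ∧ L.Pairwise (· < ·) ∧
      M.Pairwise (· < ·) ∧ (∀ u ∈ L, u < p) ∧ (∀ u ∈ M, q < u) ∧ ∀ u, q < u → u ∈ M := by
  obtain ⟨L, M, h1, h2, h3, h4, h5, h6⟩ := exists_cut p
  have hlt : p < q := by rw [Fin.lt_def]; omega
  obtain ⟨M', rfl, h7, h8⟩ := exists_cons h3 (h6 q hlt) (fun u hu => by
    have := h5 u hu
    rw [Fin.lt_def] at this
    rw [Fin.le_def]
    omega)
  refine ⟨L, M', h1, h2, h7, h4, h8, fun u hu => ?_⟩
  rcases List.mem_cons.mp (h6 u (hlt.trans hu)) with h9 | h9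
  · exact absurd hu (by rw [h9]; exact lt_irrefl _)
  · exact h9

/-- cut at three adjacent strands -/
theorem exists_cut3 {n : ℕ} {p q r : Fin n} (hpq : (q : ℕ) = p + 1) (hqr : (r : ℕ) = q + 1) :
    ∃ L M : List (Fin n), List.finRange n = L ++ p :: q :: r :: M ∧ L.Pairwise (· < ·) ∧
      M.Pairwise (· < ·) ∧ (∀ u ∈ L, u < p) ∧ (∀ u ∈ M, r < u) := by
  obtain ⟨L, M, h1, h2, h3, h4, h5, h6⟩ := exists_cut2 hpq
  have hlt : q < r := by rw [Fin.lt_def]; omega
  obtain ⟨M', rfl, h7, h8⟩ := exists_cons h3 (h6 r hlt) (fun u hu => by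
    have := h5 u hu
    rw [Fin.lt_def] at this
    rw [Fin.le_def]
    omega)
  exact ⟨L, M', h1, h2, h7, h4, h8⟩

variable {n : ℕ} {G : Type*} [Group G] {a : Fin n → Fin n → G}

/-- the big loop of the strand `k` -/
def big (a : Fin n → Fin n → G) (k : Fin n) : G :=
  pr (fun l => if l = k then 1 else a k l) (List.finRange n)

/-- on a list which does not contain `k` -/
theorem pr_ite {k : Fin n} {L : List (Fin n)} (h : ∀ u ∈ L, u ≠ k) :
    pr (fun l => if l = k then 1 else a k l) L = pr (a k) L :=
  pr_congr fun u hu => if_neg (h u hu)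

theorem big_p {p q : Fin n} (hpq : (q : ℕ) = p + 1) {L M : List (Fin n)}
    (h : List.finRange n = L ++ p :: q :: M) (hL : ∀ u ∈ L, u < p) (hM : ∀ u ∈ M, q < u) :
    big a p = pr (a p) L * (a p q * pr (a p) M) := by
  have hlt : p < q := by rw [Fin.lt_def]; omega
  unfold big
  rw [h, pr_append, pr_cons, pr_cons, pr_ite fun u hu => (hL u hu).ne,
    pr_ite fun u hu => (hlt.trans (hM u hu)).ne', if_pos rfl, if_neg hlt.ne', one_mul]

theorem big_q (hs : PB a) {p q : Fin n} (hpq : (q : ℕ) = p + 1) {L M : List (Fin n)}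
    (h : List.finRange n = L ++ p :: q :: M) (hL : ∀ u ∈ L, u < p) (hM : ∀ u ∈ M, q < u) :
    big a q = pr (a q) L * (a p q * pr (a q) M) := by
  have hlt : p < q := by rw [Fin.lt_def]; omega
  unfold big
  rw [h, pr_append, pr_cons, pr_cons, pr_ite fun u hu => ((hL u hu).trans hlt).ne,
    pr_ite fun u hu => (hM u hu).ne', if_pos rfl, if_neg hlt.ne, one_mul, hs.symm q p]

/-- a triple with two adjacent strands -/
theorem tri_adj (h : PB a) {p q k : Fin n} (hpq : (q : ℕ) = p + 1) (hp : k ≠ p) (hq : k ≠ q) :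
    Commute (a k p * a k q) (a p q) ∧ a k q * (a p q * a k p * (a p q)⁻¹) = a k p * a k q := by
  have hlt : p < q := by rw [Fin.lt_def]; omega
  rcases lt_or_gt_of_ne hp with h1 | h1
  · have t := PB.tri h h1 hlt
    refine ⟨g_comm (c := a p q) ?_ (Commute.refl _) |>.symm, ?_⟩
    · exact t.cz.symm
    · have := t.rot2
      calc a k q * (a p q * a k p * (a p q)⁻¹) = (a k q * a p q * a k p) * (a p q)⁻¹ := by group
        _ = _ := by rw [this]; group
  · have h2 : q < k := by
      rw [Fin.lt_def] at h1 ⊢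
      have : (k : ℕ) ≠ q := fun e => hq (Fin.ext e)
      omega
    have t := PB.tri h hlt h2
    rw [h.symm k p, h.symm k q]
    refine ⟨?_, ?_⟩
    · have := t.cx
      have e : a p k * a q k = (a p q)⁻¹ * (a p q * a p k * a q k) := by group
      rw [e]
      exact (Commute.refl _).inv_left.mul_left this
    · have e1 := t.rot
      have e2 := t.rot2
      calc a q k * (a p q * a p k * (a p q)⁻¹) = (a q k * a p q * a p k) * (a p q)⁻¹ := by group
        _ = _ := by rw [e1, ← e2]; group

/-- `a p q` commutes with the other big loops, `p`, `q` adjacent -/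
theorem big_adj (h : PB a) {p q k : Fin n} (hpq : (q : ℕ) = p + 1) (hp : k ≠ p) (hq : k ≠ q) :
    Commute (big a k) (a p q) := by
  obtain ⟨L, M, h1, -, -, h4, h5, -⟩ := exists_cut2 hpq
  have hlt : p < q := by rw [Fin.lt_def]; omega
  have key : ∀ u : Fin n, u ≠ p → u ≠ q → Commute (if u = k then 1 else a k u) (a p q) := by
    intro u hu1 hu2
    by_cases hu : u = k
    · rw [if_pos hu]
      exact Commute.one_left _
    · rw [if_neg hu]
      exact (PB.adj h hpq hp hq hu1 hu2 (Ne.symm hu)).symm
  unfold big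
  rw [h1, pr_append, pr_cons, pr_cons, if_neg hp.symm, if_neg hq.symm, ← mul_assoc (a k p)]
  refine (pr_comm fun u hu => key u (h4 u hu).ne ((h4 u hu).trans hlt).ne).mul_left
    ((tri_adj h hpq hp hq).1.mul_left (pr_comm fun u hu => key u (hlt.trans (h5 u hu)).ne'
      (h5 u hu).ne'))

/-- the other big loops do not change -/
theorem big_sw_o (h : PB a) {p q k : Fin n} (hpq : (q : ℕ) = p + 1) (hp : k ≠ p) (hq : k ≠ q) :
    big (sw a p q) k = big a k := by
  obtain ⟨L, M, h1, -, -, h4, h5, -⟩ := exists_cut2 hpq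
  have hlt : p < q := by rw [Fin.lt_def]; omega
  have key : ∀ u : Fin n, u ≠ p → u ≠ q →
      (if u = k then 1 else sw a p q k u) = (if u = k then 1 else a k u) := by
    intro u hu1 hu2
    by_cases hu : u = k
    · rw [if_pos hu, if_pos hu]
    · rw [if_neg hu, if_neg hu, sw_o hp hq hu1 hu2]
  unfold big
  rw [h1, pr_append, pr_cons, pr_cons, pr_append, pr_cons, pr_cons, if_neg hp.symm, if_neg hq.symm,
    if_neg hp.symm, if_neg hq.symm, sw_p' hp hq hlt.ne, sw_q' hp hq, h.symm k p, h.symm k q]
  rw [pr_congr fun u hu => key u (h4 u hu).ne ((h4 u hu).trans hlt).ne,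
    pr_congr fun u hu => key u (hlt.trans (h5 u hu)).ne' (h5 u hu).ne']
  have e := (tri_adj h hpq hp hq).2
  rw [h.symm k p, h.symm k q] at e
  rw [← mul_assoc (a q k), ← mul_assoc (a p k), e]

theorem big_sw_p (h : PB a) {p q : Fin n} (hpq : (q : ℕ) = p + 1) :
    big (sw a p q) p = big a q := by
  obtain ⟨L, M, h1, -, -, h4, h5, -⟩ := exists_cut2 hpq
  have hlt : p < q := by rw [Fin.lt_def]; omega
  rw [big_p hpq h1 h4 h5, big_q h hpq h1 h4 h5, sw_pq h hpq]
  rw [pr_congr (f := sw a p q p) (g := a q) fun u hu => sw_p (h4 u hu).ne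
      ((h4 u hu).trans hlt).ne hlt.ne,
    pr_congr (f := sw a p q p) (g := a q) fun u hu => sw_p (hlt.trans (h5 u hu)).ne'
      (h5 u hu).ne' hlt.ne]

theorem big_sw_q (h : PB a) {p q : Fin n} (hpq : (q : ℕ) = p + 1) :
    big (sw a p q) q = a p q * big a p * (a p q)⁻¹ := by
  obtain ⟨L, M, h1, -, -, h4, h5, -⟩ := exists_cut2 hpq
  have hlt : p < q := by rw [Fin.lt_def]; omega
  rw [big_p hpq h1 h4 h5, big_q (PB.sw h hpq) hpq h1 h4 h5, sw_pq h hpq]
  rw [pr_congr (f := sw a p q q) (g := fun u => a p q * a p u * (a p q)⁻¹) fun u hu =>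
      sw_q (h4 u hu).ne ((h4 u hu).trans hlt).ne,
    pr_congr (f := sw a p q q) (g := fun u => a p q * a p u * (a p q)⁻¹) fun u hu =>
      sw_q (hlt.trans (h5 u hu)).ne' (h5 u hu).ne', ← pr_conj, ← pr_conj]
  group

/-- the relations between the columns of two adjacent strands: strands before them -/
theorem cols_before (h : PB a) {p q : Fin n} (hpq : (q : ℕ) = p + 1) {L : List (Fin n)}
    (hL : L.Pairwise (· < ·)) (hlt : ∀ u ∈ L, u < p) :
    pr (a p) L * pr (a q) L * a p q = a p q * pr (a p) L * pr (a q) L ∧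
      pr (a q) L * a p q * pr (a p) L = a p q * pr (a p) L * pr (a q) L := by
  have h0 : p < q := by rw [Fin.lt_def]; omega
  induction L with
  | nil => simp
  | cons l L ih =>
      rw [List.pairwise_cons] at hL
      obtain ⟨i1, i2⟩ := ih hL.2 fun u hu => hlt u (by simp [hu])
      have hl : l < p := hlt l (by simp)
      have t := PB.tri h hl h0
      simp only [pr_cons]
      rw [h.symm p l, h.symm q l]
      obtain ⟨x, hx⟩ : ∃ x, x = a p q := ⟨_, rfl⟩
      obtain ⟨A, hA⟩ : ∃ A, A = pr (a p) L := ⟨_, rfl⟩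
      obtain ⟨B, hB⟩ : ∃ B, B = pr (a q) L := ⟨_, rfl⟩
      have c1 : Commute A (a l q) := by
        rw [hA]
        refine pr_comm fun u hu => ?_
        rw [h.symm p u]
        exact (h.q2 l u p q (hL.1 u hu) (hlt u (by simp [hu])) h0).symm
      have c2 : Commute B (x * a l p * x⁻¹) := by
        rw [hB, hx]
        refine pr_comm fun u hu => ?_
        rw [h.symm q u]
        exact (h.q3 l u p q (hL.1 u hu) (hlt u (by simp [hu])) h0).symm
      rw [← hx, ← hA, ← hB] at i1 i2
      rw [← hx] at t
      rw [← hx, ← hA, ← hB]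
      have r1 := t.rot
      have r2 := t.rot2
      constructor
      · calc a l p * A * (a l q * B) * x = a l p * (A * a l q) * B * x := by group
          _ = a l p * (a l q * A) * B * x := by rw [c1.eq]
          _ = a l p * a l q * (A * B * x) := by group
          _ = a l p * a l q * (x * A * B) := by rw [i1]
          _ = (a l p * a l q * x) * A * B := by group
          _ = (x * a l p * a l q) * A * B := by rw [r1]
          _ = x * a l p * (a l q * A) * B := by group
          _ = x * a l p * (A * a l q) * B := by rw [c1.eq]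
          _ = _ := by group
      · calc a l q * B * x * (a l p * A) = a l q * (B * (x * a l p * x⁻¹)) * x * A := by group
          _ = a l q * ((x * a l p * x⁻¹) * B) * x * A := by rw [c2.eq]
          _ = a l q * (x * a l p * x⁻¹) * (B * x * A) := by group
          _ = a l q * (x * a l p * x⁻¹) * (x * A * B) := by rw [i2]
          _ = (a l q * x * a l p) * A * B := by group
          _ = (x * a l p * a l q) * A * B := by rw [r2, r1]
          _ = x * a l p * (a l q * A) * B := by group
          _ = x * a l p * (A * a l q) * B := by rw [c1.eq]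
          _ = _ := by group

/-- strands after them -/
theorem cols_after (h : PB a) {p q : Fin n} (hpq : (q : ℕ) = p + 1) {L : List (Fin n)}
    (hL : L.Pairwise (· < ·)) (hlt : ∀ u ∈ L, q < u) :
    pr (a p) L * pr (a q) L * a p q = a p q * pr (a p) L * pr (a q) L ∧
      pr (a q) L * a p q * pr (a p) L = a p q * pr (a p) L * pr (a q) L := by
  have h0 : p < q := by rw [Fin.lt_def]; omega
  induction L with
  | nil => simp
  | cons f L ih =>
      rw [List.pairwise_cons] at hL
      obtain ⟨i1, i2⟩ := ih hL.2 fun u hu => hlt u (by simp [hu])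
      have hf : q < f := hlt f (by simp)
      have t := PB.tri h h0 hf
      simp only [pr_cons]
      obtain ⟨x, hx⟩ : ∃ x, x = a p q := ⟨_, rfl⟩
      obtain ⟨A, hA⟩ : ∃ A, A = pr (a p) L := ⟨_, rfl⟩
      obtain ⟨B, hB⟩ : ∃ B, B = pr (a q) L := ⟨_, rfl⟩
      have c1 : Commute A (a q f) := by
        rw [hA]
        exact pr_comm fun u hu => h.q2 p q f u h0 hf (hL.1 u hu)
      have c2 : Commute B (x * a p f * x⁻¹) := by
        rw [hB, hx]
        exact pr_comm fun u hu => (PB.f2 h h0 hf (hL.1 u hu)).symm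
      rw [← hx, ← hA, ← hB] at i1 i2
      rw [← hx] at t
      rw [← hx, ← hA, ← hB]
      -- t : Tri x (a p f) (a q f)
      have r1 := t.rot
      have r2 := t.rot2
      constructor
      · calc a p f * A * (a q f * B) * x = a p f * (A * a q f) * B * x := by group
          _ = a p f * (a q f * A) * B * x := by rw [c1.eq]
          _ = a p f * a q f * (A * B * x) := by group
          _ = a p f * a q f * (x * A * B) := by rw [i1]
          _ = (a p f * a q f * x) * A * B := by group
          _ = (x * a p f * a q f) * A * B := by rw [r2]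
          _ = x * a p f * (a q f * A) * B := by group
          _ = x * a p f * (A * a q f) * B := by rw [c1.eq]
          _ = _ := by group
      · calc a q f * B * x * (a p f * A) = a q f * (B * (x * a p f * x⁻¹)) * x * A := by group
          _ = a q f * ((x * a p f * x⁻¹) * B) * x * A := by rw [c2.eq]
          _ = a q f * (x * a p f * x⁻¹) * (B * x * A) := by group
          _ = a q f * (x * a p f * x⁻¹) * (x * A * B) := by rw [i2]
          _ = (a q f * x * a p f) * A * B := by group
          _ = (x * a p f * a q f) * A * B := by rw [r1]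
          _ = x * a p f * (a q f * A) * B := by group
          _ = x * a p f * (A * a q f) * B := by rw [c1.eq]
          _ = _ := by group

/-- all relations between the columns of two adjacent strands -/
theorem cols (h : PB a) {p q : Fin n} (hpq : (q : ℕ) = p + 1) :
    ∃ A B C D : G, big a p = A * (a p q * C) ∧ big a q = B * (a p q * D) ∧ Commute A D ∧
      A * B * a p q = a p q * A * B ∧ B * a p q * A = a p q * A * B ∧
      C * D * a p q = a p q * C * D ∧ D * a p q * C = a p q * C * D ∧
      Commute C (D * B * D⁻¹) := by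
  obtain ⟨L, M, h1, h2, h3, h4, h5, -⟩ := exists_cut2 hpq
  have h0 : p < q := by rw [Fin.lt_def]; omega
  obtain ⟨b1, b2⟩ := cols_before h hpq h2 h4
  obtain ⟨d1, d2⟩ := cols_after h hpq h3 h5
  refine ⟨pr (a p) L, pr (a q) L, pr (a p) M, pr (a q) M, big_p hpq h1 h4 h5,
    big_q h hpq h1 h4 h5, ?_, b1, b2, d1, d2, ?_⟩
  · refine pr_comm fun u hu => (pr_comm fun v hv => ?_).symm
    rw [h.symm p u]
    exact (h.q1 u p q v (h4 u hu) h0 (h5 v hv)).symm
  · have c : Commute (a p q * pr (a p) M * (a p q)⁻¹) (pr (a q) L) := by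
      rw [pr_conj]
      refine pr_comm fun v hv => (pr_comm fun u hu => ?_).symm
      rw [h.symm q u]
      exact PB.f3 h (h4 u hu) h0 (h5 v hv)
    have e : a p q * pr (a p) M * (a p q)⁻¹ = (pr (a q) M)⁻¹ * pr (a p) M * pr (a q) M := by
      have : pr (a q) M * (a p q * pr (a p) M) = pr (a p) M * pr (a q) M * a p q := by
        rw [← mul_assoc, d2, d1]
      calc a p q * pr (a p) M * (a p q)⁻¹ =
          (pr (a q) M)⁻¹ * (pr (a q) M * (a p q * pr (a p) M)) * (a p q)⁻¹ := by group
        _ = _ := by rw [this]; group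
    rw [e, ← conj_comm (x := pr (a q) M)] at c
    have e2 : pr (a q) M * ((pr (a q) M)⁻¹ * pr (a p) M * pr (a q) M) * (pr (a q) M)⁻¹ =
        pr (a p) M := by group
    rwa [e2] at c

/-- R4 for adjacent strands -/
theorem r4_adj (h : PB a) {p q : Fin n} (hpq : (q : ℕ) = p + 1) :
    Commute (big a q * big a p) (a p q) := by
  obtain ⟨A, B, C, D, e1, e2, c1, b1, b2, d1, d2, -⟩ := cols h hpq
  rw [e1, e2]
  obtain ⟨x, hx⟩ : ∃ x, x = a p q := ⟨_, rfl⟩
  rw [← hx] at b1 b2 d1 d2 ⊢
  have e : B * (x * D) * (A * (x * C)) = (A * B * x) * (x * C * D) := by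
    calc B * (x * D) * (A * (x * C)) = B * x * (D * A) * x * C := by group
      _ = B * x * (A * D) * x * C := by rw [c1.eq]
      _ = (B * x * A) * (D * x * C) := by group
      _ = _ := by rw [b2, d2, b1]
  rw [e]
  have f1 : Commute (A * B * x) x := by
    have : A * B * x * x = x * (A * B * x) := by
      calc A * B * x * x = (A * B * x) * x := rfl
        _ = (x * A * B) * x := by rw [b1]
        _ = _ := by group
    exact this
  have f2 : Commute (x * C * D) x := by
    have : x * C * D * x = x * (x * C * D) := by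
      calc x * C * D * x = x * (C * D * x) := by group
        _ = _ := by rw [d1]
    exact this
  exact f1.mul_left f2

/-- R5 for adjacent strands -/
theorem r5_adj (h : PB a) {p q : Fin n} (hpq : (q : ℕ) = p + 1) :
    Commute ((a p q)⁻¹ * big a q * big a p) (big a q) := by
  obtain ⟨A, B, C, D, e1, e2, c1, b1, b2, d1, d2, c2⟩ := cols h hpq
  rw [e1, e2]
  obtain ⟨x, hx⟩ : ∃ x, x = a p q := ⟨_, rfl⟩
  rw [← hx] at b1 b2 d1 d2 ⊢
  have e : x⁻¹ * (B * (x * D)) * (A * (x * C)) = A * B * x * C * D := by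
    calc x⁻¹ * (B * (x * D)) * (A * (x * C)) = x⁻¹ * (B * x * (D * A) * x * C) := by group
      _ = x⁻¹ * (B * x * (A * D) * x * C) := by rw [c1.eq]
      _ = x⁻¹ * ((B * x * A) * (D * x * C)) := by group
      _ = x⁻¹ * ((x * A * B) * (x * C * D)) := by rw [b2, d2]
      _ = _ := by group
  rw [e]
  have c3 : C * (D * B * D⁻¹) = D * B * D⁻¹ * C := c2.eq
  have : A * B * x * C * D * (B * (x * D)) = B * (x * D) * (A * B * x * C * D) := by
    calc A * B * x * C * D * (B * (x * D)) = A * B * x * (C * (D * B * D⁻¹)) * D * x * D := by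
          group
      _ = A * B * x * (D * B * D⁻¹ * C) * D * x * D := by rw [c3]
      _ = A * B * x * D * B * D⁻¹ * (C * D * x) * D := by group
      _ = A * B * x * D * B * D⁻¹ * (D * x * C) * D := by rw [d1, d2]
      _ = (A * B * x) * D * B * x * C * D := by group
      _ = (B * x * A) * D * B * x * C * D := by rw [b1, b2]
      _ = B * x * (A * D) * B * x * C * D := by group
      _ = B * x * (D * A) * B * x * C * D := by rw [c1.eq]
      _ = _ := by group
  exact this

/-- R1, R2 -/
theorem r12 {n : ℕ} {G : Type*} [Group G] (d : ℕ) : ∀ {a : Fin n → Fin n → G}, PB a →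
    ∀ {i j k : Fin n}, (j : ℕ) = i + d + 1 → (k < i ∨ j < k) → Commute (big a k) (a i j) := by
  induction d with
  | zero =>
      intro a h i j k hj hk
      have h0 : i < j := by rw [Fin.lt_def]; omega
      refine big_adj h (by omega) ?_ ?_
      · rcases hk with hk | hk
        · exact hk.ne
        · exact (h0.trans hk).ne'
      · rcases hk with hk | hk
        · exact (hk.trans h0).ne
        · exact hk.ne'
  | succ d ih =>
      intro a h i j k hj hk
      have hjn : (j : ℕ) - 1 < n := by omega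
      obtain ⟨p, hp⟩ : ∃ p : Fin n, p = ⟨(j : ℕ) - 1, hjn⟩ := ⟨_, rfl⟩
      have hpv : (p : ℕ) = j - 1 := by rw [hp]
      have hpj : (j : ℕ) = p + 1 := by omega
      have hip : i < p := by rw [Fin.lt_def]; omega
      have hpj' : p < j := by rw [Fin.lt_def]; omega
      have hkp : k ≠ p := by
        rintro rfl
        rcases hk with hk | hk <;> rw [Fin.lt_def] at hk <;> omega
      have hkj : k ≠ j := by
        rintro rfl
        rcases hk with hk | hk <;> rw [Fin.lt_def] at hk <;> omega
      have := ih (PB.sw h hpj) (i := i) (j := p) (k := k) (by omega) (by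
        rcases hk with hk | hk
        · exact Or.inl hk
        · exact Or.inr (hpj'.trans hk))
      rw [big_sw_o h hpj hkp hkj, sw_p' hip.ne (hip.trans hpj').ne hpj'.ne] at this
      exact this

/-- R4, R5 -/
theorem r45 {n : ℕ} {G : Type*} [Group G] (d : ℕ) : ∀ {a : Fin n → Fin n → G}, PB a →
    ∀ {i j : Fin n}, (j : ℕ) = i + d + 1 → Commute (big a j * big a i) (a i j) ∧
      Commute ((a i j)⁻¹ * big a j * big a i) (big a j) := by
  induction d with
  | zero =>
      intro a h i j hj
      exact ⟨r4_adj h (by omega), r5_adj h (by omega)⟩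
  | succ d ih =>
      intro a h i j hj
      have hjn : (j : ℕ) - 1 < n := by omega
      obtain ⟨p, hp⟩ : ∃ p : Fin n, p = ⟨(j : ℕ) - 1, hjn⟩ := ⟨_, rfl⟩
      have hpv : (p : ℕ) = j - 1 := by rw [hp]
      have hpj : (j : ℕ) = p + 1 := by omega
      have hip : i < p := by rw [Fin.lt_def]; omega
      have hpj' : p < j := by rw [Fin.lt_def]; omega
      have := ih (PB.sw h hpj) (i := i) (j := p) (by omega)
      rw [big_sw_o h hpj hip.ne (hip.trans hpj').ne, big_sw_p h hpj,
        sw_p' hip.ne (hip.trans hpj').ne hpj'.ne] at this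
      exact this

/-- R3 for three adjacent strands -/
theorem r3_adj (h : PB a) {j k l : Fin n} (hjk : (k : ℕ) = j + 1) (hkl : (l : ℕ) = k + 1) :
    Commute (a k l * big a k * (a k l)⁻¹) (a j l) := by
  obtain ⟨L, M, h1, h2, h3, h4, h5⟩ := exists_cut3 hjk hkl
  have h0 : j < k := by rw [Fin.lt_def]; omega
  have h0' : k < l := by rw [Fin.lt_def]; omega
  have e : big a k = pr (a k) L * (a j k * (a k l * pr (a k) M)) := by
    unfold big
    rw [h1, pr_append, pr_cons, pr_cons, pr_cons, pr_ite fun u hu => ((h4 u hu).trans h0).ne,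
      pr_ite fun u hu => (h0'.trans (h5 u hu)).ne', if_pos rfl, if_neg h0.ne, if_neg h0'.ne',
      one_mul, h.symm k j]
  have e2 : a k l * big a k * (a k l)⁻¹ =
      (a k l * pr (a k) L * (a k l)⁻¹) * ((a k l * a j k) * (a k l * pr (a k) M * (a k l)⁻¹)) := by
    rw [e]
    group
  rw [e2, pr_conj, pr_conj]
  refine (pr_comm fun u hu => ?_).mul_left (Commute.mul_left ?_ (pr_comm fun v hv => ?_))
  · rw [h.symm k u]
    exact h.q3 u j k l (h4 u hu) h0 h0'
  · have t := PB.tri h h0 h0'
    have r1 := t.rot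
    have r2 := t.rot2
    have : a k l * a j k * a j l = a j l * (a k l * a j k) := by
      rw [r1, ← r2]
      group
    exact this
  · exact (PB.f3 h h0 h0' (h5 v hv)).symm

/-- R3 for the last two strands adjacent -/
theorem r3_mid {n : ℕ} {G : Type*} [Group G] (d : ℕ) : ∀ {a : Fin n → Fin n → G}, PB a →
    ∀ {j k l : Fin n}, (k : ℕ) = j + d + 1 → (l : ℕ) = k + 1 →
      Commute (a k l * big a k * (a k l)⁻¹) (a j l) := by
  induction d with
  | zero =>
      intro a h j k l hjk hkl
      exact r3_adj h (by omega) hkl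
  | succ d ih =>
      intro a h j k l hjk hkl
      have hjn : (j : ℕ) + 1 < n := by omega
      obtain ⟨q, hq⟩ : ∃ q : Fin n, q = ⟨(j : ℕ) + 1, hjn⟩ := ⟨_, rfl⟩
      have hqv : (q : ℕ) = j + 1 := by rw [hq]
      have hjq : j < q := by rw [Fin.lt_def]; omega
      have hqk : q < k := by rw [Fin.lt_def]; omega
      have hkl' : k < l := by rw [Fin.lt_def]; omega
      have := ih (PB.sw h hqv) (j := q) (k := k) (l := l) (by omega) hkl
      rw [big_sw_o h hqv (hjq.trans hqk).ne' hqk.ne',
        sw_o (hjq.trans hqk).ne' hqk.ne' ((hjq.trans hqk).trans hkl').ne' (hqk.trans hkl').ne',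
        sw_q ((hjq.trans hqk).trans hkl').ne' (hqk.trans hkl').ne'] at this
      have c1 : Commute (a j q) (a k l) := PB.adj h hqv (hjq.trans hqk).ne' hqk.ne'
        ((hjq.trans hqk).trans hkl').ne' (hqk.trans hkl').ne' hkl'.ne
      have c2 : Commute (a j q) (big a k) := (big_adj h hqv (hjq.trans hqk).ne' hqk.ne').symm
      have c3 : Commute (a j q) (a k l * big a k * (a k l)⁻¹) :=
        (c1.mul_right c2).mul_right c1.inv_right
      have e : a k l * big a k * (a k l)⁻¹ =
          a j q * (a k l * big a k * (a k l)⁻¹) * (a j q)⁻¹ := by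
        rw [c3.eq]
        group
      rw [e, conj_comm] at this
      exact this

/-- R3 -/
theorem r3 {n : ℕ} {G : Type*} [Group G] (d : ℕ) : ∀ {a : Fin n → Fin n → G}, PB a →
    ∀ {j k l : Fin n}, j < k → (l : ℕ) = k + d + 1 →
      Commute (a k l * big a k * (a k l)⁻¹) (a j l) := by
  induction d with
  | zero =>
      intro a h j k l hjk hkl
      rw [Fin.lt_def] at hjk
      exact r3_mid ((k : ℕ) - j - 1) h (by omega) (by omega)
  | succ d ih =>
      intro a h j k l hjk hkl
      have hln : (l : ℕ) - 1 < n := by omega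
      obtain ⟨p, hp⟩ : ∃ p : Fin n, p = ⟨(l : ℕ) - 1, hln⟩ := ⟨_, rfl⟩
      have hpv : (p : ℕ) = l - 1 := by rw [hp]
      have hpl : (l : ℕ) = p + 1 := by omega
      have hkp : k < p := by rw [Fin.lt_def]; omega
      have hpl' : p < l := by rw [Fin.lt_def]; omega
      have := ih (PB.sw h hpl) (j := j) (k := k) (l := p) hjk (by omega)
      rw [big_sw_o h hpl hkp.ne (hkp.trans hpl').ne,
        sw_p' hkp.ne (hkp.trans hpl').ne hpl'.ne,
        sw_p' (hjk.trans hkp).ne ((hjk.trans hkp).trans hpl').ne hpl'.ne] at this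
      exact this

/-- infinity as the strand `0` -/
def ext (a : Fin n → Fin n → G) : Fin (n + 1) → Fin (n + 1) → G :=
  Fin.cases (Fin.cases 1 fun k => (big a k)⁻¹) fun i => Fin.cases (big a i)⁻¹ fun j => a i j

@[simp] theorem ext_zero_succ (a : Fin n → Fin n → G) (k : Fin n) : ext a 0 k.succ = (big a k)⁻¹ :=
  rfl

@[simp] theorem ext_succ_zero (a : Fin n → Fin n → G) (k : Fin n) : ext a k.succ 0 = (big a k)⁻¹ :=
  rfl

@[simp] theorem ext_succ_succ (a : Fin n → Fin n → G) (i j : Fin n) :
    ext a i.succ j.succ = a i j := rfl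

/-- the extended family satisfies the pure braid relations -/
theorem PB.ext (h : PB a) : PB (ext a) where
  symm i j := by
    cases i using Fin.cases with
    | zero =>
        cases j using Fin.cases with
        | zero => rfl
        | succ j => rfl
    | succ i =>
        cases j using Fin.cases with
        | zero => rfl
        | succ j => exact h.symm i j
  t1 i j k h1 h2 := by
    obtain ⟨j, rfl⟩ := Fin.exists_succ_eq.mpr (Fin.pos_iff_ne_zero.mp (lt_of_le_of_lt (Fin.zero_le i) h1))
    obtain ⟨k, rfl⟩ := Fin.exists_succ_eq.mpr (Fin.pos_iff_ne_zero.mp (lt_of_le_of_lt (Fin.zero_le _) h2))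
    rw [Fin.succ_lt_succ_iff] at h2
    cases i using Fin.cases with
    | zero =>
        rw [ext_zero_succ, ext_zero_succ, ext_succ_succ]
        rw [Fin.lt_def] at h2
        have := (r45 ((k : ℕ) - j - 1) h (i := j) (j := k) (by omega)).2
        have e : (big a j)⁻¹ * (big a k)⁻¹ * a j k = ((a j k)⁻¹ * big a k * big a j)⁻¹ := by group
        rw [e]
        exact this.inv_inv
    | succ i =>
        rw [Fin.succ_lt_succ_iff] at h1
        exact h.t1 i j k h1 h2
  t2 i j k h1 h2 := by
    obtain ⟨j, rfl⟩ := Fin.exists_succ_eq.mpr (Fin.pos_iff_ne_zero.mp (lt_of_le_of_lt (Fin.zero_le i) h1))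
    obtain ⟨k, rfl⟩ := Fin.exists_succ_eq.mpr (Fin.pos_iff_ne_zero.mp (lt_of_le_of_lt (Fin.zero_le _) h2))
    rw [Fin.succ_lt_succ_iff] at h2
    cases i using Fin.cases with
    | zero =>
        rw [ext_zero_succ, ext_zero_succ, ext_succ_succ]
        rw [Fin.lt_def] at h2
        have := (r45 ((k : ℕ) - j - 1) h (i := j) (j := k) (by omega)).1
        have e : (big a j)⁻¹ * (big a k)⁻¹ * a j k = (big a k * big a j)⁻¹ * a j k := by group
        rw [e]
        exact this.inv_left.mul_left (Commute.refl _)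
    | succ i =>
        rw [Fin.succ_lt_succ_iff] at h1
        exact h.t2 i j k h1 h2
  q1 i j k l h1 h2 h3 := by
    obtain ⟨j, rfl⟩ := Fin.exists_succ_eq.mpr (Fin.pos_iff_ne_zero.mp (lt_of_le_of_lt (Fin.zero_le i) h1))
    obtain ⟨k, rfl⟩ := Fin.exists_succ_eq.mpr (Fin.pos_iff_ne_zero.mp (lt_of_le_of_lt (Fin.zero_le _) h2))
    obtain ⟨l, rfl⟩ := Fin.exists_succ_eq.mpr (Fin.pos_iff_ne_zero.mp (lt_of_le_of_lt (Fin.zero_le _) h3))
    rw [Fin.succ_lt_succ_iff] at h2 h3
    cases i using Fin.cases with
    | zero =>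
        rw [ext_zero_succ, ext_succ_succ]
        have h3' := h3
        rw [Fin.lt_def] at h3'
        exact (r12 ((l : ℕ) - k - 1) h (by omega) (Or.inl h2)).inv_left
    | succ i =>
        rw [Fin.succ_lt_succ_iff] at h1
        exact h.q1 i j k l h1 h2 h3
  q2 i j k l h1 h2 h3 := by
    obtain ⟨j, rfl⟩ := Fin.exists_succ_eq.mpr (Fin.pos_iff_ne_zero.mp (lt_of_le_of_lt (Fin.zero_le i) h1))
    obtain ⟨k, rfl⟩ := Fin.exists_succ_eq.mpr (Fin.pos_iff_ne_zero.mp (lt_of_le_of_lt (Fin.zero_le _) h2))
    obtain ⟨l, rfl⟩ := Fin.exists_succ_eq.mpr (Fin.pos_iff_ne_zero.mp (lt_of_le_of_lt (Fin.zero_le _) h3))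
    rw [Fin.succ_lt_succ_iff] at h2 h3
    cases i using Fin.cases with
    | zero =>
        rw [ext_zero_succ, ext_succ_succ]
        have h2' := h2
        rw [Fin.lt_def] at h2'
        exact (r12 ((k : ℕ) - j - 1) h (by omega) (Or.inr h3)).inv_left
    | succ i =>
        rw [Fin.succ_lt_succ_iff] at h1
        exact h.q2 i j k l h1 h2 h3
  q3 i j k l h1 h2 h3 := by
    obtain ⟨j, rfl⟩ := Fin.exists_succ_eq.mpr (Fin.pos_iff_ne_zero.mp (lt_of_le_of_lt (Fin.zero_le i) h1))
    obtain ⟨k, rfl⟩ := Fin.exists_succ_eq.mpr (Fin.pos_iff_ne_zero.mp (lt_of_le_of_lt (Fin.zero_le _) h2))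
    obtain ⟨l, rfl⟩ := Fin.exists_succ_eq.mpr (Fin.pos_iff_ne_zero.mp (lt_of_le_of_lt (Fin.zero_le _) h3))
    rw [Fin.succ_lt_succ_iff] at h2 h3
    cases i using Fin.cases with
    | zero =>
        rw [ext_zero_succ, ext_succ_succ, ext_succ_succ]
        have h3' := h3
        rw [Fin.lt_def] at h3'
        have := r3 ((l : ℕ) - k - 1) h h2 (l := l) (by omega)
        have e : a k l * (big a k)⁻¹ * (a k l)⁻¹ = (a k l * big a k * (a k l)⁻¹)⁻¹ := by group
        rw [e]
        exact this.inv_left
    | succ i =>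
        rw [Fin.succ_lt_succ_iff] at h1
        exact h.q3 i j k l h1 h2 h3

/-- the big loops of the extended family are trivial -/
theorem big_ext_succ (a : Fin n → Fin n → G) (k : Fin n) : big (ext a) k.succ = 1 := by
  unfold big
  rw [List.finRange_succ, pr_cons, if_neg (Fin.succ_ne_zero k).symm, ext_succ_zero]
  have e : pr (fun l => if l = k.succ then 1 else ext a k.succ l)
      (List.map Fin.succ (List.finRange n)) = big a k := by
    unfold big pr
    rw [List.map_map]
    congr 1
    apply List.map_congr_left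
    intro u _
    simp only [Function.comp_apply, Fin.succ_inj, ext_succ_succ]
  rw [e, inv_mul_cancel]

/-- the big loop of infinity -/
theorem big_ext_zero (a : Fin n → Fin n → G) :
    big (ext a) 0 = pr (fun k => (big a k)⁻¹) (List.finRange n) := by
  unfold big
  rw [List.finRange_succ, pr_cons, if_pos rfl, one_mul]
  unfold pr
  rw [List.map_map]
  congr 1

/-- the triple of infinity and two adjacent strands -/
theorem tri_inf (h : PB a) {p q : Fin n} (hpq : p < q) :
    Tri (big a p)⁻¹ (big a q)⁻¹ (a p q) := by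
  have := PB.tri (PB.ext h) (i := 0) (j := p.succ) (k := q.succ) (Fin.succ_pos p)
    (Fin.succ_lt_succ_iff.mpr hpq)
  rwa [ext_zero_succ, ext_zero_succ, ext_succ_succ] at this

theorem big_zero_adj (h : PB a) {p q : Fin n} (hpq : (q : ℕ) = p + 1) :
    Commute (big (ext a) 0) (a p q) := by
  obtain ⟨L, M, h1, -, -, h4, h5, -⟩ := exists_cut2 hpq
  have hlt : p < q := by rw [Fin.lt_def]; omega
  rw [big_ext_zero, h1, pr_append, pr_cons, pr_cons, ← mul_assoc (big a p)⁻¹]
  refine (pr_comm fun u hu => ?_).mul_left (Commute.mul_left ?_ (pr_comm fun v hv => ?_))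
  · exact (big_adj h hpq (h4 u hu).ne ((h4 u hu).trans hlt).ne).inv_left
  · have t := tri_inf h hlt
    exact (g_comm t.cz.symm (Commute.refl _)).symm
  · exact (big_adj h hpq (hlt.trans (h5 v hv)).ne' (h5 v hv).ne').inv_left

theorem big_zero_sw (h : PB a) {p q : Fin n} (hpq : (q : ℕ) = p + 1) :
    big (ext (sw a p q)) 0 = big (ext a) 0 := by
  obtain ⟨L, M, h1, -, -, h4, h5, -⟩ := exists_cut2 hpq
  have hlt : p < q := by rw [Fin.lt_def]; omega
  rw [big_ext_zero, big_ext_zero, h1, pr_append, pr_cons, pr_cons, pr_append, pr_cons, pr_cons,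
    big_sw_p h hpq, big_sw_q h hpq]
  rw [pr_congr (f := fun k => (big (sw a p q) k)⁻¹) (g := fun k => (big a k)⁻¹) fun u hu => by
      rw [big_sw_o h hpq (h4 u hu).ne ((h4 u hu).trans hlt).ne],
    pr_congr (f := fun k => (big (sw a p q) k)⁻¹) (g := fun k => (big a k)⁻¹) fun u hu => by
      rw [big_sw_o h hpq (hlt.trans (h5 u hu)).ne' (h5 u hu).ne']]
  have t := tri_inf h hlt
  have r1 := t.rot
  have r2 := t.rot2
  have e : (big a q)⁻¹ * (a p q * big a p * (a p q)⁻¹)⁻¹ = (big a p)⁻¹ * (big a q)⁻¹ := by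
    calc (big a q)⁻¹ * (a p q * big a p * (a p q)⁻¹)⁻¹ =
        ((big a q)⁻¹ * a p q * (big a p)⁻¹) * (a p q)⁻¹ := by group
      _ = _ := by rw [r2]; group
  rw [← mul_assoc (big a q)⁻¹, e, mul_assoc]

/-- the big loop of infinity is central -/
theorem big_zero_comm' {n : ℕ} {G : Type*} [Group G] (d : ℕ) : ∀ {a : Fin n → Fin n → G}, PB a →
    ∀ {i j : Fin n}, (j : ℕ) = i + d + 1 → Commute (big (ext a) 0) (a i j) := by
  induction d with
  | zero =>
      intro a h i j hj
      exact big_zero_adj h (by omega)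
  | succ d ih =>
      intro a h i j hj
      have hjn : (j : ℕ) - 1 < n := by omega
      obtain ⟨p, hp⟩ : ∃ p : Fin n, p = ⟨(j : ℕ) - 1, hjn⟩ := ⟨_, rfl⟩
      have hpv : (p : ℕ) = j - 1 := by rw [hp]
      have hpj : (j : ℕ) = p + 1 := by omega
      have hip : i < p := by rw [Fin.lt_def]; omega
      have hpj' : p < j := by rw [Fin.lt_def]; omega
      have := ih (PB.sw h hpj) (i := i) (j := p) (by omega)
      rw [big_zero_sw h hpj, sw_p' hip.ne (hip.trans hpj').ne hpj'.ne] at this
      exact this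

theorem big_zero_comm (h : PB a) {i j : Fin n} (hij : i ≠ j) :
    Commute (big (ext a) 0) (a i j) := by
  rcases lt_or_gt_of_ne hij with h1 | h1
  · rw [Fin.lt_def] at h1
    exact big_zero_comm' ((j : ℕ) - i - 1) h (by omega)
  · rw [h.symm i j]
    rw [Fin.lt_def] at h1
    exact big_zero_comm' ((i : ℕ) - j - 1) h (by omega)

/-- all big loops of the extended family are central in the group of the family -/
theorem big_ext_comm (h : PB a) (k : Fin (n + 1)) {i j : Fin n} (hij : i ≠ j) :
    Commute (big (ext a) k) (a i j) := by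
  cases k using Fin.cases with
  | zero => exact big_zero_comm h hij
  | succ k =>
      rw [big_ext_succ]
      exact Commute.one_left _

theorem pr_mem {ι G : Type*} [Group G] {H : Subgroup G} {f : ι → G} {L : List ι}
    (h : ∀ u ∈ L, f u ∈ H) : pr f L ∈ H := by
  induction L with
  | nil => exact H.one_mem
  | cons u L ih =>
      rw [pr_cons]
      exact H.mul_mem (h u (by simp)) (ih fun v hv => h v (by simp [hv]))

theorem big_mem (a : Fin n → Fin n → G) (k : Fin n) : big a k ∈ gp a := by
  refine pr_mem fun u _ => ?_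
  by_cases hu : u = k
  · rw [if_pos hu]
    exact (gp a).one_mem
  · rw [if_neg hu]
    exact mem_gp (Ne.symm hu)

/-- infinity as a strand does not change the group -/
theorem gp_ext (a : Fin n → Fin n → G) : gp (ext a) = gp a := by
  apply le_antisymm
  · apply (Subgroup.closure_le _).mpr
    rintro _ ⟨i, j, hij, rfl⟩
    cases i using Fin.cases with
    | zero =>
        cases j using Fin.cases with
        | zero => exact absurd rfl hij
        | succ j => exact (gp a).inv_mem (big_mem a j)
    | succ i =>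
        cases j using Fin.cases with
        | zero => exact (gp a).inv_mem (big_mem a i)
        | succ j => exact mem_gp fun e => hij (congrArg Fin.succ e)
  · apply (Subgroup.closure_le _).mpr
    rintro _ ⟨i, j, hij, rfl⟩
    have := mem_gp (a := ext a) (i := i.succ) (j := j.succ) fun e => hij (Fin.succ_injective _ e)
    rwa [ext_succ_succ] at this

end Pool.Agent.Bst88
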