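import Pool.Agent.Bst88.Chn

/-! Chains for anticommuting invertible endomorphisms. -/

namespace Pool.Agent.Bst88

open Module

variable {V : Type*} [AddCommGroup V] [Module ℂ V]

theorem chain_append {L M : List (End ℂ V × End ℂ V)} (h1 : Chain L) (h2 : Chain M)
    (h : ∀ p ∈ L, ∀ q ∈ M, Commute p.1 q.1 ∧ Commute p.1 q.2) : Chain (L ++ M) := by
  constructor
  · rw [List.pairwise_append]
    exact ⟨h1.1, h2.1, h⟩
  · intro p hp
    rcases List.mem_append.mp hp with h3 | h3
    · exact h1.2 p h3
    · exact h2.2 p h3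

/-- a spectral idempotent of `E` below the idempotent `π` -/
theorem exists_spec [FiniteDimensional ℂ V] {π E : End ℂ V} (hπ : π * π = π) (h0 : π ≠ 0)
    (h1 : π * E = E) (h2 : E * π = E) :
    ∃ (l : ℂ) (ρ : End ℂ V) (m : ℕ), ρ * ρ = ρ ∧ ρ ≠ 0 ∧ π * ρ = ρ ∧ ρ * π = ρ ∧
      (∀ T, Commute T π → Commute T E → Commute T ρ) ∧ (E - l • (1 : End ℂ V)) ^ m * ρ = 0 := by
  have e1 : ∀ v, π (E v) = E v := fun v => LinearMap.congr_fun h1 v
  -- an eigenvector
  obtain ⟨l, v, hv0, hπv, hv⟩ : ∃ (l : ℂ) (v : V), v ≠ 0 ∧ π v = v ∧ E v = l • v := by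
    have hW : ∀ x ∈ LinearMap.range π, E x ∈ LinearMap.range π := fun x _ => ⟨E x, e1 x⟩
    have : Nontrivial (LinearMap.range π) := by
      rw [Submodule.nontrivial_iff_ne_bot]
      intro hb
      exact h0 (LinearMap.range_eq_bot.mp hb)
    obtain ⟨l, hl⟩ := Module.End.exists_eigenvalue (E.restrict hW)
    obtain ⟨x, hx⟩ := hl.exists_hasEigenvector
    refine ⟨l, x, fun e => hx.2 (Subtype.ext e), ?_, ?_⟩
    · obtain ⟨y, hy⟩ := x.2
      rw [← hy]
      exact LinearMap.congr_fun hπ y
    · exact congrArg Subtype.val hx.apply_eq_smul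
  obtain ⟨N, hN⟩ : ∃ N : End ℂ V, N = E - l • π + (1 - π) := ⟨_, rfl⟩
  have hNv : N v = 0 := by
    rw [hN]
    show E v - l • π v + (v - π v) = 0
    rw [hv, hπv, sub_self, sub_self, add_zero]
  have hcomm : ∀ T, Commute T π → Commute T E → Commute T N := by
    intro T hT1 hT2
    rw [hN]
    exact (hT2.sub_right (hT1.smul_right l)).add_right ((Commute.one_right T).sub_right hT1)
  obtain ⟨k, hk, hk1⟩ := (N.eventually_isCompl_ker_pow_range_pow.and
    (Filter.eventually_ge_atTop 1)).exists
  obtain ⟨ρ, hρ⟩ : ∃ ρ : End ℂ V, ρ = (LinearMap.ker (N ^ k)).projection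
    (LinearMap.range (N ^ k)) hk := ⟨_, rfl⟩
  have hmem : ∀ x, (N ^ k) (ρ x) = 0 := by
    intro x
    rw [hρ]
    exact LinearMap.mem_ker.mp (Submodule.projection_apply_mem hk x)
  have hfix : ∀ x, (N ^ k) x = 0 → ρ x = x := by
    intro x hx
    rw [hρ]
    exact Submodule.projection_apply_of_mem_left hk (LinearMap.mem_ker.mpr hx)
  have hzero : ∀ x, ρ ((N ^ k) x) = 0 := by
    intro x
    rw [hρ]
    exact Submodule.projection_apply_of_mem_right hk ⟨x, rfl⟩
  have hrng : ∀ x, ∃ y, x - ρ x = (N ^ k) y := by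
    intro x
    have : ρ (x - ρ x) = 0 := by
      rw [map_sub, hfix (ρ x) (hmem x), sub_self]
    rw [hρ] at this
    obtain ⟨y, hy⟩ := (Submodule.projection_apply_eq_zero_iff hk).mp this
    rw [← hρ] at hy
    exact ⟨y, hy.symm⟩
  have hT : ∀ T, Commute T π → Commute T E → Commute T ρ := by
    intro T hT1 hT2
    have hTN : Commute T (N ^ k) := (hcomm T hT1 hT2).pow_right k
    have hTN' : ∀ x, T ((N ^ k) x) = (N ^ k) (T x) := fun x => LinearMap.congr_fun hTN.eq x
    refine LinearMap.ext fun x => ?_
    show T (ρ x) = ρ (T x)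
    obtain ⟨y, hy⟩ := hrng x
    have ex : x = ρ x + (N ^ k) y := by rw [← hy]; abel
    conv_rhs => rw [ex]
    rw [map_add, map_add, hTN', hzero, add_zero]
    exact (hfix _ (by rw [← hTN', hmem, map_zero])).symm
  have hπE : Commute π E := by
    show π * E = E * π
    rw [h1, h2]
  -- (1 - π) N = 1 - π
  have hpN : (1 - π) * N = 1 - π := by
    rw [hN]
    simp only [mul_add, mul_sub, sub_mul, one_mul, mul_one, mul_smul_comm, h1, hπ]
    simp
  have hpNk : ∀ j : ℕ, (1 - π) * N ^ j = 1 - π := by
    intro j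
    induction j with
    | zero => rw [pow_zero, mul_one]
    | succ j ih => rw [pow_succ, ← mul_assoc, ih, hpN]
  have hπρ : π * ρ = ρ := by
    refine LinearMap.ext fun x => ?_
    have h3 := LinearMap.congr_fun (hpNk k) (ρ x)
    change ((N ^ k) (ρ x)) - π ((N ^ k) (ρ x)) = ρ x - π (ρ x) at h3
    rw [hmem, map_zero, sub_zero] at h3
    exact (sub_eq_zero.mp h3.symm).symm
  have hρπ : ρ * π = ρ := by
    rw [← (hT π (Commute.refl π) hπE).eq, hπρ]
  refine ⟨l, ρ, k, ?_, ?_, hπρ, hρπ, hT, ?_⟩
  · exact LinearMap.ext fun x => hfix _ (hmem x)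
  · intro h3
    apply hv0
    have h4 : ρ v = v := by
      apply hfix
      obtain ⟨j, rfl⟩ := Nat.exists_eq_add_of_le' hk1
      rw [pow_succ, Module.End.mul_apply, hNv, map_zero]
    rw [h3] at h4
    exact h4.symm
  · have hNρ : N * ρ = (E - l • (1 : End ℂ V)) * ρ := by
      rw [hN]
      simp only [add_mul, sub_mul, one_mul, smul_mul_assoc, hπρ]
      abel
    have hcN : Commute N (E - l • (1 : End ℂ V)) := by
      have h5 : Commute E N := hcomm E (hπE.symm) (Commute.refl E)
      exact h5.symm.sub_right ((Commute.one_right N).smul_right l)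
    have hall : ∀ j : ℕ, N ^ j * ρ = (E - l • (1 : End ℂ V)) ^ j * ρ := by
      intro j
      induction j with
      | zero => rw [pow_zero, pow_zero]
      | succ j ih =>
          rw [pow_succ, mul_assoc, hNρ, ← mul_assoc, (hcN.pow_left j).eq, mul_assoc, ih,
            ← mul_assoc, ← pow_succ']
    rw [← hall k]
    exact LinearMap.ext fun x => hmem x

/-- conjugation of a chain -/
theorem chain_conj {L : List (End ℂ V × End ℂ V)} (h : Chain L) (u : (End ℂ V)ˣ) :
    Chain (L.map fun p => ((u : End ℂ V) * p.1 * ((u⁻¹ : (End ℂ V)ˣ) : End ℂ V),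
      (u : End ℂ V) * p.2 * ((u⁻¹ : (End ℂ V)ˣ) : End ℂ V))) := by
  have key : ∀ X Y : End ℂ V, Commute ((u : End ℂ V) * X * ((u⁻¹ : (End ℂ V)ˣ) : End ℂ V))
      ((u : End ℂ V) * Y * ((u⁻¹ : (End ℂ V)ˣ) : End ℂ V)) ↔ Commute X Y := by
    intro X Y
    have e : ∀ X Y : End ℂ V, ((u : End ℂ V) * X * ((u⁻¹ : (End ℂ V)ˣ) : End ℂ V)) *
        ((u : End ℂ V) * Y * ((u⁻¹ : (End ℂ V)ˣ) : End ℂ V)) =
        (u : End ℂ V) * (X * Y) * ((u⁻¹ : (End ℂ V)ˣ) : End ℂ V) := by
      intro X Y
      calc _ = (u : End ℂ V) * X * (((u⁻¹ : (End ℂ V)ˣ) : End ℂ V) * (u : End ℂ V)) * Y *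
          ((u⁻¹ : (End ℂ V)ˣ) : End ℂ V) := by simp only [mul_assoc]
        _ = _ := by rw [Units.inv_mul, mul_one]; simp only [mul_assoc]
    constructor
    · intro hc
      have h1 := hc.eq
      rw [e, e] at h1
      exact u.isUnit.mul_left_cancel ((u⁻¹).isUnit.mul_right_cancel h1)
    · intro hc
      show _ = _
      rw [e, e, hc.eq]
  constructor
  · rw [List.pairwise_map]
    exact h.1.imp fun h => ⟨(key _ _).mpr h.1, (key _ _).mpr h.2⟩
  · intro q hq
    obtain ⟨p, hp, rfl⟩ := List.mem_map.mp hq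
    exact fun hc => h.2 p hp ((key _ _).mp hc)

/-- anticommuting elements give long chains -/
theorem ising [FiniteDimensional ℂ V] (h : ℕ) : ∀ (g : ℕ → (End ℂ V)ˣ) (π : End ℂ V),
    π * π = π → π ≠ 0 → (∀ i, i < 2 * h → Commute π (g i : End ℂ V)) →
    (∀ i j, i < 2 * h → j < 2 * h → i ≠ j →
      (g i : End ℂ V) * (g j : End ℂ V) * π = - ((g j : End ℂ V) * (g i : End ℂ V) * π)) →
    ∃ L : List (End ℂ V × End ℂ V), L.length = 2 ^ h - 1 ∧ Chain L ∧
      (∀ p ∈ L, π * p.1 = p.1 ∧ p.1 * π = p.1 ∧ π * p.2 = p.2 ∧ p.2 * π = p.2) ∧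
      ∀ T : End ℂ V, Commute T π → (∀ i, i < 2 * h → Commute T (g i : End ℂ V)) →
        ∀ p ∈ L, Commute T p.1 ∧ Commute T p.2 := by
  induction h with
  | zero =>
      intro g π _ _ _ _
      exact ⟨[], rfl, chain_nil, fun p hp => absurd hp List.not_mem_nil,
        fun _ _ _ p hp => absurd hp List.not_mem_nil⟩
  | succ h ih =>
      intro g π hπ hπ0 hc ha
      obtain ⟨u, hu⟩ : ∃ u : (End ℂ V)ˣ, u = g 0 := ⟨_, rfl⟩
      obtain ⟨v, hv⟩ : ∃ v : (End ℂ V)ˣ, v = g 1 := ⟨_, rfl⟩
      have cu : Commute π (u : End ℂ V) := by rw [hu]; exact hc 0 (by omega)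
      have cv : Commute π (v : End ℂ V) := by rw [hv]; exact hc 1 (by omega)
      have auv : (v : End ℂ V) * u * π = - ((u : End ℂ V) * v * π) := by
        rw [hu, hv]; exact ha 1 0 (by omega) (by omega) (by omega)
      obtain ⟨E, hE⟩ : ∃ E : End ℂ V, E = (u : End ℂ V) * v * π := ⟨_, rfl⟩
      have cuv : Commute π ((u : End ℂ V) * v) := cu.mul_right cv
      have hE1 : π * E = E := by
        rw [hE, ← mul_assoc, cuv.eq, mul_assoc, hπ]
      have hE2 : E * π = E := by rw [hE, mul_assoc, hπ]
      have hEu : E * (u : End ℂ V) = - ((u : End ℂ V) * E) := by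
        calc E * (u : End ℂ V) = (u : End ℂ V) * v * (π * u) := by rw [hE, mul_assoc]
          _ = (u : End ℂ V) * (v * u * π) := by rw [cu.eq]; simp only [mul_assoc]
          _ = _ := by rw [auv, hE, mul_neg]
      obtain ⟨l, ρ, m, hρ, hρ0, hπρ, hρπ, hT, hn⟩ := exists_spec hπ hπ0 hE1 hE2
      have cπE : Commute π E := by
        show π * E = E * π
        rw [hE1, hE2]
      have cEρ : Commute E ρ := hT E cπE.symm (Commute.refl E)
      -- l ≠ 0
      have hl : l ≠ 0 := by
        intro hl
        rw [hl, zero_smul, sub_zero] at hn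
        have h3 : ∀ j : ℕ, E ^ j * ρ = ((u : End ℂ V) * v) ^ j * ρ := by
          intro j
          induction j with
          | zero => rw [pow_zero, pow_zero]
          | succ j ihj =>
              rw [pow_succ', mul_assoc, ihj, hE]
              calc (u : End ℂ V) * v * π * (((u : End ℂ V) * v) ^ j * ρ) =
                  (u : End ℂ V) * v * (π * ((u : End ℂ V) * v) ^ j) * ρ := by
                    simp only [mul_assoc]
                _ = (u : End ℂ V) * v * (((u : End ℂ V) * v) ^ j * π) * ρ := by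
                    rw [(cuv.pow_right j).eq]
                _ = ((u : End ℂ V) * v * ((u : End ℂ V) * v) ^ j) * (π * ρ) := by
                    simp only [mul_assoc]
                _ = _ := by rw [hπρ, ← pow_succ']
        rw [h3 m] at hn
        have h4 : ((((u * v) ^ m : (End ℂ V)ˣ)) : End ℂ V) * ρ = 0 := by
          rw [Units.val_pow_eq_pow_val, Units.val_mul]; exact hn
        exact hρ0 ((Units.mul_right_eq_zero _).mp h4)
      -- the second idempotent
      obtain ⟨ui, hui⟩ : ∃ ui : End ℂ V, ui = ((u⁻¹ : (End ℂ V)ˣ) : End ℂ V) := ⟨_, rfl⟩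
      have u1 : (u : End ℂ V) * ui = 1 := by rw [hui]; exact Units.mul_inv u
      have u2 : ui * (u : End ℂ V) = 1 := by rw [hui]; exact Units.inv_mul u
      have cui : Commute π ui := by rw [hui]; exact cu.units_inv_right
      have hEui : E * ui = - (ui * E) := by
        calc E * ui = ui * ((u : End ℂ V) * E) * ui := by rw [← mul_assoc, u2, one_mul]
          _ = ui * (-(E * u)) * ui := by rw [hEu, neg_neg]
          _ = - (ui * E * (u * ui)) := by simp only [mul_neg, neg_mul, mul_assoc]
          _ = _ := by rw [u1, mul_one]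
      obtain ⟨σ, hσ⟩ : ∃ σ : End ℂ V, σ = (u : End ℂ V) * ρ * ui := ⟨_, rfl⟩
      have cσπ : Commute σ π := by
        rw [hσ]
        exact (cu.symm.mul_left (show Commute ρ π by show ρ * π = π * ρ; rw [hπρ, hρπ])).mul_left
          cui.symm
      have cσE : Commute σ E := by
        show σ * E = E * σ
        calc σ * E = (u : End ℂ V) * ρ * (ui * E) := by rw [hσ, mul_assoc]
          _ = (u : End ℂ V) * ρ * (-(E * ui)) := by rw [hEui, neg_neg]
          _ = - ((u : End ℂ V) * (ρ * E) * ui) := by simp only [mul_neg, mul_assoc]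
          _ = - ((u : End ℂ V) * E) * ρ * ui := by
              rw [← cEρ.eq]; simp only [neg_mul, mul_assoc]
          _ = E * σ := by rw [← hEu, hσ]; simp only [mul_assoc]
      have cσρ : Commute σ ρ := hT σ cσπ cσE
      have hσσ : σ * σ = σ := by
        calc σ * σ = (u : End ℂ V) * ρ * (ui * u) * ρ * ui := by
              rw [hσ]; simp only [mul_assoc]
          _ = (u : End ℂ V) * (ρ * ρ) * ui := by rw [u2, mul_one]; simp only [mul_assoc]
          _ = _ := by rw [hρ, hσ]
      have hπσ : π * σ = σ := by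
        calc π * σ = π * u * ρ * ui := by rw [hσ]; simp only [mul_assoc]
          _ = u * (π * ρ) * ui := by rw [cu.eq]; simp only [mul_assoc]
          _ = _ := by rw [hπρ, hσ]
      -- (E + l) ^ m σ = 0
      have hnσ : (E + l • (1 : End ℂ V)) ^ m * σ = 0 := by
        have h3 : (E + l • (1 : End ℂ V)) * u = - (u * (E - l • (1 : End ℂ V))) := by
          rw [add_mul, hEu, mul_sub, smul_mul_assoc, one_mul, mul_smul_comm, mul_one]
          abel
        have h4 : ∀ j : ℕ, (E + l • (1 : End ℂ V)) ^ j * u =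
            (-1 : End ℂ V) ^ j * (u * (E - l • (1 : End ℂ V)) ^ j) := by
          intro j
          induction j with
          | zero => simp
          | succ j ihj =>
              calc (E + l • (1 : End ℂ V)) ^ (j + 1) * u =
                  (E + l • (1 : End ℂ V)) ^ j * ((E + l • (1 : End ℂ V)) * u) := by
                    rw [pow_succ, mul_assoc]
                _ = - ((E + l • (1 : End ℂ V)) ^ j * u * (E - l • (1 : End ℂ V))) := by
                    rw [h3, mul_neg, mul_assoc]
                _ = _ := by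
                    rw [ihj, pow_succ, pow_succ]
                    simp only [mul_neg, mul_one, neg_mul, mul_assoc]
        calc (E + l • (1 : End ℂ V)) ^ m * σ = (E + l • (1 : End ℂ V)) ^ m * u * ρ * ui := by
              rw [hσ]; simp only [mul_assoc]
          _ = (-1 : End ℂ V) ^ m * (u * ((E - l • (1 : End ℂ V)) ^ m * ρ)) * ui := by
              rw [h4 m]; simp only [mul_assoc]
          _ = 0 := by rw [hn, mul_zero, mul_zero, zero_mul]
      -- orthogonality
      have horth : ρ * σ = 0 := by
        obtain ⟨Q, hQ⟩ : ∃ Q : End ℂ V, Q = ρ * σ := ⟨_, rfl⟩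
        have hQQ : Q * Q = Q := by
          calc Q * Q = ρ * (σ * ρ) * σ := by rw [hQ]; simp only [mul_assoc]
            _ = (ρ * ρ) * (σ * σ) := by rw [cσρ.eq]; simp only [mul_assoc]
            _ = _ := by rw [hρ, hσσ, hQ]
        have cEQ : Commute E Q := by rw [hQ]; exact cEρ.mul_right cσE.symm
        have c1 : Commute (E - l • (1 : End ℂ V)) Q :=
          cEQ.sub_left ((Commute.one_left Q).smul_left l)
        have c2 : Commute (E + l • (1 : End ℂ V)) Q :=
          cEQ.add_left ((Commute.one_left Q).smul_left l)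
        have hpow : ∀ j : ℕ, Q ^ (j + 1) = Q := by
          intro j
          induction j with
          | zero => rw [zero_add, pow_one]
          | succ j ihj => rw [pow_succ, ihj, hQQ]
        have n1 : IsNilpotent ((E - l • (1 : End ℂ V)) * Q) := by
          refine ⟨m + 1, ?_⟩
          rw [c1.mul_pow, hpow, pow_succ', mul_assoc, hQ, ← mul_assoc _ ρ σ, hn, zero_mul, mul_zero]
        have n2 : IsNilpotent ((E + l • (1 : End ℂ V)) * Q) := by
          refine ⟨m + 1, ?_⟩
          rw [c2.mul_pow, hpow, pow_succ', mul_assoc, hQ, ← cσρ.eq, ← mul_assoc _ σ ρ, hnσ,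
            zero_mul, mul_zero]
        have c12 : Commute ((E + l • (1 : End ℂ V)) * Q) ((E - l • (1 : End ℂ V)) * Q) := by
          have c3 : Commute (E + l • (1 : End ℂ V)) (E - l • (1 : End ℂ V)) :=
            ((Commute.refl E).sub_right ((Commute.one_right E).smul_right l)).add_left
              ((Commute.one_left _).smul_left l)
          exact (c3.mul_right c2).mul_left ((c1.symm).mul_right (Commute.refl Q))
        have n3 := c12.isNilpotent_sub n2 n1
        have e3 : (E + l • (1 : End ℂ V)) * Q - (E - l • (1 : End ℂ V)) * Q = (2 * l) • Q := by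
          rw [← sub_mul]
          have : E + l • (1 : End ℂ V) - (E - l • (1 : End ℂ V)) = (2 * l) • (1 : End ℂ V) := by
            rw [two_mul, add_smul]; abel
          rw [this, smul_mul_assoc, one_mul]
        rw [e3] at n3
        obtain ⟨j, hj⟩ := n3
        have hj' : ((2 * l) • Q) ^ (j + 1) = 0 := by rw [pow_succ, hj, zero_mul]
        rw [smul_pow, hpow] at hj'
        have hne : (2 * l) ^ (j + 1) ≠ 0 := pow_ne_zero _ (mul_ne_zero two_ne_zero hl)
        rw [← hQ]
        exact (smul_eq_zero.mp hj').resolve_left hne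
      have horth' : σ * ρ = 0 := by rw [cσρ.eq, horth]
      -- the chain on ρ
      have hgρ : ∀ i, i < 2 * h → Commute ((g (i + 2) : (End ℂ V)ˣ) : End ℂ V) ρ := by
        intro i hi
        apply hT
        · exact (hc (i + 2) (by omega)).symm
        · obtain ⟨w, hw⟩ : ∃ w : (End ℂ V)ˣ, w = g (i + 2) := ⟨_, rfl⟩
          have cw : Commute π (w : End ℂ V) := by rw [hw]; exact hc (i + 2) (by omega)
          have a1 : (w : End ℂ V) * u * π = - ((u : End ℂ V) * w * π) := by
            rw [hu, hw]; exact ha (i + 2) 0 (by omega) (by omega) (by omega)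
          have a2 : (w : End ℂ V) * v * π = - ((v : End ℂ V) * w * π) := by
            rw [hv, hw]; exact ha (i + 2) 1 (by omega) (by omega) (by omega)
          rw [← hw]
          show (w : End ℂ V) * E = E * w
          calc (w : End ℂ V) * E = w * u * (v * π) := by rw [hE]; simp only [mul_assoc]
            _ = (w * u * π) * v := by rw [← cv.eq]; simp only [mul_assoc]
            _ = - (u * w * (π * v)) := by rw [a1]; simp only [neg_mul, mul_assoc]
            _ = - (u * (w * v * π)) := by rw [cv.eq]; simp only [mul_assoc]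
            _ = u * v * (w * π) := by rw [a2]; simp only [mul_neg, neg_neg, mul_assoc]
            _ = E * w := by rw [← cw.eq, hE]; simp only [mul_assoc]
      obtain ⟨L, hL1, hL2, hL3, hL4⟩ := ih (fun i => g (i + 2)) ρ hρ hρ0
        (fun i hi => (hgρ i hi).symm) (by
          intro i j hi hj hij
          have h5 := ha (i + 2) (j + 2) (by omega) (by omega) (by omega)
          have h6 := congrArg (fun X => X * ρ) h5
          simpa only [neg_mul, mul_assoc, hπρ] using h6)
      have hconj : ∀ X : End ℂ V, ρ * X = X → X * ρ = X →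
          σ * ((u : End ℂ V) * X * ui) = (u : End ℂ V) * X * ui ∧
          (u : End ℂ V) * X * ui * σ = (u : End ℂ V) * X * ui := by
        intro X hX1 hX2
        constructor
        · calc σ * ((u : End ℂ V) * X * ui) = u * ρ * (ui * u) * X * ui := by
                rw [hσ]; simp only [mul_assoc]
            _ = u * (ρ * X) * ui := by rw [u2, mul_one]; simp only [mul_assoc]
            _ = _ := by rw [hX1]
        · calc (u : End ℂ V) * X * ui * σ = u * X * (ui * u) * ρ * ui := by
                rw [hσ]; simp only [mul_assoc]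
            _ = u * (X * ρ) * ui := by rw [u2, mul_one]; simp only [mul_assoc]
            _ = _ := by rw [hX2]
      obtain ⟨M, hM⟩ : ∃ M : List (End ℂ V × End ℂ V),
        M = L.map fun p => ((u : End ℂ V) * p.1 * ui, (u : End ℂ V) * p.2 * ui) := ⟨_, rfl⟩
      have hM2 : Chain M := by
        rw [hM, hui]
        exact chain_conj hL2 u
      have hM3 : ∀ q ∈ M, σ * q.1 = q.1 ∧ q.1 * σ = q.1 ∧ σ * q.2 = q.2 ∧ q.2 * σ = q.2 := by
        intro q hq
        rw [hM] at hq
        obtain ⟨p, hp, rfl⟩ := List.mem_map.mp hq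
        obtain ⟨k1, k2, k3, k4⟩ := hL3 p hp
        exact ⟨(hconj _ k1 k2).1, (hconj _ k1 k2).2, (hconj _ k3 k4).1, (hconj _ k3 k4).2⟩
      have cross : ∀ X Y : End ℂ V, X * ρ = X → ρ * X = X → σ * Y = Y → Y * σ = Y →
          Commute X Y := by
        intro X Y k1 k2 k3 k4
        have z1 : X * Y = 0 := by
          calc X * Y = X * (ρ * σ) * Y := by
                rw [← mul_assoc, k1, mul_assoc, k3]
            _ = 0 := by rw [horth, mul_zero, zero_mul]
        have z2 : Y * X = 0 := by
          calc Y * X = Y * (σ * ρ) * X := by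
                rw [← mul_assoc, k4, mul_assoc, k2]
            _ = 0 := by rw [horth', mul_zero, zero_mul]
        show X * Y = Y * X
        rw [z1, z2]
      refine ⟨(ρ, (u : End ℂ V) * π) :: (L ++ M), ?_, ?_, ?_, ?_⟩
      · rw [List.length_cons, List.length_append, hM, List.length_map, hL1]
        have : 1 ≤ 2 ^ h := Nat.one_le_two_pow
        rw [pow_succ]
        omega
      · rw [chain_cons]
        refine ⟨?_, ?_, ?_⟩
        · intro q hq
          rcases List.mem_append.mp hq with h5 | h5
          · obtain ⟨k1, k2, k3, k4⟩ := hL3 q h5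
            exact ⟨show ρ * q.1 = q.1 * ρ by rw [k1, k2], show ρ * q.2 = q.2 * ρ by rw [k3, k4]⟩
          · obtain ⟨k1, k2, k3, k4⟩ := hM3 q h5
            exact ⟨cross ρ q.1 hρ hρ k1 k2, cross ρ q.2 hρ hρ k3 k4⟩
        · intro hcom
          have h5 : ρ * ((u : End ℂ V) * π) = u * π * ρ := hcom
          have h6 : ρ * (u : End ℂ V) = u * ρ := by
            calc ρ * (u : End ℂ V) = ρ * π * u := by rw [hρπ]
              _ = ρ * (u * π) := by rw [mul_assoc, cu.eq]
              _ = u * π * ρ := h5
              _ = u * ρ := by rw [mul_assoc, hπρ]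
          have h7 : σ = ρ := by rw [hσ, ← h6, mul_assoc, u1, mul_one]
          rw [h7, hρ] at horth
          exact hρ0 horth
        · exact chain_append hL2 hM2 fun p hp q hq => by
            obtain ⟨k1, k2, k3, k4⟩ := hL3 p hp
            obtain ⟨l1, l2, l3, l4⟩ := hM3 q hq
            exact ⟨cross _ _ k2 k1 l1 l2, cross _ _ k2 k1 l3 l4⟩
      · intro q hq
        rcases List.mem_cons.mp hq with rfl | hq
        · refine ⟨hπρ, hρπ, ?_, ?_⟩
          · show π * ((u : End ℂ V) * π) = u * π
            rw [← mul_assoc, cu.eq, mul_assoc, hπ]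
          · show (u : End ℂ V) * π * π = u * π
            rw [mul_assoc, hπ]
        · rcases List.mem_append.mp hq with h5 | h5
          · obtain ⟨k1, k2, k3, k4⟩ := hL3 q h5
            refine ⟨?_, ?_, ?_, ?_⟩
            · rw [← k1, ← mul_assoc, hπρ]
            · rw [← k2, mul_assoc, hρπ]
            · rw [← k3, ← mul_assoc, hπρ]
            · rw [← k4, mul_assoc, hρπ]
          · obtain ⟨k1, k2, k3, k4⟩ := hM3 q h5
            have hσπ : σ * π = σ := by rw [cσπ.eq, hπσ]
            refine ⟨?_, ?_, ?_, ?_⟩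
            · rw [← k1, ← mul_assoc, hπσ]
            · rw [← k2, mul_assoc, hσπ]
            · rw [← k3, ← mul_assoc, hπσ]
            · rw [← k4, mul_assoc, hσπ]
      · intro T hT1 hT2 q hq
        have hTu : Commute T (u : End ℂ V) := by rw [hu]; exact hT2 0 (by omega)
        have hTv : Commute T (v : End ℂ V) := by rw [hv]; exact hT2 1 (by omega)
        have hTE : Commute T E := by rw [hE]; exact (hTu.mul_right hTv).mul_right hT1
        have hTρ : Commute T ρ := hT T hT1 hTE
        have hTui : Commute T ui := by rw [hui]; exact hTu.units_inv_right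
        have hTL : ∀ p ∈ L, Commute T p.1 ∧ Commute T p.2 :=
          hL4 T hTρ fun i hi => hT2 (i + 2) (by omega)
        rcases List.mem_cons.mp hq with rfl | hq
        · exact ⟨hTρ, hTu.mul_right hT1⟩
        · rcases List.mem_append.mp hq with h5 | h5
          · exact hTL q h5
          · rw [hM] at h5
            obtain ⟨p, hp, rfl⟩ := List.mem_map.mp h5
            exact ⟨(hTu.mul_right (hTL p hp).1).mul_right hTui,
              (hTu.mul_right (hTL p hp).2).mul_right hTui⟩

end Pool.Agent.Bst88
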