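import Mathlib

/-! Families `A s`, `B s` of endomorphisms with `[A s, B t] = 0` for `s < t` and `[A s, B s] ≠ 0`
have at most `2 * (dim V - 1)` members. -/

namespace Pool.Agent.Bst88

open Module

variable {K V : Type*} [Field K] [AddCommGroup V] [Module K V]

theorem card_le [Infinite K] [FiniteDimensional K V] {ι : Type*} [LinearOrder ι] (S : Finset ι)
    (A B : ι → End K V) (h1 : ∀ s ∈ S, ∀ t ∈ S, s < t → Commute (A s) (B t))
    (h2 : ∀ s ∈ S, ¬ Commute (A s) (B s)) : S.card ≤ 2 * (finrank K V - 1) := by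
  classical
  rcases S.eq_empty_or_nonempty with hS | ⟨s1, hs1⟩
  · rw [hS]; simp
  -- the commutators
  obtain ⟨v, hv⟩ : ∃ v : V, ∀ s : S, (A s * B s - B s * A s) v ≠ 0 := by
    obtain ⟨v, hv⟩ := Submodule.exists_forall_notMem_of_forall_ne_top
      (fun s : S => LinearMap.ker (A s * B s - B s * A s)) (by
        intro s hs
        rw [LinearMap.ker_eq_top, sub_eq_zero] at hs
        exact h2 s s.2 hs)
    exact ⟨v, fun s hs => hv s (LinearMap.mem_ker.mpr hs)⟩
  obtain ⟨φ, hφ⟩ := Module.exists_dual_forall_apply_ne_zero (K := K)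
    (fun s : S => (A s * B s - B s * A s) v) hv
  have hv0 : v ≠ 0 := by
    rintro rfl
    exact hv ⟨s1, hs1⟩ (map_zero _)
  have hφ0 : ∃ w, φ w ≠ 0 := ⟨_, hφ ⟨s1, hs1⟩⟩
  -- the hyperplane
  let L : (V × Dual K V) →ₗ[K] K :=
    φ ∘ₗ LinearMap.fst K V (Dual K V) - (Dual.eval K V v) ∘ₗ LinearMap.snd K V (Dual K V)
  have hL : ∀ p : V × Dual K V, L p = φ p.1 - p.2 v := fun p => rfl
  have hLs : Function.Surjective L := by
    apply LinearMap.surjective
    intro h0
    obtain ⟨w, hw⟩ := hφ0
    apply hw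
    have := congrArg (fun f : (V × Dual K V) →ₗ[K] K => f (w, 0)) h0
    simpa [hL] using this
  have hker : finrank K (LinearMap.ker L) + 1 = 2 * finrank K V := by
    have h3 := LinearMap.finrank_range_add_finrank_ker L
    rw [LinearMap.range_eq_top.mpr hLs, finrank_top, finrank_self, finrank_prod,
      Subspace.dual_finrank_eq] at h3
    omega
  -- the map
  let Bc : ((S → K) × K) →ₗ[K] End K V :=
    (∑ s : S, (LinearMap.toSpanSingleton K (End K V) (B s)) ∘ₗ (LinearMap.proj s)) ∘ₗ
      LinearMap.fst K (S → K) K -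
      (LinearMap.toSpanSingleton K (End K V) 1) ∘ₗ LinearMap.snd K (S → K) K
  have hBc : ∀ p : (S → K) × K, Bc p = ∑ s : S, p.1 s • B s - p.2 • (1 : End K V) := by
    intro p
    simp [Bc]
  let F : ((S → K) × K) →ₗ[K] LinearMap.ker L :=
    LinearMap.codRestrict (LinearMap.ker L)
      (LinearMap.prod ((LinearMap.applyₗ v) ∘ₗ Bc) ((LinearMap.llcomp K V V K φ) ∘ₗ Bc)) (by
        intro p
        rw [LinearMap.mem_ker, hL]
        exact sub_self _)
  by_contra hcon
  have hfin : finrank K (LinearMap.ker L) < finrank K ((S → K) × K) := by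
    rw [finrank_prod, finrank_self, finrank_pi, Fintype.card_coe]
    omega
  obtain ⟨p, hp0, hF⟩ : ∃ p : (S → K) × K, p ≠ 0 ∧ F p = 0 := by
    by_contra h
    have hinj : Function.Injective F := by
      intro x y hxy
      by_contra h0
      exact h ⟨x - y, sub_ne_zero.mpr h0, by rw [map_sub, hxy, sub_self]⟩
    have h5 := LinearMap.finrank_le_finrank_of_injective hinj
    exact absurd h5 (not_le.mpr hfin)
  have hF1 : Bc p v = 0 := congrArg (fun z : LinearMap.ker L => (z : V × Dual K V).1) hF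
  have hF2 : ∀ w, φ (Bc p w) = 0 := fun w =>
    congrArg (fun z : LinearMap.ker L => (z : V × Dual K V).2 w) hF
  -- a nonzero coefficient
  have hc : ∃ s : S, p.1 s ≠ 0 := by
    by_contra h0
    push Not at h0
    apply hp0
    have h4 : p.2 = 0 := by
      rw [hBc] at hF1
      simp only [h0, zero_smul, Finset.sum_const_zero, zero_sub, LinearMap.neg_apply,
        LinearMap.smul_apply, End.one_apply, neg_eq_zero, smul_eq_zero] at hF1
      exact hF1.resolve_right hv0
    exact Prod.ext (funext h0) h4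
  obtain ⟨s0, hs0, hmin⟩ := Finset.exists_min_image (Finset.univ.filter fun s : S => p.1 s ≠ 0) id
    (by obtain ⟨s, hs⟩ := hc; exact ⟨s, Finset.mem_filter.mpr ⟨Finset.mem_univ _, hs⟩⟩)
  have hs0' : p.1 s0 ≠ 0 := (Finset.mem_filter.mp hs0).2
  have key : φ ((A s0 * Bc p - Bc p * A s0) v) = 0 := by
    rw [LinearMap.sub_apply, map_sub, End.mul_apply, End.mul_apply, hF1, hF2, map_zero, map_zero,
      sub_zero]
  have e : A s0 * Bc p - Bc p * A s0 = ∑ s : S, p.1 s • (A s0 * B s - B s * A s0) := by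
    rw [hBc, mul_sub, sub_mul, Finset.mul_sum, Finset.sum_mul]
    simp only [mul_smul_comm, smul_mul_assoc, mul_one, one_mul, smul_sub, Finset.sum_sub_distrib]
    abel
  rw [e, LinearMap.sum_apply, map_sum, Finset.sum_eq_single s0] at key
  · rw [LinearMap.smul_apply, map_smul, smul_eq_mul] at key
    exact (mul_ne_zero hs0' (hφ s0)) key
  · intro s _ hs
    by_cases h5 : p.1 s = 0
    · rw [h5, zero_smul, LinearMap.zero_apply, map_zero]
    have h6 : s0 ≤ s := hmin s (Finset.mem_filter.mpr ⟨Finset.mem_univ _, h5⟩)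
    have h7 : s0 < s := lt_of_le_of_ne h6 (fun h => hs h.symm)
    have h8 : A s0 * B s = B s * A s0 := h1 s0 s0.2 s s.2 h7
    rw [h8, sub_self, smul_zero, LinearMap.zero_apply, map_zero]
  · intro h; exact absurd (Finset.mem_univ _) h

end Pool.Agent.Bst88
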