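import Pool.Agent.Bst88.Swap

/-! Arbitrary reorderings of the strands. -/

namespace Pool.Agent.Bst88

open Pool.Agent.Conf14

variable {n : ℕ} {G : Type*} [Group G] {a : Fin n → Fin n → G}

theorem tri_all (h : PB a) {u v w : Fin n} (h1 : u < v) (h2 : v < w)
    (hc : Commute (a u v) (a u w) ∨ Commute (a u w) (a v w) ∨ Commute (a v w) (a u v)) :
    Commute (a u v) (a u w) ∧ Commute (a u w) (a v w) ∧ Commute (a v w) (a u v) := by
  have t := PB.tri h h1 h2
  rcases hc with hc | hc | hc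
  · exact ⟨hc, t.com hc⟩
  · have := t.next.com hc
    exact ⟨this.2, hc, this.1⟩
  · have := t.next.next.com hc
    exact ⟨this.1, this.2, hc⟩

/-- if two generators of a triple commute then all do -/
theorem com_all (h : PB a) {i j k : Fin n} (hij : i ≠ j) (hjk : j ≠ k) (hik : i ≠ k)
    (hc : Commute (a i j) (a j k)) : Commute (a j k) (a k i) ∧ Commute (a k i) (a i j) := by
  rcases lt_or_gt_of_ne hij with h1 | h1 <;> rcases lt_or_gt_of_ne hjk with h2 | h2 <;>
    rcases lt_or_gt_of_ne hik with h3 | h3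
  · -- i < j < k
    have := tri_all h h1 h2 (Or.inr (Or.inr hc.symm))
    rw [h.symm k i]
    exact ⟨this.2.1.symm, this.1.symm⟩
  · exact absurd (h1.trans h2) (lt_asymm h3)
  · -- i < k < j
    rw [h.symm j k] at hc ⊢
    have := tri_all h h3 h2 (Or.inr (Or.inl hc))
    rw [h.symm k i]
    exact ⟨this.2.2, this.1⟩
  · -- k < i < j
    rw [h.symm j k] at hc ⊢
    have := tri_all h h3 h1 (Or.inr (Or.inl hc.symm))
    exact ⟨this.1.symm, this.2.2.symm⟩
  · -- j < i < k
    rw [h.symm i j] at hc ⊢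
    have := tri_all h h1 h3 (Or.inl hc)
    rw [h.symm k i]
    exact ⟨this.2.1, this.2.2⟩
  · -- j < k < i
    rw [h.symm i j] at hc ⊢
    have := tri_all h h2 h3 (Or.inl hc.symm)
    exact ⟨this.2.2.symm, this.2.1.symm⟩
  · exact absurd (h2.trans h1) (lt_asymm h3)
  · -- k < j < i
    rw [h.symm j k, h.symm i j] at hc ⊢
    have := tri_all h h2 h1 (Or.inr (Or.inr hc))
    exact ⟨this.1, this.2.1⟩

/-- `a'` is a family for the strands reordered by `w` with the same commuting triples -/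
structure Reo (a a' : Fin n → Fin n → G) (w : Equiv.Perm (Fin n)) : Prop where
  pb : PB a'
  cm : ∀ i j k, i ≠ j → j ≠ k → i ≠ k →
    (Commute (a' i j) (a' j k) ↔ Commute (a (w i) (w j)) (a (w j) (w k)))

/-- one adjacent transposition -/
theorem reo_swap (h : PB a) {p q : Fin n} (hpq : (q : ℕ) = p + 1) :
    Reo a (sw a p q) (Equiv.swap p q) := by
  have hne : p ≠ q := by
    intro e
    rw [e] at hpq
    omega
  have h' := PB.sw h hpq
  refine ⟨h', fun i j k hij hjk hik => ?_⟩
  by_cases hq : i ≠ q ∧ j ≠ q ∧ k ≠ q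
  · rw [sw_a hq.1 hq.2.1, sw_a hq.2.1 hq.2.2]
  by_cases hp : i ≠ p ∧ j ≠ p ∧ k ≠ p
  · rw [sw_b h hpq hp.1 hp.2.1 hij, sw_b h hpq hp.2.1 hp.2.2 hjk, conj_comm]
  -- the third strand
  have base : ∀ k, k ≠ p → k ≠ q →
      (Commute (sw a p q p q) (sw a p q q k) ↔ Commute (a q p) (a p k)) := by
    intro k hkp hkq
    rw [sw_pq h hpq, sw_q hkp hkq, h.symm q p]
    constructor
    · intro hc
      have := (conj_comm (x := (a p q)⁻¹)).mpr hc
      have e1 : (a p q)⁻¹ * a p q * (a p q)⁻¹⁻¹ = a p q := by group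
      have e2 : (a p q)⁻¹ * (a p q * a p k * (a p q)⁻¹) * (a p q)⁻¹⁻¹ = a p k := by group
      rwa [e1, e2] at this
    · intro hc
      exact ((Commute.refl _).mul_right hc).mul_right (Commute.refl _).inv_right
  -- all the forms of a triple
  have all : ∀ b : Fin n → Fin n → G, PB b → ∀ i j k, i ≠ j → j ≠ k → i ≠ k →
      (Commute (b i j) (b j k) ↔ Commute (b j k) (b k i)) := by
    intro b hb i j k hij hjk hik
    constructor
    · intro hc
      exact (com_all hb hij hjk hik hc).1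
    · intro hc
      exact (com_all hb hjk hik.symm hij.symm hc).2
  have rev : ∀ b : Fin n → Fin n → G, PB b → ∀ i j k,
      (Commute (b i j) (b j k) ↔ Commute (b k j) (b j i)) := by
    intro b hb i j k
    rw [hb.symm i j, hb.symm j k]
    exact ⟨fun h => h.symm, fun h => h.symm⟩
  have hall : ∀ k, k ≠ p → k ≠ q →
      (Commute (sw a p q p q) (sw a p q q k) ↔
        Commute (a (Equiv.swap p q p) (Equiv.swap p q q)) (a (Equiv.swap p q q) (Equiv.swap p q k)))
      := by
    intro k hkp hkq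
    rw [Equiv.swap_apply_left, Equiv.swap_apply_right, Equiv.swap_apply_of_ne_of_ne hkp hkq]
    exact base k hkp hkq
  -- the six positions
  have hinj : ∀ x y, x ≠ y → Equiv.swap p q x ≠ Equiv.swap p q y := fun x y hxy he =>
    hxy ((Equiv.swap p q).injective he)
  have cyc : ∀ i j k, i ≠ j → j ≠ k → i ≠ k →
      (Commute (sw a p q i j) (sw a p q j k) ↔
        Commute (a (Equiv.swap p q i) (Equiv.swap p q j)) (a (Equiv.swap p q j) (Equiv.swap p q k)))
      → (Commute (sw a p q j k) (sw a p q k i) ↔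
        Commute (a (Equiv.swap p q j) (Equiv.swap p q k)) (a (Equiv.swap p q k) (Equiv.swap p q i)))
      := by
    intro i j k hij hjk hik hh
    rw [← all _ h' i j k hij hjk hik, hh]
    exact all _ h _ _ _ (hinj _ _ hij) (hinj _ _ hjk) (hinj _ _ hik)
  have rv : ∀ i j k,
      (Commute (sw a p q i j) (sw a p q j k) ↔
        Commute (a (Equiv.swap p q i) (Equiv.swap p q j)) (a (Equiv.swap p q j) (Equiv.swap p q k)))
      → (Commute (sw a p q k j) (sw a p q j i) ↔
        Commute (a (Equiv.swap p q k) (Equiv.swap p q j)) (a (Equiv.swap p q j) (Equiv.swap p q i)))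
      := by
    intro i j k hh
    rw [← rev _ h' i j k, hh]
    exact rev _ h _ _ _
  have hcase : (i = p ∧ j = q) ∨ (j = p ∧ k = q) ∨ (k = p ∧ i = q) ∨ (k = p ∧ j = q) ∨
      (j = p ∧ i = q) ∨ (i = p ∧ k = q) := by
    by_cases h1 : i = p <;> by_cases h2 : j = p <;> by_cases h3 : k = p <;>
      by_cases h4 : i = q <;> by_cases h5 : j = q <;> by_cases h6 : k = q <;> simp_all
  rcases hcase with ⟨rfl, rfl⟩ | ⟨rfl, rfl⟩ | ⟨rfl, rfl⟩ | ⟨rfl, rfl⟩ | ⟨rfl, rfl⟩ | ⟨rfl, rfl⟩
  · exact hall k hik.symm hjk.symm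
  · -- (i, p, q) is a rotation of (p, q, i)
    have h0 := hall i hij hik
    exact cyc _ _ _ hik.symm hij hjk.symm (cyc _ _ _ hjk hik.symm hij.symm h0)
  · -- (q, j, p) is a rotation of (p, q, j)
    have h0 := hall j hjk hij.symm
    exact cyc _ _ _ hik.symm hij hjk.symm h0
  · -- (i, q, p) is the reverse of (p, q, i)
    exact rv _ _ _ (hall i hik hij)
  · -- (q, p, k) : reverse (k, p, q), rotation of (p, q, k)
    have h0 := hall k hjk.symm hik.symm
    exact rv _ _ _ (cyc _ _ _ hik hjk.symm hij (cyc _ _ _ hij.symm hik hjk h0))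
  · -- (p, j, q) : reverse (q, j, p)
    have h0 := hall j hij.symm hjk
    exact rv _ _ _ (cyc _ _ _ hik hjk.symm hij h0)

theorem exists_reo (h : PB a) (w : Equiv.Perm (Fin n)) : ∃ a' : Fin n → Fin n → G, Reo a a' w := by
  rcases n with _ | m
  · exact ⟨a, h, fun i => i.elim0⟩
  have hw : w ∈ Submonoid.closure
      (Set.range fun i : Fin m => Equiv.swap i.castSucc i.succ) := by
    rw [Equiv.Perm.mclosure_swap_castSucc_succ]
    exact Submonoid.mem_top w
  induction hw using Submonoid.closure_induction generalizing a with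
  | mem x hx =>
    obtain ⟨i, rfl⟩ := hx
    exact ⟨_, reo_swap h (by simp)⟩
  | one => exact ⟨a, h, fun i j k _ _ _ => Iff.rfl⟩
  | mul x y _ _ hx hy =>
    obtain ⟨a1, h1⟩ := hx h
    obtain ⟨a2, h2⟩ := hy h1.pb
    refine ⟨a2, h2.pb, fun i j k hij hjk hik => ?_⟩
    rw [h2.cm i j k hij hjk hik, h1.cm _ _ _ (fun e => hij (y.injective e))
      (fun e => hjk (y.injective e)) (fun e => hik (y.injective e))]
    rfl

end Pool.Agent.Bst88
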