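import Mathlib

/-! Four elements whose triple products are invariant under rotation: all commutators are one
central involution. -/

namespace Pool.Agent.Bst88

variable {G : Type*} [Group G]

private theorem qd_aux {d a b u v : G} (h : Commute (a * b) d) (ha : d * a = u * a * d)
    (hb : d * b = v * b * d) : u = a * v⁻¹ * a⁻¹ := by
  have h1 : a * b * d = d * (a * b) := h
  have h2 : d * (a * b) = u * a * v * b * d := by
    calc d * (a * b) = (d * a) * b := by group
      _ = u * a * (d * b) := by rw [ha]; group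
      _ = _ := by rw [hb]; group
  have h3 : a * b * d = u * a * v * b * d := h1.trans h2
  have h4 : a = u * a * v := by
    have := congrArg (fun z => z * d⁻¹ * b⁻¹) h3
    simpa [mul_assoc] using this
  calc u = u * a * v * v⁻¹ * a⁻¹ := by group
    _ = _ := by rw [← h4]

/-- the pivot lemma: `d` with `a b`, `a c`, `b c` in its centraliser -/
private theorem qd_pivot {d a b c : G} (h1 : Commute (a * b) d) (h2 : Commute (a * c) d)
    (h3 : Commute (b * c) d) : ∃ t : G, d * b = t * b * d ∧ d * c = t * c * d ∧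
      b * t * b⁻¹ = t⁻¹ ∧ d * a = (a * t⁻¹ * a⁻¹) * a * d := by
  obtain ⟨u, hu⟩ : ∃ u, u = d * a * d⁻¹ * a⁻¹ := ⟨_, rfl⟩
  obtain ⟨v, hv⟩ : ∃ v, v = d * b * d⁻¹ * b⁻¹ := ⟨_, rfl⟩
  obtain ⟨w, hw⟩ : ∃ w, w = d * c * d⁻¹ * c⁻¹ := ⟨_, rfl⟩
  have ha : d * a = u * a * d := by rw [hu]; group
  have hb : d * b = v * b * d := by rw [hv]; group
  have hc : d * c = w * c * d := by rw [hw]; group
  have e1 := qd_aux h1 ha hb
  have e2 := qd_aux h2 ha hc
  have e3 := qd_aux h3 hb hc
  have e4 : v = w := by
    have : a * v⁻¹ * a⁻¹ = a * w⁻¹ * a⁻¹ := e1.symm.trans e2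
    have := mul_right_cancel this
    exact inv_injective (mul_left_cancel this)
  refine ⟨v, hb, ?_, ?_, ?_⟩
  · rw [e4]; exact hc
  · rw [← e4] at e3
    -- v = b * v⁻¹ * b⁻¹
    have : v⁻¹ = (b * v⁻¹ * b⁻¹)⁻¹ := by rw [← e3]
    rw [this]; group
  · rw [← e1]; exact ha

/-- the quadruple lemma -/
theorem quad {a b c d : G} (h1 : Commute (a * b) c) (h1' : Commute (b * c) a)
    (h2 : Commute (a * b) d) (h2' : Commute (b * d) a) (h3 : Commute (a * c) d)
    (h3' : Commute (c * d) a) (h4 : Commute (b * c) d) (h4' : Commute (c * d) b) :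
    ∃ t : G, t * t = 1 ∧ Commute t a ∧ Commute t b ∧ Commute t c ∧ Commute t d ∧
      a * b = t * (b * a) ∧ a * c = t * (c * a) ∧ a * d = t * (d * a) ∧ b * c = t * (c * b) ∧
      b * d = t * (d * b) ∧ c * d = t * (d * c) := by
  -- the third rotations
  have h1'' : Commute (c * a) b := by
    have e1 : a * b * c = c * (a * b) := h1
    have e2 : b * c * a = a * (b * c) := h1'
    show c * a * b = b * (c * a)
    calc c * a * b = c * (a * b) := by group
      _ = a * b * c := e1.symm
      _ = a * (b * c) := by group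
      _ = b * c * a := e2.symm
      _ = _ := by group
  have h2'' : Commute (d * a) b := by
    have e1 : a * b * d = d * (a * b) := h2
    have e2 : b * d * a = a * (b * d) := h2'
    show d * a * b = b * (d * a)
    calc d * a * b = d * (a * b) := by group
      _ = a * b * d := e1.symm
      _ = a * (b * d) := by group
      _ = b * d * a := e2.symm
      _ = _ := by group
  have h3'' : Commute (d * a) c := by
    have e1 : a * c * d = d * (a * c) := h3
    have e2 : c * d * a = a * (c * d) := h3'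
    show d * a * c = c * (d * a)
    calc d * a * c = d * (a * c) := by group
      _ = a * c * d := e1.symm
      _ = a * (c * d) := by group
      _ = c * d * a := e2.symm
      _ = _ := by group
  have h4'' : Commute (d * b) c := by
    have e1 : b * c * d = d * (b * c) := h4
    have e2 : c * d * b = b * (c * d) := h4'
    show d * b * c = c * (d * b)
    calc d * b * c = d * (b * c) := by group
      _ = b * c * d := e1.symm
      _ = b * (c * d) := by group
      _ = c * d * b := e2.symm
      _ = _ := by group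
  -- pivot d : a b, a c, b c
  obtain ⟨δ, db, dc, bδ, da⟩ := qd_pivot h2 h3 h4
  -- pivot a : b c, b d, c d
  obtain ⟨α, ac, ad, cα, ab⟩ := qd_pivot h1' h2' h3'
  -- pivot b : c d, c a, d a
  obtain ⟨β, bd, ba, dβ, bc⟩ := qd_pivot h4' h1'' h2''
  -- pivot c : d a, d b, a b
  obtain ⟨γ, ca, cb, aγ, cd⟩ := qd_pivot h3'' h4'' h1
  -- α = γ⁻¹
  have e1 : α = γ⁻¹ := by
    have e : a * c = α * (γ * (a * c)) := by
      calc a * c = α * c * a := ac
        _ = α * (c * a) := by group
        _ = _ := by rw [ca]; group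
    have : (α * γ) * (a * c) = 1 * (a * c) := by rw [one_mul, mul_assoc]; exact e.symm
    exact eq_inv_of_mul_eq_one_left (mul_right_cancel this)
  -- α = a δ a⁻¹
  have e2 : α = a * δ * a⁻¹ := by
    have e : a * d = α * (a * δ⁻¹ * a⁻¹ * (a * d)) := by
      calc a * d = α * d * a := ad
        _ = α * (d * a) := by group
        _ = _ := by rw [da]; group
    have : (α * (a * δ⁻¹ * a⁻¹)) * (a * d) = 1 * (a * d) := by
      rw [one_mul, mul_assoc]; exact e.symm
    have h := mul_right_cancel this
    calc α = α * (a * δ⁻¹ * a⁻¹) * (a * δ * a⁻¹) := by group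
      _ = _ := by rw [h, one_mul]
  -- β = δ⁻¹
  have e3 : β = δ⁻¹ := by
    have e : b * d = β * (δ * (b * d)) := by
      calc b * d = β * d * b := bd
        _ = β * (d * b) := by group
        _ = _ := by rw [db]; group
    have : (β * δ) * (b * d) = 1 * (b * d) := by rw [one_mul, mul_assoc]; exact e.symm
    exact eq_inv_of_mul_eq_one_left (mul_right_cancel this)
  -- β = b α b⁻¹
  have e4 : β = b * α * b⁻¹ := by
    have e : b * a = β * (b * α⁻¹ * b⁻¹ * (b * a)) := by
      calc b * a = β * a * b := ba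
        _ = β * (a * b) := by group
        _ = _ := by rw [ab]; group
    have : (β * (b * α⁻¹ * b⁻¹)) * (b * a) = 1 * (b * a) := by
      rw [one_mul, mul_assoc]; exact e.symm
    have h := mul_right_cancel this
    calc β = β * (b * α⁻¹ * b⁻¹) * (b * α * b⁻¹) := by group
      _ = _ := by rw [h, one_mul]
  -- a α a⁻¹ = α⁻¹
  have e5 : a * α * a⁻¹ = α⁻¹ := by
    rw [e1, inv_inv]
    calc a * γ⁻¹ * a⁻¹ = (a * γ * a⁻¹)⁻¹ := by group
      _ = _ := by rw [aγ, inv_inv]
  have e6 : δ = α⁻¹ := by
    have : α⁻¹ = a * α * a⁻¹ := e5.symm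
    have h7 : a⁻¹ * α * a = α⁻¹ := by
      have h8 : a * α⁻¹ * a⁻¹ = α := by
        calc a * α⁻¹ * a⁻¹ = (a * α * a⁻¹)⁻¹ := by group
          _ = _ := by rw [e5, inv_inv]
      calc a⁻¹ * α * a = a⁻¹ * (a * α⁻¹ * a⁻¹) * a := by rw [h8]
        _ = _ := by group
    calc δ = a⁻¹ * (a * δ * a⁻¹) * a := by group
      _ = a⁻¹ * α * a := by rw [← e2]
      _ = _ := h7
  have e7 : β = α := by rw [e3, e6, inv_inv]
  have e8 : b * α * b⁻¹ = α⁻¹ := by
    have := bδ
    rw [e6, inv_inv] at this
    calc b * α * b⁻¹ = (b * α⁻¹ * b⁻¹)⁻¹ := by group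
      _ = _ := by rw [this]
  have e9 : α = α⁻¹ := by
    calc α = β := e7.symm
      _ = b * α * b⁻¹ := e4
      _ = _ := e8
  have hsq : α * α = 1 := by
    nth_rewrite 2 [e9]
    exact mul_inv_cancel α
  have hγ : γ = α := by
    rw [e1] at e9 ⊢
    rw [inv_inv] at e9
    exact e9.symm
  have hδ : δ = α := by rw [e6]; exact e9.symm
  have comm_of : ∀ g : G, g * α * g⁻¹ = α⁻¹ → Commute α g := by
    intro g hg
    rw [← e9] at hg
    show α * g = g * α
    calc α * g = (g * α * g⁻¹) * g := by rw [hg]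
      _ = _ := by group
  have ca' : Commute α a := comm_of a e5
  have cb' : Commute α b := comm_of b e8
  have cc' : Commute α c := comm_of c cα
  have cd' : Commute α d := by
    apply comm_of
    rw [← e7]; exact dβ
  refine ⟨α, hsq, ca', cb', cc', cd', ?_, ?_, ?_, ?_, ?_, ?_⟩
  · -- a b = α (b a) : ab : a * b = b α⁻¹ b⁻¹ * b * a
    rw [← e9] at ab
    calc a * b = b * α * b⁻¹ * b * a := ab
      _ = α * b * b⁻¹ * b * a := by rw [cb'.eq]
      _ = _ := by group
  · rw [ac]; group
  · rw [ad]; group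
  · rw [e7, ← e9] at bc
    calc b * c = c * α * c⁻¹ * c * b := bc
      _ = α * c * c⁻¹ * c * b := by rw [cc'.eq]
      _ = _ := by group
  · rw [bd, e7]; group
  · rw [hγ, ← e9] at cd
    calc c * d = d * α * d⁻¹ * d * c := cd
      _ = α * d * d⁻¹ * d * c := by rw [cd'.eq]
      _ = _ := by group

end Pool.Agent.Bst88
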