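import Pool.Agent.Conf14.Rel

/-! Reordering the strands of a family satisfying the pure braid relations. -/

namespace Pool.Agent.Bst88

open Pool.Agent.Conf14

section
variable {G : Type*} [Group G]

theorem conj_comm {x u v : G} : Commute (x * u * x⁻¹) (x * v * x⁻¹) ↔ Commute u v :=
  SemiconjBy.conj_iff

/-- the facts on a triple with `x * y * z` central -/
structure Tri (x y z : G) : Prop where
  cx : Commute (x * y * z) x
  cy : Commute (x * y * z) y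
  cz : Commute (x * y * z) z

theorem Tri.rot {x y z : G} (h : Tri x y z) : z * x * y = x * y * z := by
  have h1 : x * y * z * z = z * (x * y * z) := h.cz
  calc z * x * y = z * (x * y * z) * z⁻¹ := by group
    _ = x * y * z * z * z⁻¹ := by rw [h1]
    _ = _ := by group

theorem Tri.rot2 {x y z : G} (h : Tri x y z) : y * z * x = x * y * z := by
  have h1 : x * y * z * x = x * (x * y * z) := h.cx
  calc y * z * x = x⁻¹ * (x * y * z * x) := by group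
    _ = _ := by rw [h1]; group

theorem Tri.next {x y z : G} (h : Tri x y z) : Tri y z x := by
  refine ⟨?_, ?_, ?_⟩ <;> rw [h.rot2]
  · exact h.cy
  · exact h.cz
  · exact h.cx

/-- `x y x⁻¹ = z⁻¹ y z` -/
theorem Tri.e1 {x y z : G} (h : Tri x y z) : x * y * x⁻¹ = z⁻¹ * y * z := by
  have h1 := h.rot
  have h3 : x * y * z * y = y * (x * y * z) := h.cy
  have h4 : x * y = z⁻¹ * (x * y * z) := by rw [← h1]; group
  obtain ⟨d, hd⟩ : ∃ d, d = x * y * z := ⟨_, rfl⟩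
  rw [← hd] at h3 h4
  calc x * y * x⁻¹ = (x * y) * y * (x * y)⁻¹ := by group
    _ = z⁻¹ * (d * y) * d⁻¹ * z := by rw [h4]; group
    _ = _ := by rw [h3]; group

/-- `x⁻¹ z x = y z y⁻¹` -/
theorem Tri.e2 {x y z : G} (h : Tri x y z) : x⁻¹ * z * x = y * z * y⁻¹ := h.next.e1.symm

theorem Tri.com {x y z : G} (h : Tri x y z) (hc : Commute x y) : Commute y z ∧ Commute z x := by
  have hz : z = (x * y)⁻¹ * (x * y * z) := by group
  constructor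
  · rw [hz]
    exact ((hc.symm.mul_right (Commute.refl y)).inv_right).mul_right h.cy.symm
  · rw [hz]
    exact (((Commute.refl x).mul_right hc).inv_right.mul_right h.cx.symm).symm

end

variable {n : ℕ} {G : Type*} [Group G] {a : Fin n → Fin n → G}

theorem PB.tri (h : PB a) {i j k : Fin n} (hij : i < j) (hjk : j < k) :
    Tri (a i j) (a i k) (a j k) :=
  ⟨h.t0 hij hjk, h.t1 _ _ _ hij hjk, h.t2 _ _ _ hij hjk⟩

/-- forms of the crossing relation -/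
theorem PB.f2 (h : PB a) {i j k l : Fin n} (h1 : i < j) (h2 : j < k) (h3 : k < l) :
    Commute (a i j * a i k * (a i j)⁻¹) (a j l) := by
  have q := h.q3 i j k l h1 h2 h3
  rw [(PB.tri h h1 h2).e1]
  have e := (PB.tri h h2 h3).e1
  -- a j k * a j l * (a j k)⁻¹ = (a k l)⁻¹ * a j l * a k l
  rw [← conj_comm (x := a j k)]
  have e1 : a j k * ((a j k)⁻¹ * a i k * a j k) * (a j k)⁻¹ = a i k := by group
  rw [e1, e, ← conj_comm (x := a k l)]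
  have e2 : a k l * ((a k l)⁻¹ * a j l * a k l) * (a k l)⁻¹ = a j l := by group
  rwa [e2]

theorem PB.f3 (h : PB a) {i j k l : Fin n} (h1 : i < j) (h2 : j < k) (h3 : k < l) :
    Commute (a i k) (a j k * a j l * (a j k)⁻¹) := by
  have q := PB.f2 h h1 h2 h3
  rw [(PB.tri h h1 h2).e1, ← conj_comm (x := a j k)] at q
  have e1 : a j k * ((a j k)⁻¹ * a i k * a j k) * (a j k)⁻¹ = a i k := by group
  rwa [e1] at q

/-- the family obtained by interchanging the strands `p` and `q` -/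
def sw (a : Fin n → Fin n → G) (p q i j : Fin n) : G :=
  if (i = q ∧ j ≠ p) ∨ (j = q ∧ i ≠ p) then
    a p q * a (Equiv.swap p q i) (Equiv.swap p q j) * (a p q)⁻¹
  else a (Equiv.swap p q i) (Equiv.swap p q j)

variable {p q : Fin n}

/-- the elements commuting with `a p q` for adjacent strands `p`, `q` -/
theorem PB.adj (h : PB a) (hpq : (q : ℕ) = p + 1) {i j : Fin n} (hip : i ≠ p) (hiq : i ≠ q)
    (hjp : j ≠ p) (hjq : j ≠ q) (hij : i ≠ j) : Commute (a p q) (a i j) := by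
  apply h.disj hip hiq (by rw [Fin.lt_def]; omega) hij.symm hjp hjq
  have h1 : (i : ℕ) ≠ p := fun e => hip (Fin.ext e)
  have h2 : (i : ℕ) ≠ q := fun e => hiq (Fin.ext e)
  have h3 : (j : ℕ) ≠ p := fun e => hjp (Fin.ext e)
  have h4 : (j : ℕ) ≠ q := fun e => hjq (Fin.ext e)
  simp only [Fin.lt_def]
  constructor <;> intro h5 <;> omega

theorem sw_a {i j : Fin n} (hi : i ≠ q) (hj : j ≠ q) :
    sw a p q i j = a (Equiv.swap p q i) (Equiv.swap p q j) := by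
  rw [sw, if_neg]
  rintro (h | h)
  · exact hi h.1
  · exact hj h.1

theorem sw_b (h : PB a) (hpq : (q : ℕ) = p + 1) {i j : Fin n} (hi : i ≠ p) (hj : j ≠ p)
    (hij : i ≠ j) :
    sw a p q i j = a p q * a (Equiv.swap p q i) (Equiv.swap p q j) * (a p q)⁻¹ := by
  by_cases hiq : i = q
  · rw [sw, if_pos (Or.inl ⟨hiq, hj⟩)]
  by_cases hjq : j = q
  · rw [sw, if_pos (Or.inr ⟨hjq, hi⟩)]
  rw [sw_a hiq hjq, Equiv.swap_apply_of_ne_of_ne hi hiq, Equiv.swap_apply_of_ne_of_ne hj hjq,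
    (PB.adj h hpq hi hiq hj hjq hij).eq, mul_inv_cancel_right]

theorem sw_pq (h : PB a) (hpq : (q : ℕ) = p + 1) : sw a p q p q = a p q := by
  have hne : p ≠ q := by
    intro e
    rw [e] at hpq
    omega
  rw [sw, if_neg, Equiv.swap_apply_left, Equiv.swap_apply_right, h.symm]
  rintro (h1 | h1)
  · exact hne h1.1
  · exact h1.2 rfl

theorem sw_symm (h : PB a) (i j : Fin n) : sw a p q i j = sw a p q j i := by
  unfold sw
  rw [h.symm (Equiv.swap p q i)]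
  by_cases h1 : (i = q ∧ j ≠ p) ∨ (j = q ∧ i ≠ p)
  · rw [if_pos h1, if_pos h1.symm]
  · rw [if_neg h1, if_neg fun h2 => h1 h2.symm]

theorem sw_p {j : Fin n} (hjp : j ≠ p) (hjq : j ≠ q) (hpq : p ≠ q) :
    sw a p q p j = a q j := by
  rw [sw_a hpq hjq, Equiv.swap_apply_left, Equiv.swap_apply_of_ne_of_ne hjp hjq]

theorem sw_q {j : Fin n} (hjp : j ≠ p) (hjq : j ≠ q) :
    sw a p q q j = a p q * a p j * (a p q)⁻¹ := by
  rw [sw, if_pos (Or.inl ⟨rfl, hjp⟩), Equiv.swap_apply_right,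
    Equiv.swap_apply_of_ne_of_ne hjp hjq]

theorem sw_p' {j : Fin n} (hjp : j ≠ p) (hjq : j ≠ q) (hpq : p ≠ q) :
    sw a p q j p = a j q := by
  rw [sw_a hjq hpq, Equiv.swap_apply_left, Equiv.swap_apply_of_ne_of_ne hjp hjq]

theorem sw_q' {j : Fin n} (hjp : j ≠ p) (hjq : j ≠ q) :
    sw a p q j q = a p q * a j p * (a p q)⁻¹ := by
  rw [sw, if_pos (Or.inr ⟨rfl, hjp⟩), Equiv.swap_apply_right,
    Equiv.swap_apply_of_ne_of_ne hjp hjq]

theorem sw_o {i j : Fin n} (hip : i ≠ p) (hiq : i ≠ q) (hjp : j ≠ p) (hjq : j ≠ q) :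
    sw a p q i j = a i j := by
  rw [sw_a hiq hjq, Equiv.swap_apply_of_ne_of_ne hip hiq, Equiv.swap_apply_of_ne_of_ne hjp hjq]

theorem swap_mono (hpq : (q : ℕ) = p + 1) {i j : Fin n} (hij : i < j)
    (h : (i ≠ q ∧ j ≠ q) ∨ (i ≠ p ∧ j ≠ p)) : Equiv.swap p q i < Equiv.swap p q j := by
  have h0 : (i : ℕ) < j := hij
  have e1 : ∀ u : Fin n, u ≠ p → u ≠ q → Equiv.swap p q u = u := fun u h1 h2 =>
    Equiv.swap_apply_of_ne_of_ne h1 h2
  have e2 : ∀ u v : Fin n, u ≠ v → (u : ℕ) ≠ v := fun u v h1 h2 => h1 (Fin.ext h2)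
  by_cases hip : i = p
  · subst hip
    rw [Equiv.swap_apply_left]
    have hjq : j ≠ q := by
      rcases h with h | h
      · exact h.2
      · exact absurd rfl h.1
    rw [e1 j hij.ne' hjq, Fin.lt_def]
    have := e2 _ _ hjq
    omega
  by_cases hiq : i = q
  · subst hiq
    rw [Equiv.swap_apply_right]
    have hjp : j ≠ p := by
      rcases h with h | h
      · exact absurd rfl h.1
      · exact h.2
    rw [e1 j hjp hij.ne', Fin.lt_def]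
    omega
  rw [e1 i hip hiq]
  by_cases hjp : j = p
  · subst hjp
    rw [Equiv.swap_apply_left, Fin.lt_def]
    omega
  by_cases hjq : j = q
  · subst hjq
    rw [Equiv.swap_apply_right, Fin.lt_def]
    have := e2 _ _ hip
    omega
  rwa [e1 j hjp hjq]

/-- adjacent positions -/
theorem both3 (hpq : (q : ℕ) = p + 1) {i j k : Fin n} (h1 : i < j) (h2 : j < k)
    (hq : ¬ (i ≠ q ∧ j ≠ q ∧ k ≠ q)) (hp : ¬ (i ≠ p ∧ j ≠ p ∧ k ≠ p)) :
    (i = p ∧ j = q) ∨ (j = p ∧ k = q) := by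
  simp only [ne_eq, Fin.ext_iff, Fin.lt_def] at *
  omega

theorem both4 (hpq : (q : ℕ) = p + 1) {i j k l : Fin n} (h1 : i < j) (h2 : j < k) (h3 : k < l)
    (hq : ¬ (i ≠ q ∧ j ≠ q ∧ k ≠ q ∧ l ≠ q)) (hp : ¬ (i ≠ p ∧ j ≠ p ∧ k ≠ p ∧ l ≠ p)) :
    (i = p ∧ j = q) ∨ (j = p ∧ k = q) ∨ (k = p ∧ l = q) := by
  simp only [ne_eq, Fin.ext_iff, Fin.lt_def] at *
  omega

theorem sw_tri (h : PB a) (hpq : (q : ℕ) = p + 1) {i j k : Fin n} (h1 : i < j) (h2 : j < k) :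
    Tri (sw a p q i j) (sw a p q i k) (sw a p q j k) := by
  have h13 := h1.trans h2
  have hlt : p < q := by rw [Fin.lt_def]; omega
  by_cases hq : i ≠ q ∧ j ≠ q ∧ k ≠ q
  · rw [sw_a hq.1 hq.2.1, sw_a hq.1 hq.2.2, sw_a hq.2.1 hq.2.2]
    exact PB.tri h (swap_mono hpq h1 (Or.inl ⟨hq.1, hq.2.1⟩))
      (swap_mono hpq h2 (Or.inl ⟨hq.2.1, hq.2.2⟩))
  by_cases hp : i ≠ p ∧ j ≠ p ∧ k ≠ p
  · rw [sw_b h hpq hp.1 hp.2.1 h1.ne, sw_b h hpq hp.1 hp.2.2 h13.ne, sw_b h hpq hp.2.1 hp.2.2 h2.ne]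
    have t := PB.tri h (swap_mono hpq h1 (Or.inr ⟨hp.1, hp.2.1⟩))
      (swap_mono hpq h2 (Or.inr ⟨hp.2.1, hp.2.2⟩))
    have e : ∀ x u v w : G, x * u * x⁻¹ * (x * v * x⁻¹) * (x * w * x⁻¹) = x * (u * v * w) * x⁻¹ := by
      intro x u v w; group
    refine ⟨?_, ?_, ?_⟩ <;> rw [e, conj_comm]
    · exact t.cx
    · exact t.cy
    · exact t.cz
  rcases both3 hpq h1 h2 hq hp with ⟨rfl, rfl⟩ | ⟨rfl, rfl⟩
  · rw [sw_pq h hpq, sw_p h13.ne' h2.ne' h1.ne, sw_q h13.ne' h2.ne']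
    have t := PB.tri h h1 h2
    have e : a i j * a j k * (a i j * a i k * (a i j)⁻¹) = a i j * a i k * a j k := by
      have := t.rot
      calc a i j * a j k * (a i j * a i k * (a i j)⁻¹) =
          a i j * (a j k * a i j * a i k) * (a i j)⁻¹ := by group
        _ = a i j * (a i j * a i k * a j k) * (a i j)⁻¹ := by rw [this]
        _ = a i j * a i k * a j k * a i j * (a i j)⁻¹ := by rw [t.cx.eq]
        _ = _ := by group
    refine ⟨?_, ?_, ?_⟩ <;> rw [e]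
    · exact t.cx
    · exact t.cz
    · exact (t.cx.mul_right t.cy).mul_right t.cx.inv_right
  · rw [sw_p' h1.ne h13.ne h2.ne, sw_q' h1.ne h13.ne, sw_pq h hpq]
    have t := PB.tri h h1 h2
    -- i < p < q ; t : Tri (a i p) (a i q) (a p q)
    have e : a i k * (a j k * a i j * (a j k)⁻¹) * a j k = a i j * a i k * a j k := by
      rw [← t.rot2]; group
    refine ⟨?_, ?_, ?_⟩ <;> rw [e]
    · exact t.cy
    · exact (t.cz.mul_right t.cx).mul_right t.cz.inv_right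
    · exact t.cz

/-- the new family satisfies the pure braid relations -/
theorem PB.sw (h : PB a) (hpq : (q : ℕ) = p + 1) : PB (sw a p q) where
  symm := sw_symm h
  t1 i j k h1 h2 := (sw_tri h hpq h1 h2).cy
  t2 i j k h1 h2 := (sw_tri h hpq h1 h2).cz
  q1 i j k l h1 h2 h3 := by
    by_cases hq : i ≠ q ∧ j ≠ q ∧ k ≠ q ∧ l ≠ q
    · rw [sw_a hq.1 hq.2.1, sw_a hq.2.2.1 hq.2.2.2]
      exact h.q1 _ _ _ _ (swap_mono hpq h1 (Or.inl ⟨hq.1, hq.2.1⟩))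
        (swap_mono hpq h2 (Or.inl ⟨hq.2.1, hq.2.2.1⟩))
        (swap_mono hpq h3 (Or.inl ⟨hq.2.2.1, hq.2.2.2⟩))
    by_cases hp : i ≠ p ∧ j ≠ p ∧ k ≠ p ∧ l ≠ p
    · rw [sw_b h hpq hp.1 hp.2.1 h1.ne, sw_b h hpq hp.2.2.1 hp.2.2.2 h3.ne, conj_comm]
      exact h.q1 _ _ _ _ (swap_mono hpq h1 (Or.inr ⟨hp.1, hp.2.1⟩))
        (swap_mono hpq h2 (Or.inr ⟨hp.2.1, hp.2.2.1⟩))
        (swap_mono hpq h3 (Or.inr ⟨hp.2.2.1, hp.2.2.2⟩))
    have h13 := h1.trans h2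
    have h24 := h2.trans h3
    have h14 := h13.trans h3
    rcases both4 hpq h1 h2 h3 hq hp with ⟨rfl, rfl⟩ | ⟨rfl, rfl⟩ | ⟨rfl, rfl⟩
    · rw [sw_pq h hpq, sw_o h13.ne' h2.ne' h14.ne' h24.ne']
      exact h.q1 _ _ _ _ h1 h2 h3
    · rw [sw_p' h1.ne h13.ne h2.ne, sw_q h24.ne' h3.ne']
      exact PB.f3 h h1 h2 h3
    · rw [sw_o h13.ne h14.ne h2.ne h24.ne, sw_pq h hpq]
      exact h.q1 _ _ _ _ h1 h2 h3
  q2 i j k l h1 h2 h3 := by
    have h13 := h1.trans h2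
    have h24 := h2.trans h3
    have h14 := h13.trans h3
    by_cases hq : i ≠ q ∧ j ≠ q ∧ k ≠ q ∧ l ≠ q
    · rw [sw_a hq.1 hq.2.2.2, sw_a hq.2.1 hq.2.2.1]
      exact h.q2 _ _ _ _ (swap_mono hpq h1 (Or.inl ⟨hq.1, hq.2.1⟩))
        (swap_mono hpq h2 (Or.inl ⟨hq.2.1, hq.2.2.1⟩))
        (swap_mono hpq h3 (Or.inl ⟨hq.2.2.1, hq.2.2.2⟩))
    by_cases hp : i ≠ p ∧ j ≠ p ∧ k ≠ p ∧ l ≠ p
    · rw [sw_b h hpq hp.1 hp.2.2.2 h14.ne, sw_b h hpq hp.2.1 hp.2.2.1 h2.ne, conj_comm]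
      exact h.q2 _ _ _ _ (swap_mono hpq h1 (Or.inr ⟨hp.1, hp.2.1⟩))
        (swap_mono hpq h2 (Or.inr ⟨hp.2.1, hp.2.2.1⟩))
        (swap_mono hpq h3 (Or.inr ⟨hp.2.2.1, hp.2.2.2⟩))
    rcases both4 hpq h1 h2 h3 hq hp with ⟨rfl, rfl⟩ | ⟨rfl, rfl⟩ | ⟨rfl, rfl⟩
    · rw [sw_p h14.ne' h24.ne' h1.ne, sw_q h13.ne' h2.ne']
      exact (PB.f2 h h1 h2 h3).symm
    · rw [sw_pq h hpq, sw_o h1.ne h13.ne h24.ne' h3.ne']
      exact h.q2 _ _ _ _ h1 h2 h3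
    · rw [sw_q' h13.ne h14.ne, sw_p' h2.ne h24.ne h3.ne]
      exact h.q3 _ _ _ _ h1 h2 h3
  q3 i j k l h1 h2 h3 := by
    have h13 := h1.trans h2
    have h24 := h2.trans h3
    have h14 := h13.trans h3
    by_cases hq : i ≠ q ∧ j ≠ q ∧ k ≠ q ∧ l ≠ q
    · rw [sw_a hq.2.2.1 hq.2.2.2, sw_a hq.1 hq.2.2.1, sw_a hq.2.1 hq.2.2.2]
      exact h.q3 _ _ _ _ (swap_mono hpq h1 (Or.inl ⟨hq.1, hq.2.1⟩))
        (swap_mono hpq h2 (Or.inl ⟨hq.2.1, hq.2.2.1⟩))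
        (swap_mono hpq h3 (Or.inl ⟨hq.2.2.1, hq.2.2.2⟩))
    by_cases hp : i ≠ p ∧ j ≠ p ∧ k ≠ p ∧ l ≠ p
    · rw [sw_b h hpq hp.2.2.1 hp.2.2.2 h3.ne, sw_b h hpq hp.1 hp.2.2.1 h13.ne,
        sw_b h hpq hp.2.1 hp.2.2.2 h24.ne]
      have e : ∀ x u v : G, x * u * x⁻¹ * (x * v * x⁻¹) * (x * u * x⁻¹)⁻¹ =
          x * (u * v * u⁻¹) * x⁻¹ := by
        intro x u v; group
      rw [e, conj_comm]
      exact h.q3 _ _ _ _ (swap_mono hpq h1 (Or.inr ⟨hp.1, hp.2.1⟩))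
        (swap_mono hpq h2 (Or.inr ⟨hp.2.1, hp.2.2.1⟩))
        (swap_mono hpq h3 (Or.inr ⟨hp.2.2.1, hp.2.2.2⟩))
    rcases both4 hpq h1 h2 h3 hq hp with ⟨rfl, rfl⟩ | ⟨rfl, rfl⟩ | ⟨rfl, rfl⟩
    · rw [sw_o h13.ne' h2.ne' h14.ne' h24.ne', sw_p h13.ne' h2.ne' h1.ne,
        sw_q h14.ne' h24.ne']
      -- Commute (a k l * a j k * (a k l)⁻¹) (a i j * a i l * (a i j)⁻¹)
      rw [← conj_comm (x := (a i j)⁻¹), ← conj_comm (x := (a k l)⁻¹)]
      have c := h.q1 i j k l h1 h2 h3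
      have c' : (a i j)⁻¹ * a k l = a k l * (a i j)⁻¹ := c.inv_left.eq
      have c'' : (a k l)⁻¹ * (a i j)⁻¹ = (a i j)⁻¹ * (a k l)⁻¹ := c.inv_inv.eq.symm
      have e1 : (a k l)⁻¹ * ((a i j)⁻¹ * (a k l * a j k * (a k l)⁻¹) * (a i j)⁻¹⁻¹) * (a k l)⁻¹⁻¹ =
          (a i j)⁻¹ * a j k * a i j := by
        calc (a k l)⁻¹ * ((a i j)⁻¹ * (a k l * a j k * (a k l)⁻¹) * (a i j)⁻¹⁻¹) * (a k l)⁻¹⁻¹ =
            ((a k l)⁻¹ * (a i j)⁻¹) * a k l * a j k * (((a k l)⁻¹ * (a i j)⁻¹) * a k l)⁻¹ := by group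
          _ = ((a i j)⁻¹ * (a k l)⁻¹) * a k l * a j k * (((a i j)⁻¹ * (a k l)⁻¹) * a k l)⁻¹ := by
            rw [c'']
          _ = _ := by group
      have e2 : (a k l)⁻¹ * ((a i j)⁻¹ * (a i j * a i l * (a i j)⁻¹) * (a i j)⁻¹⁻¹) * (a k l)⁻¹⁻¹ =
          (a k l)⁻¹ * a i l * a k l := by group
      rw [e1, e2, (PB.tri h h1 h2).e2, ← (PB.tri h h13 h3).e1, conj_comm]
      exact (h.q2 _ _ _ _ h1 h2 h3).symm
    · rw [sw_q h24.ne' h3.ne', sw_q' h1.ne h13.ne, sw_p h24.ne' h3.ne' h2.ne]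
      -- Commute (x a_jl x⁻¹ * (x a_ij x⁻¹) * (x a_jl x⁻¹)⁻¹) (a k l), x = a j k
      have e : a j k * a j l * (a j k)⁻¹ * (a j k * a i j * (a j k)⁻¹) *
          (a j k * a j l * (a j k)⁻¹)⁻¹ = a j k * (a j l * a i j * (a j l)⁻¹) * (a j k)⁻¹ := by
        group
      rw [e, ← conj_comm (x := (a j k)⁻¹)]
      have e1 : (a j k)⁻¹ * (a j k * (a j l * a i j * (a j l)⁻¹) * (a j k)⁻¹) * (a j k)⁻¹⁻¹ =
          a j l * a i j * (a j l)⁻¹ := by group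
      have e2 : (a j k)⁻¹ * a k l * (a j k)⁻¹⁻¹ = (a j k)⁻¹ * a k l * a j k := by group
      rw [e1, e2, (PB.tri h h2 h3).e2, conj_comm]
      exact h.q1 _ _ _ _ h1 h2 h3
    · rw [sw_pq h hpq, sw_p' h13.ne h14.ne h3.ne, sw_q' h2.ne h24.ne, conj_comm]
      exact h.q2 _ _ _ _ h1 h2 h3

end Pool.Agent.Bst88
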