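import Pool.Agent.Bst88.Dwn
import Pool.Agent.Bst88.Cab
import Pool.Agent.Bst88.Isg
import Pool.Agent.Bst88.Qd

/-! A family with the pure braid relations on `n` strands in `GL(V)`, all of whose triples do not
commute, has `n ≤ dim V + 2`. -/

namespace Pool.Agent.Bst88

open Pool.Agent.Conf14 Module

section
variable {m : ℕ} {G : Type*} [Group G] {c : Fin (m + 2) → Fin (m + 2) → G}

theorem one_ne_zero' : (1 : Fin (m + 2)) ≠ 0 := by
  intro e
  have := congrArg Fin.val e
  have h1 : ((1 : Fin (m + 2)) : ℕ) = 1 := rfl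
  have h2 : ((0 : Fin (m + 2)) : ℕ) = 0 := rfl
  omega

theorem one_le_of_ne {i : Fin (m + 2)} (h : i ≠ 0) : 1 ≤ (i : ℕ) := by
  have : (i : ℕ) ≠ 0 := fun e => h (Fin.ext e)
  omega

theorem exists_pred {i : Fin (m + 2)} (h : i ≠ 0) : ∃ j : Fin (m + 1), j.succ = i :=
  Fin.exists_succ_eq.mpr h

/-- a block `(0 1)` is inactive -/
def Ina (c : Fin (m + 2) → Fin (m + 2) → G) : Prop :=
  ∀ i j, i ≠ 0 → j ≠ 0 → i ≠ j → Commute (cab c 0 i) (cab c i j)

theorem Ina.com (h : Ina c) {i j : Fin (m + 2)} (hi : i ≠ 0) (hi1 : i ≠ 1) (hj : j ≠ 0)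
    (hj1 : j ≠ 1) (hij : i ≠ j) : Commute (c 0 i * c 1 i) (c i j) := by
  obtain ⟨i', rfl⟩ := exists_pred hi
  obtain ⟨j', rfl⟩ := exists_pred hj
  have h1 : i' ≠ 0 := fun e => hi1 (by rw [e]; rfl)
  have h2 : j' ≠ 0 := fun e => hj1 (by rw [e]; rfl)
  have := h i' j' h1 h2 (fun e => hij (by rw [e]))
  rwa [cab_zero h1, cab_ne h1 h2] at this

/-- step (A) -/
theorem Ina.nc (h : Ina c) (hnc : ∀ i j l, i ≠ 0 → j ≠ 0 → l ≠ 0 → i ≠ j → j ≠ l → i ≠ l →
    ¬ Commute (c i j) (c j l)) {i j : Fin (m + 2)} (hi : i ≠ 0) (hi1 : i ≠ 1) (hj : j ≠ 0)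
    (hj1 : j ≠ 1) (hij : i ≠ j) : ¬ Commute (c 0 i) (c i j) := by
  intro hc
  have h1 := h.com hi hi1 hj hj1 hij
  apply hnc 1 i j one_ne_zero' hi hj hi1.symm hij hj1.symm
  have e : c 1 i = (c 0 i)⁻¹ * (c 0 i * c 1 i) := by group
  rw [e]
  exact hc.inv_left.mul_left h1

end

section
variable {m : ℕ} {G : Type*} [Group G] {c : Fin (m + 5) → Fin (m + 5) → G}

private theorem fin_val_one : ((1 : Fin (m + 5)) : ℕ) = 1 := rfl
private theorem fin_val_two : ((2 : Fin (m + 5)) : ℕ) = 2 := rfl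
private theorem fin_val_zero : ((0 : Fin (m + 5)) : ℕ) = 0 := rfl

/-- the twist of the first three strands -/
theorem twist_two (h : PB c) (hi : Ina c) {j : Fin (m + 5)} (hj : (2 : Fin (m + 5)) < j) :
    Commute (c 0 1 * c 0 2 * c 1 2) (c 2 j) := by
  have l0 : (0 : Fin (m + 5)) < 1 := by rw [Fin.lt_def, fin_val_zero, fin_val_one]; omega
  have l1 : (1 : Fin (m + 5)) < 2 := by rw [Fin.lt_def, fin_val_one, fin_val_two]; omega
  have h1 := hi.com (i := 2) (j := j) ((l0.trans l1).ne') l1.ne' ((l0.trans l1).trans hj).ne'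
    (l1.trans hj).ne' hj.ne
  have e : c 0 1 * c 0 2 * c 1 2 = c 0 1 * (c 0 2 * c 1 2) := by group
  rw [e]
  exact (h.q1 _ _ _ _ l0 l1 hj).mul_left h1

theorem twist_one (h : PB c) (hi : Ina (sw c 1 2)) {j : Fin (m + 5)} (hj : (2 : Fin (m + 5)) < j) :
    Commute (c 0 1 * c 0 2 * c 1 2) (c 1 j) := by
  have l0 : (0 : Fin (m + 5)) < 1 := by rw [Fin.lt_def, fin_val_zero, fin_val_one]; omega
  have l1 : (1 : Fin (m + 5)) < 2 := by rw [Fin.lt_def, fin_val_one, fin_val_two]; omega
  have hpq : ((2 : Fin (m + 5)) : ℕ) = (1 : Fin (m + 5)) + 1 := by rw [fin_val_one, fin_val_two]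
  have h1 := twist_two (PB.sw h hpq) hi hj
  have t := PB.tri h l0 l1
  rw [sw_p' l0.ne (l0.trans l1).ne l1.ne, sw_q' l0.ne (l0.trans l1).ne, sw_pq h hpq,
    sw_q (l1.trans hj).ne' hj.ne'] at h1
  have e : c 0 2 * (c 1 2 * c 0 1 * (c 1 2)⁻¹) * c 1 2 = c 0 1 * c 0 2 * c 1 2 := by
    rw [← t.rot2]; group
  rw [e] at h1
  -- T commutes with x * c 1 j * x⁻¹ and x
  have e2 : c 1 j = (c 1 2)⁻¹ * (c 1 2 * c 1 j * (c 1 2)⁻¹) * c 1 2 := by group
  rw [e2]
  exact (t.cz.inv_right.mul_right h1).mul_right t.cz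

theorem twist_zero (h : PB c) (hi : Ina c) (hi' : Ina (sw c 1 2)) {j : Fin (m + 5)}
    (hj : (2 : Fin (m + 5)) < j) : Commute (c 0 1 * c 0 2 * c 1 2) (c 0 j) := by
  have l0 : (0 : Fin (m + 5)) < 1 := by rw [Fin.lt_def, fin_val_zero, fin_val_one]; omega
  have l1 : (1 : Fin (m + 5)) < 2 := by rw [Fin.lt_def, fin_val_one, fin_val_two]; omega
  have h1 := twist_one h hi' hj
  obtain ⟨j', rfl⟩ := exists_pred ((l0.trans l1).trans hj).ne'
  have hj' : j' ≠ 0 := fun e => (l1.trans hj).ne' (by rw [e]; rfl)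
  have hj1 : (1 : Fin (m + 4)) ≠ j' := fun e => hj.ne (by rw [← e]; rfl)
  have h10 : (1 : Fin (m + 4)) ≠ 0 := one_ne_zero'
  have hs : (1 : Fin (m + 4)).succ = (2 : Fin (m + 5)) := rfl
  have c1 : Commute (cab c 0 1) (cab c 1 j') := hi 1 j' h10 hj' hj1
  have c2 := com_all (PB.cab h) h10.symm hj1 hj'.symm c1
  have c3 : Commute (cab c 0 1) (cab c 0 j') := by
    rw [(PB.cab h).symm 0 j']
    exact c2.2.symm
  rw [cab_zero h10, cab_zero hj', hs] at c3
  have c4 : Commute (c 0 1) (c 0 j'.succ * c 1 j'.succ) := by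
    have := cab_comm h 0 j' hj'.symm
    rwa [cab_zero hj'] at this
  have e : c 0 1 * c 0 2 * c 1 2 = c 0 1 * (c 0 2 * c 1 2) := by group
  have e2 : c 0 j'.succ = (c 0 j'.succ * c 1 j'.succ) * (c 1 j'.succ)⁻¹ := by group
  rw [e2]
  refine Commute.mul_right ?_ h1.inv_right
  rw [e]
  exact c4.mul_left c3

/-- the twist commutes with the whole family -/
theorem twist_comm (h : PB c) (hi : Ina c) (hi' : Ina (sw c 1 2)) {i j : Fin (m + 5)}
    (hij : i ≠ j) : Commute (c 0 1 * c 0 2 * c 1 2) (c i j) := by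
  have l0 : (0 : Fin (m + 5)) < 1 := by rw [Fin.lt_def, fin_val_zero, fin_val_one]; omega
  have l1 : (1 : Fin (m + 5)) < 2 := by rw [Fin.lt_def, fin_val_one, fin_val_two]; omega
  wlog hlt : i < j generalizing i j
  · rw [h.symm i j]
    exact this hij.symm (lt_of_le_of_ne (not_lt.mp hlt) hij.symm)
  have t := PB.tri h l0 l1
  have hcase : ∀ i : Fin (m + 5), i = 0 ∨ i = 1 ∨ i = 2 ∨ 2 < i := by
    intro i
    rcases Nat.lt_or_ge 2 (i : ℕ) with h1 | h1
    · right; right; right
      rw [Fin.lt_def, fin_val_two]; exact h1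
    · have : (i : ℕ) = 0 ∨ (i : ℕ) = 1 ∨ (i : ℕ) = 2 := by omega
      rcases this with h2 | h2 | h2
      · left; exact Fin.ext h2
      · right; left; exact Fin.ext h2
      · right; right; left; exact Fin.ext h2
  rcases hcase j with rfl | rfl | rfl | hj
  · exact absurd hlt (Fin.not_lt_zero i)
  · rcases hcase i with rfl | rfl | rfl | hi2
    · exact t.cx
    · exact absurd rfl hij
    · exact absurd hlt (not_lt.mpr l1.le)
    · exact absurd hlt (not_lt.mpr (l1.trans hi2).le)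
  · rcases hcase i with rfl | rfl | rfl | hi2
    · exact t.cy
    · exact t.cz
    · exact absurd rfl hij
    · exact absurd hlt (not_lt.mpr hi2.le)
  · rcases hcase i with rfl | rfl | rfl | hi2
    · exact twist_zero h hi hi' hj
    · exact twist_one h hi' hj
    · exact twist_two h hi hj
    · exact ((h.q1 _ _ _ _ l0 (l1.trans hi2) hlt).mul_left
        (h.q1 _ _ _ _ (l0.trans l1) hi2 hlt)).mul_left (h.q1 _ _ _ _ l1 hi2 hlt)

/-- in the stuck case all twists of two strands with `0` are central -/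
theorem twist_all (h : PB c) (hst : ∀ c' w, Rch c c' w → Ina c') {l i : Fin (m + 5)}
    (hl : l ≠ 0) (hli : l < i) {u v : Fin (m + 5)} (huv : u ≠ v) :
    Commute (c 0 l * c 0 i * c l i) (c u v) := by
  have l0 : (0 : Fin (m + 5)) < 1 := by rw [Fin.lt_def, fin_val_zero, fin_val_one]; omega
  have l1 : (1 : Fin (m + 5)) < 2 := by rw [Fin.lt_def, fin_val_one, fin_val_two]; omega
  have hl1 := one_le_of_ne (m := m + 3) hl
  have hlt := hli
  rw [Fin.lt_def] at hlt
  obtain ⟨c1, w1, r1, a1, b1, d1, e1, f1⟩ := exists_down ((l : ℕ) - 1) c h 1 l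
    (by rw [fin_val_one]; omega) (by rw [fin_val_one]; omega)
  have p1 := (r1.reo h).pb
  obtain ⟨c2, w2, r2, a2, b2, d2, e2, f2⟩ := exists_down ((i : ℕ) - 2) c1 p1 2 i
    (by rw [fin_val_two]; omega) (by rw [fin_val_two]; omega)
  have p2 := (r2.reo p1).pb
  have r12 := r1.trans r2
  -- the entries
  have g1 : c1 1 0 = c l 0 := by rw [e1 0 l0.ne, r1.zero]
  have g2 : c1 1 i = c l i := by
    have hi1 : i ≠ 1 := by
      intro e
      have := congrArg Fin.val e
      rw [fin_val_one] at this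
      omega
    rw [e1 i hi1, d1 i hli]
  have g3 : c1 0 i = c 0 i := f1 0 i (Or.inl l0) (Or.inr hli)
  have k1 : c2 0 1 = c 0 l := by
    rw [f2 0 1 (Or.inl (l0.trans l1)) (Or.inl l1), p1.symm 0 1, g1, h.symm]
  have k2 : c2 0 2 = c 0 i := by
    rw [p2.symm 0 2, e2 0 (l0.trans l1).ne, b2 0 (l0.trans l1), p1.symm, g3]
  have k3 : c2 1 2 = c l i := by
    rw [p2.symm 1 2, e2 1 l1.ne, b2 1 l1, p1.symm, g2]
  have hsw : Rch c (sw c2 1 2) (w1 * w2 * Equiv.swap 1 2) :=
    Rch.step 1 2 r12 (by rw [fin_val_one]; omega) (by rw [fin_val_one, fin_val_two])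
  have key : ∀ u v, u ≠ v → Commute (c2 0 1 * c2 0 2 * c2 1 2) (c2 u v) := fun u v huv =>
    twist_comm p2 (hst _ _ r12) (hst _ _ hsw) huv
  rw [← k1, ← k2, ← k3]
  -- from the reordered family to the family
  have hmem : c u v ∈ gp c2 := by
    rw [r12.gp h]
    exact mem_gp huv
  refine Subgroup.closure_induction (p := fun g _ => Commute (c2 0 1 * c2 0 2 * c2 1 2) g)
    ?_ ?_ ?_ ?_ hmem
  · rintro _ ⟨i, j, hij, rfl⟩
    exact key i j hij
  · exact Commute.one_right _
  · intro x y _ _ hx hy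
    exact hx.mul_right hy
  · intro x _ hx
    exact hx.inv_right

theorem g_rel (h : PB c) (hst : ∀ c' w, Rch c c' w → Ina c') {l i j : Fin (m + 5)}
    (hl : l ≠ 0) (hli : l < i) (hj0 : j ≠ 0) (hj : j < l ∨ i < j) :
    Commute (c 0 l * c 0 i) (c 0 j) := by
  have l0 : (0 : Fin (m + 5)) < l := Fin.pos_iff_ne_zero.mpr hl
  have hT := twist_all h hst hl hli (u := 0) (v := j) hj0.symm
  have h2 : Commute (c l i) (c 0 j) := by
    rcases hj with hj | hj
    · exact (h.q1 _ _ _ _ (Fin.pos_iff_ne_zero.mpr hj0) hj hli).symm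
    · exact (h.q2 _ _ _ _ l0 hli hj).symm
  have e : c 0 l * c 0 i = (c 0 l * c 0 i * c l i) * (c l i)⁻¹ := by group
  rw [e]
  exact hT.mul_left h2.inv_left

/-- all commutators of the `c 0 i` are one central involution -/
theorem g_comm_all (h : PB c) (hst : ∀ c' w, Rch c c' w → Ina c') :
    ∃ t : G, t * t = 1 ∧ (∀ i, i ≠ 0 → Commute t (c 0 i)) ∧
      ∀ i j, i ≠ 0 → j ≠ 0 → i ≠ j → c 0 i * c 0 j = t * (c 0 j * c 0 i) := by
  have l0 : (0 : Fin (m + 5)) < 1 := by rw [Fin.lt_def, fin_val_zero, fin_val_one]; omega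
  have l1 : (1 : Fin (m + 5)) < 2 := by rw [Fin.lt_def, fin_val_one, fin_val_two]; omega
  have h1 : (1 : Fin (m + 5)) ≠ 0 := l0.ne'
  have h2 : (2 : Fin (m + 5)) ≠ 0 := (l0.trans l1).ne'
  -- the quadruples 1, 2, i, j
  have hq : ∀ i j : Fin (m + 5), 2 < i → i < j → ∃ t : G, t * t = 1 ∧ Commute t (c 0 1) ∧
      Commute t (c 0 2) ∧ Commute t (c 0 i) ∧ Commute t (c 0 j) ∧
      c 0 1 * c 0 2 = t * (c 0 2 * c 0 1) ∧ c 0 1 * c 0 i = t * (c 0 i * c 0 1) ∧
      c 0 1 * c 0 j = t * (c 0 j * c 0 1) ∧ c 0 2 * c 0 i = t * (c 0 i * c 0 2) ∧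
      c 0 2 * c 0 j = t * (c 0 j * c 0 2) ∧ c 0 i * c 0 j = t * (c 0 j * c 0 i) := by
    intro i j hi hij
    have hi0 : i ≠ 0 := ((l0.trans l1).trans hi).ne'
    have hj0 : j ≠ 0 := (((l0.trans l1).trans hi).trans hij).ne'
    exact quad (g_rel h hst h1 l1 hi0 (Or.inr hi)) (g_rel h hst h2 hi h1 (Or.inl l1))
      (g_rel h hst h1 l1 hj0 (Or.inr (hi.trans hij))) (g_rel h hst h2 (hi.trans hij) h1 (Or.inl l1))
      (g_rel h hst h1 (l1.trans hi) hj0 (Or.inr hij))
      (g_rel h hst hi0 hij h1 (Or.inl (l1.trans hi)))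
      (g_rel h hst h2 hi hj0 (Or.inr hij)) (g_rel h hst hi0 hij h2 (Or.inl hi))
  obtain ⟨t, ht⟩ : ∃ t : G, t = c 0 1 * c 0 2 * (c 0 2 * c 0 1)⁻¹ := ⟨_, rfl⟩
  have hv3 : ((⟨3, by omega⟩ : Fin (m + 5)) : ℕ) = 3 := rfl
  have hv4 : ((⟨4, by omega⟩ : Fin (m + 5)) : ℕ) = 4 := rfl
  have tq : ∀ s : G, c 0 1 * c 0 2 = s * (c 0 2 * c 0 1) → s = t := by
    intro s hs
    rw [ht, hs]
    group
  have hq' : ∀ i j : Fin (m + 5), 2 < i → i < j → t * t = 1 ∧ Commute t (c 0 1) ∧
      Commute t (c 0 2) ∧ Commute t (c 0 i) ∧ Commute t (c 0 j) ∧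
      c 0 1 * c 0 2 = t * (c 0 2 * c 0 1) ∧ c 0 1 * c 0 i = t * (c 0 i * c 0 1) ∧
      c 0 1 * c 0 j = t * (c 0 j * c 0 1) ∧ c 0 2 * c 0 i = t * (c 0 i * c 0 2) ∧
      c 0 2 * c 0 j = t * (c 0 j * c 0 2) ∧ c 0 i * c 0 j = t * (c 0 j * c 0 i) := by
    intro i j hi hij
    obtain ⟨s, k1, k2, k3, k4, k5, k6, k7⟩ := hq i j hi hij
    have := tq s k6
    subst this
    exact ⟨k1, k2, k3, k4, k5, k6, k7⟩
  have l34 : (⟨3, by omega⟩ : Fin (m + 5)) < ⟨4, by omega⟩ := by
    rw [Fin.lt_def]; show 3 < 4; omega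
  have l23 : (2 : Fin (m + 5)) < ⟨3, by omega⟩ := by rw [Fin.lt_def, fin_val_two]; show 2 < 3; omega
  have base := hq' _ _ l23 l34
  -- a partner for every `i > 2`
  have hone : ∀ i : Fin (m + 5), 2 < i → Commute t (c 0 i) ∧
      c 0 1 * c 0 i = t * (c 0 i * c 0 1) ∧ c 0 2 * c 0 i = t * (c 0 i * c 0 2) := by
    intro i hi
    by_cases h3 : i = ⟨3, by omega⟩
    · rw [h3]
      exact ⟨base.2.2.2.1, base.2.2.2.2.2.2.1, base.2.2.2.2.2.2.2.2.1⟩
    · have hlt : (⟨3, by omega⟩ : Fin (m + 5)) < i := by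
        rw [Fin.lt_def] at hi ⊢
        rw [fin_val_two] at hi
        have : (i : ℕ) ≠ 3 := fun e => h3 (Fin.ext e)
        show 3 < (i : ℕ)
        omega
      have := hq' _ _ l23 hlt
      exact ⟨this.2.2.2.2.1, this.2.2.2.2.2.2.2.1, this.2.2.2.2.2.2.2.2.2.1⟩
  have hcase : ∀ i : Fin (m + 5), i ≠ 0 → i = 1 ∨ i = 2 ∨ 2 < i := by
    intro i hi
    have hi1 := one_le_of_ne (m := m + 3) hi
    rcases Nat.lt_or_ge 2 (i : ℕ) with h1 | h1
    · right; right
      rw [Fin.lt_def, fin_val_two]; exact h1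
    · have : (i : ℕ) = 1 ∨ (i : ℕ) = 2 := by omega
      rcases this with h2 | h2
      · left; exact Fin.ext h2
      · right; left; exact Fin.ext h2
  refine ⟨t, base.1, ?_, ?_⟩
  · intro i hi
    rcases hcase i hi with rfl | rfl | hi2
    · exact base.2.1
    · exact base.2.2.1
    · exact (hone i hi2).1
  · have hlt : ∀ i j : Fin (m + 5), i ≠ 0 → i < j → c 0 i * c 0 j = t * (c 0 j * c 0 i) := by
      intro i j hi hij
      have hj : j ≠ 0 := ((Fin.pos_iff_ne_zero.mpr hi).trans hij).ne'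
      rcases hcase i hi with rfl | rfl | hi2
      · rcases hcase j hj with rfl | rfl | hj2
        · exact absurd hij (lt_irrefl _)
        · exact base.2.2.2.2.2.1
        · exact (hone j hj2).2.1
      · rcases hcase j hj with rfl | rfl | hj2
        · exact absurd hij (not_lt.mpr l1.le)
        · exact absurd hij (lt_irrefl _)
        · exact (hone j hj2).2.2
      · exact (hq' i j hi2 hij).2.2.2.2.2.2.2.2.2.2
    intro i j hi hj hij
    rcases lt_or_gt_of_ne hij with h3 | h3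
    · exact hlt i j hi h3
    · have := hlt j i hj h3
      rw [this, ← mul_assoc, base.1, one_mul]

end

section
variable {V : Type*} [AddCommGroup V] [Module ℂ V]

theorem units_comm {u v : (End ℂ V)ˣ} : Commute (u : End ℂ V) (v : End ℂ V) ↔ Commute u v := by
  constructor
  · intro h
    exact Units.ext h.eq
  · intro h
    exact congrArg Units.val h.eq

theorem comm_gp {n : ℕ} {c : Fin n → Fin n → (End ℂ V)ˣ} {T : End ℂ V}
    (hT : ∀ i j, i ≠ j → Commute T (c i j : End ℂ V)) {g : (End ℂ V)ˣ} (hg : g ∈ gp c) :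
    Commute T (g : End ℂ V) := by
  refine Subgroup.closure_induction (p := fun (g : (End ℂ V)ˣ) _ => Commute T (g : End ℂ V))
    ?_ ?_ ?_ ?_ hg
  · rintro _ ⟨i, j, hij, rfl⟩
    exact hT i j hij
  · exact Commute.one_right _
  · intro x y _ _ hx hy
    exact hx.mul_right hy
  · intro x _ hx
    exact hx.units_inv_right

theorem two_pow_ge (k : ℕ) : k + 2 ≤ 2 ^ (k / 2 + 2) - 1 := by
  have key : ∀ j : ℕ, 2 * j + 4 ≤ 2 ^ (j + 2) := by
    intro j
    induction j with
    | zero => norm_num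
    | succ j ih =>
        have : 2 ^ (j + 1 + 2) = 2 * 2 ^ (j + 2) := by rw [pow_succ 2 (j + 2)]; ring
        omega
  have := key (k / 2)
  omega

/-- the stuck case -/
theorem chain_stuck [FiniteDimensional ℂ V] {m : ℕ} {c : Fin (m + 5) → Fin (m + 5) → (End ℂ V)ˣ}
    (h : PB c) (hst : ∀ c' w, Rch c c' w → Ina c')
    (hg : ∀ i j, i ≠ 0 → j ≠ 0 → i ≠ j → ¬ Commute (c 0 i) (c i j)) :
    ∃ L : List (End ℂ V × End ℂ V), m + 2 ≤ L.length ∧ Chain L ∧
      ∀ T : End ℂ V, (∀ i j, i ≠ j → Commute T (c i j : End ℂ V)) →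
        ∀ p ∈ L, Commute T p.1 ∧ Commute T p.2 := by
  obtain ⟨t, ht, hc, ha⟩ := g_comm_all h hst
  have l0 : (0 : Fin (m + 5)) < 1 := by rw [Fin.lt_def, fin_val_zero, fin_val_one]; omega
  have l1 : (1 : Fin (m + 5)) < 2 := by rw [Fin.lt_def, fin_val_one, fin_val_two]; omega
  have ht1 : t ≠ 1 := by
    intro e
    have h1 := ha 1 2 l0.ne' (l0.trans l1).ne' l1.ne
    rw [e, one_mul] at h1
    have h2 := com_all h (i := 1) (j := 0) (k := 2) l0.ne' (l0.trans l1).ne l1.ne
      (by rw [h.symm 1 0]; exact h1)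
    -- Commute (c 0 2) (c 2 1) ∧ Commute (c 2 1) (c 1 0)
    apply hg 1 2 l0.ne' (l0.trans l1).ne' l1.ne
    have := h2.2.symm
    rwa [h.symm 1 0, h.symm 2 1] at this
  -- the idempotent
  obtain ⟨s, hs⟩ : ∃ s : End ℂ V, s = (t : End ℂ V) := ⟨_, rfl⟩
  have hss : s * s = 1 := by rw [hs, ← Units.val_mul, ht, Units.val_one]
  have hs1 : s ≠ 1 := by
    intro e
    rw [hs] at e
    exact ht1 (Units.ext e)
  obtain ⟨π, hπ⟩ : ∃ π : End ℂ V, π = (2⁻¹ : ℂ) • (1 - s) := ⟨_, rfl⟩
  have hsπ : s * π = - π := by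
    rw [hπ, mul_smul_comm, mul_sub, mul_one, hss, ← smul_neg, neg_sub]
  have hππ : π * π = π := by
    have : π * π = (2⁻¹ : ℂ) • (π - s * π) := by
      nth_rewrite 1 [hπ]
      rw [smul_mul_assoc, sub_mul, one_mul]
    rw [this, hsπ, sub_neg_eq_add, ← two_smul ℂ π, smul_smul]
    norm_num
  have hπ0 : π ≠ 0 := by
    intro e
    rw [hπ] at e
    have := (smul_eq_zero.mp e).resolve_left (by norm_num)
    exact hs1 (sub_eq_zero.mp this).symm
  -- the sequence
  obtain ⟨g, hgd⟩ : ∃ g : ℕ → (End ℂ V)ˣ, ∀ (i : ℕ) (hi : i + 1 < m + 5),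
      g i = c 0 ⟨i + 1, hi⟩ :=
    ⟨fun i => if hi : i + 1 < m + 5 then c 0 ⟨i + 1, hi⟩ else 1, fun i hi => dif_pos hi⟩
  obtain ⟨H, hH⟩ : ∃ H : ℕ, H = m / 2 + 2 := ⟨_, rfl⟩
  have hHm : 2 * H ≤ m + 4 := by omega
  have hcπ : ∀ i, i < 2 * H → Commute π (g i : End ℂ V) := by
    intro i hi
    rw [hgd i (by omega), hπ]
    have h1 : Commute t (c 0 ⟨i + 1, by omega⟩) := hc _ (by
      intro e
      have := congrArg Fin.val e
      rw [fin_val_zero] at this
      change i + 1 = 0 at this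
      omega)
    have h2 : Commute s (c 0 ⟨i + 1, by omega⟩ : End ℂ V) := by
      rw [hs]
      exact units_comm.mpr h1
    exact ((Commute.one_left _).sub_left h2).smul_left _
  obtain ⟨L, hL1, hL2, hL3, hL4⟩ := ising H g π hππ hπ0 hcπ (by
    intro i j hi hj hij
    have h0 : ∀ i (hi : i + 1 < m + 5), (⟨i + 1, hi⟩ : Fin (m + 5)) ≠ 0 := by
      intro i hi e
      have := congrArg Fin.val e
      rw [fin_val_zero] at this
      change i + 1 = 0 at this
      omega
    have h1 := ha ⟨i + 1, by omega⟩ ⟨j + 1, by omega⟩ (h0 i _) (h0 j _) (by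
      intro e
      have := congrArg Fin.val e
      change i + 1 = j + 1 at this
      omega)
    rw [← hgd i (by omega), ← hgd j (by omega)] at h1
    have h2 : (g i : End ℂ V) * (g j : End ℂ V) = s * ((g j : End ℂ V) * (g i : End ℂ V)) := by
      rw [hs]
      exact congrArg Units.val h1
    have h3 : Commute π ((g j : End ℂ V) * (g i : End ℂ V)) :=
      (hcπ j hj).mul_right (hcπ i hi)
    calc (g i : End ℂ V) * (g j : End ℂ V) * π = s * ((g j : End ℂ V) * (g i : End ℂ V) * π) := by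
          rw [h2, mul_assoc]
      _ = s * π * ((g j : End ℂ V) * (g i : End ℂ V)) := by rw [← h3.eq, mul_assoc]
      _ = _ := by rw [hsπ, neg_mul, h3.eq])
  refine ⟨L, ?_, hL2, ?_⟩
  · rw [hL1, hH]
    exact two_pow_ge m
  · intro T hT
    apply hL4 T
    · have hTs : Commute T s := by
        have : t = c 0 1 * c 0 2 * (c 0 2 * c 0 1)⁻¹ := by
          rw [ha 1 2 l0.ne' (l0.trans l1).ne' l1.ne]; group
        rw [hs, this]
        exact comm_gp hT ((gp c).mul_mem ((gp c).mul_mem (mem_gp l0.ne) (mem_gp (l0.trans l1).ne))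
          ((gp c).inv_mem ((gp c).mul_mem (mem_gp (l0.trans l1).ne) (mem_gp l0.ne))))
      rw [hπ]
      exact ((Commute.one_right T).sub_right hTs).smul_right _
    · intro i hi
      rw [hgd i (by omega)]
      exact hT _ _ (by
        intro e
        have := congrArg Fin.val e
        rw [fin_val_zero] at this
        change 0 = i + 1 at this
        omega)

/-- `C(k)` -/
theorem claimC [FiniteDimensional ℂ V] (k : ℕ) : ∀ c : Fin (k + 1) → Fin (k + 1) → (End ℂ V)ˣ,
    PB c → (∀ i j l, i ≠ 0 → j ≠ 0 → l ≠ 0 → i ≠ j → j ≠ l → i ≠ l →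
      ¬ Commute (c i j) (c j l)) →
    (∃ i j, i ≠ 0 ∧ j ≠ 0 ∧ i ≠ j ∧ ¬ Commute (c 0 i) (c i j)) →
    ∃ L : List (End ℂ V × End ℂ V), k - 2 ≤ L.length ∧ Chain L ∧
      ∀ T : End ℂ V, (∀ i j, i ≠ j → Commute T (c i j : End ℂ V)) →
        ∀ p ∈ L, Commute T p.1 ∧ Commute T p.2 := by
  induction k with
  | zero =>
      intro c _ _ _
      exact ⟨[], by simp, chain_nil, fun _ _ p hp => absurd hp List.not_mem_nil⟩
  | succ k ih =>
      intro c h hnc hac
      rcases Nat.lt_or_ge k 2 with hk2 | hk2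
      · exact ⟨[], by simp; omega, chain_nil, fun _ _ p hp => absurd hp List.not_mem_nil⟩
      rcases Nat.lt_or_ge k 3 with hk3 | hk3
      · obtain ⟨i, j, hi, hj, hij, hcij⟩ := hac
        refine ⟨[((c 0 i : End ℂ V), (c i j : End ℂ V))], by simp; omega, ?_, ?_⟩
        · rw [chain_cons]
          exact ⟨fun q hq => absurd hq List.not_mem_nil, fun hc => hcij (units_comm.mp hc),
            chain_nil⟩
        · intro T hT p hp
          rw [List.mem_singleton] at hp
          subst hp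
          exact ⟨hT _ _ hi.symm, hT _ _ hij⟩
      obtain ⟨m, rfl⟩ : ∃ m, k = m + 3 := ⟨k - 3, by omega⟩
      -- now `c : Fin (m + 5) → Fin (m + 5) → _`
      change Fin (m + 5) → Fin (m + 5) → (End ℂ V)ˣ at c
      have l0 : (0 : Fin (m + 5)) < 1 := by rw [Fin.lt_def, fin_val_zero, fin_val_one]; omega
      -- transport of the hypothesis
      have hncR : ∀ c' w, Rch c c' w → ∀ i j l : Fin (m + 5), i ≠ 0 → j ≠ 0 → l ≠ 0 → i ≠ j →
          j ≠ l → i ≠ l → ¬ Commute (c' i j) (c' j l) := by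
        intro c' w hr i j l hi hj hl hij hjl hil hc
        have hz : ∀ i : Fin (m + 5), i ≠ 0 → w i ≠ 0 := by
          intro i hi e
          rw [← hr.zero] at e
          exact hi (w.injective e)
        exact hnc _ _ _ (hz i hi) (hz j hj) (hz l hl) (fun e => hij (w.injective e))
          (fun e => hjl (w.injective e)) (fun e => hil (w.injective e))
          (((hr.reo h).cm i j l hij hjl hil).mp hc)
      by_cases hcase : ∃ c' w, Rch c c' w ∧ (∃ j : Fin (m + 5), j ≠ 0 ∧ j ≠ 1 ∧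
          ¬ Commute (c' 0 1) (c' 1 j)) ∧ ¬ Ina c'
      · -- the induction step
        obtain ⟨c', w, hr, ⟨j, hj0, hj1, hj⟩, hina⟩ := hcase
        have hp := (hr.reo h).pb
        have hsub : ∀ i : Fin (m + 4), i ≠ 0 → i.succ ≠ (0 : Fin (m + 5)) :=
          fun i _ => Fin.succ_ne_zero i
        obtain ⟨L, hL1, hL2, hL3⟩ := ih (cab c') (PB.cab hp) (by
          intro i j l hi hj hl hij hjl hil
          rw [cab_ne hi hj, cab_ne hj hl]
          exact hncR c' w hr _ _ _ (hsub i hi) (hsub j hj) (hsub l hl)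
            (fun e => hij (Fin.succ_injective _ e)) (fun e => hjl (Fin.succ_injective _ e))
            (fun e => hil (Fin.succ_injective _ e))) (by
          unfold Ina at hina
          push Not at hina
          exact hina)
        have hcabT : ∀ T : End ℂ V, (∀ i j, i ≠ j → Commute T (c' i j : End ℂ V)) →
            ∀ i j, i ≠ j → Commute T ((cab c' i j : (End ℂ V)ˣ) : End ℂ V) := by
          intro T hT i j hij
          have key : ∀ j : Fin (m + 4), j ≠ 0 →
              Commute T ((c' 0 j.succ * c' 1 j.succ : (End ℂ V)ˣ) : End ℂ V) := by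
            intro j hj
            rw [Units.val_mul]
            exact (hT _ _ (Fin.succ_ne_zero j).symm).mul_right (hT _ _ (one_lt_succ hj).ne)
          by_cases hi : i = 0
          · subst hi
            rw [cab_zero hij.symm]
            exact key j hij.symm
          · by_cases hj : j = 0
            · subst hj
              rw [cab_zero' hi]
              exact key i hi
            · rw [cab_ne hi hj]
              exact hT _ _ fun e => hij (Fin.succ_injective _ e)
        refine ⟨((c' 0 1 : End ℂ V), (c' 1 j : End ℂ V)) :: L, ?_, ?_, ?_⟩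
        · rw [List.length_cons]
          omega
        · rw [chain_cons]
          refine ⟨?_, fun hc => hj (units_comm.mp hc), hL2⟩
          exact hL3 (c' 0 1 : End ℂ V) fun i j hij => units_comm.mpr (cab_comm hp i j hij)
        · intro T hT p hpm
          have hT' : ∀ i j, i ≠ j → Commute T (c' i j : End ℂ V) := by
            intro i j hij
            apply comm_gp hT
            rw [← hr.gp h]
            exact mem_gp hij
          rcases List.mem_cons.mp hpm with rfl | hpm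
          · exact ⟨hT' _ _ l0.ne, hT' _ _ hj1.symm⟩
          · exact hL3 T (hcabT T hT') p hpm
      · -- the stuck case
        push Not at hcase
        have hrch : ∀ l : Fin (m + 5), l ≠ 0 → ∃ c' w, Rch c c' w ∧ w 1 = l := by
          intro l hl
          have := one_le_of_ne (m := m + 3) hl
          obtain ⟨c', w, r1, a1, -⟩ := exists_down ((l : ℕ) - 1) c h 1 l
            (by rw [fin_val_one]; omega) (by rw [fin_val_one]; omega)
          exact ⟨c', w, r1, a1⟩
        -- from an inactive block `(0 l)`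
        have stepA : ∀ c' w, Rch c c' w → Ina c' → ∀ i j : Fin (m + 5), i ≠ 0 → j ≠ 0 → i ≠ j →
            i ≠ w 1 → j ≠ w 1 → ¬ Commute (c 0 i) (c i j) := by
          intro c' w hr hina i j hi hj hij hi1 hj1 hc
          obtain ⟨i', rfl⟩ := w.surjective i
          obtain ⟨j', rfl⟩ := w.surjective j
          have hz : ∀ i : Fin (m + 5), w i ≠ 0 → i ≠ 0 := by
            intro i hi e
            rw [e, hr.zero] at hi
            exact hi rfl
          have hi' := hz i' hi
          have hj' := hz j' hj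
          have hij' : i' ≠ j' := fun e => hij (by rw [e])
          apply hina.nc (hncR c' w hr) hi' (fun e => hi1 (by rw [e])) hj'
            (fun e => hj1 (by rw [e])) hij'
          rw [(hr.reo h).cm 0 i' j' hi'.symm hij' hj'.symm, hr.zero]
          exact hc
        -- all strands are non isolated
        have hiso : ∀ l : Fin (m + 5), l ≠ 0 → ∃ j, j ≠ 0 ∧ j ≠ l ∧ ¬ Commute (c 0 l) (c l j) := by
          obtain ⟨i0, j0, hi0, hj0, hij0, hc0⟩ := hac
          have hnon : ∀ c' w, Rch c c' w → w 1 = i0 → Ina c' := by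
            intro c' w hr hw
            apply hcase c' w hr
            obtain ⟨j', hj'⟩ := w.surjective j0
            have hj'0 : j' ≠ 0 := by
              rintro rfl
              rw [hr.zero] at hj'
              exact hj0 hj'.symm
            have hj'1 : j' ≠ 1 := by
              rintro rfl
              rw [hw] at hj'
              exact hij0 hj'
            refine ⟨j', hj'0, hj'1, ?_⟩
            rw [(hr.reo h).cm 0 1 j' l0.ne hj'1.symm hj'0.symm, hr.zero, hw, hj']
            exact hc0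
          intro l hl
          by_cases hl0 : l = i0
          · rw [hl0]
            exact ⟨j0, hj0, hij0.symm, hc0⟩
          · obtain ⟨c', w, hr, hw⟩ := hrch i0 hi0
            obtain ⟨j, hj1, hj2, hj3⟩ : ∃ j : Fin (m + 5), j ≠ 0 ∧ j ≠ l ∧ j ≠ i0 := by
              have : ∃ j : Fin (m + 5), j ∉ ({0, l, i0} : Finset (Fin (m + 5))) := by
                apply Finset.exists_mem_notMem_of_card_lt_card (s := {0, l, i0})
                  (t := Finset.univ) ?_ |>.imp fun j hj => hj.2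
                refine lt_of_le_of_lt Finset.card_le_three ?_
                rw [Finset.card_univ, Fintype.card_fin]
                omega
              obtain ⟨j, hj⟩ := this
              simp only [Finset.mem_insert, Finset.mem_singleton, not_or] at hj
              exact ⟨j, hj.1, hj.2.1, hj.2.2⟩
            exact ⟨j, hj1, hj2, stepA c' w hr (hnon c' w hr hw) l j hl hj1 hj2.symm
              (by rw [hw]; exact hl0) (by rw [hw]; exact hj3)⟩
        have hst : ∀ c' w, Rch c c' w → Ina c' := by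
          intro c' w hr
          apply hcase c' w hr
          have hw1 : w 1 ≠ 0 := by
            intro e
            rw [← hr.zero] at e
            exact l0.ne' (w.injective e)
          obtain ⟨j, hj0, hj1, hj⟩ := hiso (w 1) hw1
          obtain ⟨j', rfl⟩ := w.surjective j
          have hj'0 : j' ≠ 0 := by
            rintro rfl
            exact hj0 hr.zero
          have hj'1 : j' ≠ 1 := fun e => hj1 (by rw [e])
          refine ⟨j', hj'0, hj'1, ?_⟩
          rw [(hr.reo h).cm 0 1 j' l0.ne hj'1.symm hj'0.symm, hr.zero]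
          exact hj
        have hg : ∀ i j : Fin (m + 5), i ≠ 0 → j ≠ 0 → i ≠ j → ¬ Commute (c 0 i) (c i j) := by
          intro i j hi hj hij
          obtain ⟨l, hl0, hl1, hl2⟩ : ∃ l : Fin (m + 5), l ≠ 0 ∧ l ≠ i ∧ l ≠ j := by
            have : ∃ l : Fin (m + 5), l ∉ ({0, i, j} : Finset (Fin (m + 5))) := by
              apply Finset.exists_mem_notMem_of_card_lt_card (s := {0, i, j})
                (t := Finset.univ) ?_ |>.imp fun j hj => hj.2
              refine lt_of_le_of_lt Finset.card_le_three ?_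
              rw [Finset.card_univ, Fintype.card_fin]
              omega
            obtain ⟨l, hl⟩ := this
            simp only [Finset.mem_insert, Finset.mem_singleton, not_or] at hl
            exact ⟨l, hl.1, hl.2.1, hl.2.2⟩
          obtain ⟨c', w, hr, hw⟩ := hrch l hl0
          exact stepA c' w hr (hst c' w hr) i j hi hj hij (by rw [hw]; exact hl1.symm)
            (by rw [hw]; exact hl2.symm)
        obtain ⟨L, hL1, hL2, hL3⟩ := chain_stuck h hst hg
        exact ⟨L, by omega, hL2, hL3⟩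

/-- Theorem S in the group of units -/
theorem thmS_units [FiniteDimensional ℂ V] [Nontrivial V] {n : ℕ}
    {a : Fin n → Fin n → (End ℂ V)ˣ} (h : PB a)
    (hnc : ∀ i j l, i ≠ j → j ≠ l → i ≠ l → ¬ Commute (a i j) (a j l)) :
    n ≤ finrank ℂ V + 2 := by
  rcases Nat.lt_or_ge n 3 with hn | hn
  · omega
  obtain ⟨k, rfl⟩ : ∃ k, n = k + 3 := ⟨n - 3, by omega⟩
  change Fin (k + 3) → Fin (k + 3) → (End ℂ V)ˣ at a
  have v0 : ((0 : Fin (k + 3)) : ℕ) = 0 := rfl
  have v1 : ((1 : Fin (k + 3)) : ℕ) = 1 := rfl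
  have v2 : ((2 : Fin (k + 3)) : ℕ) = 2 := rfl
  have n1 : (1 : Fin (k + 3)) ≠ 0 := fun e => by have := congrArg Fin.val e; omega
  have n2 : (2 : Fin (k + 3)) ≠ 0 := fun e => by have := congrArg Fin.val e; omega
  have n3 : (1 : Fin (k + 3)) ≠ 2 := fun e => by have := congrArg Fin.val e; omega
  obtain ⟨L, hL1, hL2, -⟩ := claimC (k + 2) a h (fun i j l _ _ _ => hnc i j l)
    ⟨1, 2, n1, n2, n3, hnc 0 1 2 n1.symm n3 n2.symm⟩
  have := hL2.le
  omega

/-- image of a family under a homomorphism -/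
theorem PB.map' {n : ℕ} {G H : Type*} [Group G] [Group H] {a : Fin n → Fin n → G} (h : PB a)
    (f : G →* H) : PB fun i j => f (a i j) where
  symm i j := by rw [h.symm]
  t1 i j k h1 h2 := by
    have := (h.t1 i j k h1 h2).map f
    simpa only [map_mul] using this
  t2 i j k h1 h2 := by
    have := (h.t2 i j k h1 h2).map f
    simpa only [map_mul] using this
  q1 i j k l h1 h2 h3 := (h.q1 i j k l h1 h2 h3).map f
  q2 i j k l h1 h2 h3 := (h.q2 i j k l h1 h2 h3).map f
  q3 i j k l h1 h2 h3 := by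
    have := (h.q3 i j k l h1 h2 h3).map f
    simpa only [map_mul, map_inv] using this

/-- Theorem S -/
theorem thmS [FiniteDimensional ℂ V] [Nontrivial V] {n : ℕ} {a : Fin n → Fin n → (V ≃ₗ[ℂ] V)}
    (h : PB a) (hnc : ∀ i j k, i ≠ j → i ≠ k → j ≠ k → ¬ Commute (a i j) (a i k)) :
    n ≤ finrank ℂ V + 2 := by
  obtain ⟨f, hf⟩ : ∃ f : (V ≃ₗ[ℂ] V) ≃* (End ℂ V)ˣ,
      f = (LinearMap.GeneralLinearGroup.generalLinearEquiv ℂ V).symm := ⟨_, rfl⟩
  apply thmS_units (PB.map' h f.toMonoidHom)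
  intro i j l hij hjl hil hc
  apply hnc j i l hij.symm hjl hil
  have h1 : f (a i j) * f (a j l) = f (a j l) * f (a i j) := hc
  rw [← map_mul, ← map_mul] at h1
  have h2 := f.injective h1
  rw [h.symm j i]
  exact h2

end

end Pool.Agent.Bst88
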