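import Mathlib

/-! Endomorphisms which commute with a given one but not with another one. -/

namespace Pool.Agent.Bst88

open Module

variable {V : Type*} [AddCommGroup V] [Module ℂ V]

/-- the rank one map `v ↦ p v • c` -/
def rk (c : V) (p : Dual ℂ V) : End ℂ V := p.smulRight c

theorem rk_apply (c : V) (p : Dual ℂ V) (v : V) : rk c p v = p v • c := rfl

theorem exists_dual {v : V} (hv : v ≠ 0) : ∃ p : Dual ℂ V, p v = 1 := by
  obtain ⟨p, hp⟩ := (Module.forall_dual_apply_eq_zero_iff ℂ v).not.mpr hv |> not_forall.mp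
  exact ⟨(p v)⁻¹ • p, by rw [LinearMap.smul_apply, smul_eq_mul, inv_mul_cancel₀ hp]⟩

/-- if all vectors of a subspace are eigenvectors then the map is a scalar there -/
theorem scalar_of_eigen {T : End ℂ V} {W : Submodule ℂ V} (h : ∀ c ∈ W, ∃ l : ℂ, T c = l • c) :
    ∃ l : ℂ, ∀ c ∈ W, T c = l • c := by
  by_cases hW : ∀ c ∈ W, c = 0
  · exact ⟨0, fun c hc => by rw [hW c hc, map_zero, smul_zero]⟩
  push Not at hW
  obtain ⟨c0, hc0, hne⟩ := hW
  obtain ⟨l0, hl0⟩ := h c0 hc0
  refine ⟨l0, fun c hc => ?_⟩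
  obtain ⟨l1, hl1⟩ := h c hc
  obtain ⟨l2, hl2⟩ := h (c + c0) (W.add_mem hc hc0)
  rw [map_add, hl0, hl1, smul_add] at hl2
  have e1 : (l1 - l2) • c = (l2 - l0) • c0 := by
    rw [sub_smul, sub_smul, sub_eq_sub_iff_add_eq_add, hl2, add_comm]
  by_cases h12 : l1 = l2
  · rw [h12, sub_self, zero_smul] at e1
    have h20 : l2 - l0 = 0 := (smul_eq_zero.mp e1.symm).resolve_right hne
    rw [hl1, h12, sub_eq_zero.mp h20]
  · have h3 : l1 - l2 ≠ 0 := sub_ne_zero.mpr h12
    have e2 : c = ((l1 - l2)⁻¹ * (l2 - l0)) • c0 := by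
      rw [mul_smul, ← e1, smul_smul, inv_mul_cancel₀ h3, one_smul]
    rw [e2, map_smul, hl0, smul_comm]

theorem exists_noncomm {T : End ℂ V} (h : ∀ l : ℂ, T ≠ l • (1 : End ℂ V)) :
    ∃ w, ¬ Commute T w := by
  by_contra hcon
  push Not at hcon
  obtain ⟨l, hl⟩ := scalar_of_eigen (T := T) (W := ⊤) (by
    intro c _
    by_cases hc : c = 0
    · exact ⟨0, by rw [hc, map_zero, smul_zero]⟩
    obtain ⟨p, hp⟩ := exists_dual hc
    refine ⟨p (T c), ?_⟩
    have := LinearMap.congr_fun (hcon (rk c p)).eq c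
    change T (p c • c) = p (T c) • c at this
    rwa [hp, one_smul] at this)
  exact h l (LinearMap.ext fun c => hl c Submodule.mem_top)

/-- inside a summand -/
theorem exists_noncomm_on {T e : End ℂ V} (he : e * e = e) (hc : Commute T e)
    (h : ∀ l : ℂ, T * e ≠ l • e) :
    ∃ w, e * w = w ∧ w * e = w ∧ ¬ Commute (T * e) w := by
  by_contra hcon
  push Not at hcon
  have hee : ∀ v, e (e v) = e v := fun v => LinearMap.congr_fun he v
  obtain ⟨l, hl⟩ := scalar_of_eigen (T := T) (W := LinearMap.range e) (by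
    rintro _ ⟨u, rfl⟩
    by_cases hu : e u = 0
    · exact ⟨0, by rw [hu, map_zero, smul_zero]⟩
    obtain ⟨p, hp⟩ := exists_dual hu
    have h1 := hcon (rk (e u) (p ∘ₗ e)) (by
      refine LinearMap.ext fun v => ?_
      show e (p (e v) • e u) = p (e v) • e u
      rw [map_smul, hee]) (by
      refine LinearMap.ext fun v => ?_
      show p (e (e v)) • e u = p (e v) • e u
      rw [hee])
    refine ⟨p (T (e u)), ?_⟩
    have h2 := LinearMap.congr_fun h1.eq (e u)
    change T (e (p (e (e u)) • e u)) = p (e (T (e (e u)))) • e u at h2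
    have h3 : e (T (e (e u))) = T (e u) := by
      rw [hee]
      have := LinearMap.congr_fun hc.eq (e u)
      change T (e (e u)) = e (T (e u)) at this
      rw [← this, hee]
    rw [h3, hee, hp, one_smul, hee] at h2
    exact h2)
  exact h l (LinearMap.ext fun v => hl (e v) ⟨v, rfl⟩)

/-- `m ^ 2 = η m` -/
theorem exists_noncomm_sq {m T : End ℂ V} {η : ℂ} (hm : m * m = η • m) (h0 : m ≠ 0)
    (h1 : m * T = η • T) (h2 : T * m = η • T) (h : ∀ l : ℂ, T ≠ l • m) :
    ∃ w, Commute m w ∧ ¬ Commute T w := by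
  by_contra hcon
  push Not at hcon
  have em : ∀ v, m (m v) = η • m v := fun v => LinearMap.congr_fun hm v
  have e1 : ∀ v, m (T v) = η • T v := fun v => LinearMap.congr_fun h1 v
  have e2 : ∀ v, T (m v) = η • T v := fun v => LinearMap.congr_fun h2 v
  have key : ∀ (c : V) (p : Dual ℂ V) (v : V), p (m v) • T c = p (T v) • m c := by
    intro c p v
    have h3 := hcon (rk c (p ∘ₗ m) + rk (m c) p - η • rk c p) (by
      refine LinearMap.ext fun v => ?_
      show m (p (m v) • c + p v • m c - η • p v • c) =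
        p (m (m v)) • c + p (m v) • m c - η • p (m v) • c
      rw [map_sub, map_add, map_smul, map_smul, map_smul, map_smul, em, em, map_smul, smul_eq_mul,
        mul_smul, smul_comm (p v) η]
      abel)
    have h4 := LinearMap.congr_fun h3.eq v
    change T (p (m v) • c + p v • m c - η • p v • c) =
      p (m (T v)) • c + p (T v) • m c - η • p (T v) • c at h4
    rw [map_sub, map_add, map_smul, map_smul, map_smul, map_smul, e1, e2, map_smul, smul_eq_mul,
      mul_smul, smul_comm (p v) η] at h4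
    have h5 : p (m v) • T c + η • p v • T c - η • p v • T c = p (m v) • T c := by abel
    have h6 : η • p (T v) • c + p (T v) • m c - η • p (T v) • c = p (T v) • m c := by abel
    rwa [h5, h6] at h4
  obtain ⟨v, hv⟩ : ∃ v, m v ≠ 0 := by
    by_contra hz
    push Not at hz
    exact h0 (LinearMap.ext hz)
  obtain ⟨p, hp⟩ := exists_dual hv
  refine h (p (T v)) (LinearMap.ext fun c => ?_)
  have := key c p v
  rwa [hp, one_smul] at this

/-- a map which satisfies no quadratic equation -/
theorem exists_quad {T : End ℂ V} [FiniteDimensional ℂ V] [Nontrivial V]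
    (h : ∀ a b : ℂ, T * T ≠ a • T + b • (1 : End ℂ V)) :
    ∃ f w0 w1 : End ℂ V, (∀ X, Commute T X → Commute f X) ∧ ¬ Commute f w0 ∧ Commute f w1 ∧
      ¬ Commute T w1 := by
  -- a root of the minimal polynomial
  have hint : IsIntegral ℂ T := Algebra.IsIntegral.isIntegral T
  have hdeg : (minpoly ℂ T).degree ≠ 0 := (minpoly.degree_pos hint).ne'
  obtain ⟨g, hg⟩ := IsAlgClosed.exists_root (minpoly ℂ T) hdeg
  obtain ⟨q, hq⟩ := Polynomial.dvd_iff_isRoot.mpr hg
  have hne : minpoly ℂ T ≠ 0 := minpoly.ne_zero hint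
  have hq0 : q ≠ 0 := fun h0 => hne (by rw [hq, h0, mul_zero])
  obtain ⟨f, hf⟩ : ∃ f, f = Polynomial.aeval T q := ⟨_, rfl⟩
  have hcomm : ∀ X, Commute T X → Commute f X := by
    intro X hX
    rw [hf]
    have h2 : ∀ r : Polynomial ℂ, Commute X (Polynomial.aeval T r) := by
      intro r
      induction r using Polynomial.induction_on' with
      | add p q hp hq => rw [map_add]; exact hp.add_right hq
      | monomial n a =>
        rw [Polynomial.aeval_monomial]
        have h5 : Commute X (algebraMap ℂ (End ℂ V) a) := (Algebra.commutes a X).symm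
        exact h5.mul_right (hX.symm.pow_right n)
    exact (h2 q).symm
  have hf0 : f ≠ 0 := by
    intro h0
    rw [hf] at h0
    have h1 := minpoly.degree_le_of_ne_zero ℂ T hq0 h0
    rw [hq, Polynomial.degree_mul, Polynomial.degree_X_sub_C, Polynomial.degree_eq_natDegree hq0]
      at h1
    have h2 : (1 : WithBot ℕ) + (q.natDegree : WithBot ℕ) = ((1 + q.natDegree : ℕ) : WithBot ℕ) := by
      push_cast; rfl
    rw [h2, Nat.cast_le] at h1
    omega
  have hTf : ∀ v, T (f v) = g • f v := by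
    intro v
    have h1 : (Polynomial.aeval T) (minpoly ℂ T) = 0 := minpoly.aeval ℂ T
    rw [hq, map_mul, ← hf] at h1
    have h2 := LinearMap.congr_fun h1 v
    rw [map_sub, Polynomial.aeval_X, Polynomial.aeval_C] at h2
    change T (f v) - (algebraMap ℂ (End ℂ V) g) (f v) = 0 at h2
    rw [Module.algebraMap_end_apply] at h2
    exact sub_eq_zero.mp h2
  have hfT : ∀ v, f (T v) = g • f v := by
    intro v
    have := LinearMap.congr_fun (hcomm T (Commute.refl T)).eq v
    change f (T v) = T (f v) at this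
    rw [this, hTf]
  -- the kernel of f
  have hns : ¬ ∃ l : ℂ, ∀ c ∈ LinearMap.ker f, T c = l • c := by
    rintro ⟨l, hl⟩
    apply h (l + g) (-(l * g))
    refine LinearMap.ext fun v => ?_
    have h1 := hl (T v - g • v) (by
      rw [LinearMap.mem_ker, map_sub, map_smul, hfT, sub_self])
    rw [map_sub, map_smul, smul_sub, smul_smul] at h1
    show T (T v) = (l + g) • T v + (-(l * g)) • v
    rw [add_smul, neg_smul]
    have h2 : T (T v) = l • T v - (l * g) • v + g • T v := by
      rw [← h1]; abel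
    rw [h2]; abel
  have hex : ∃ c ∈ LinearMap.ker f, ∀ l : ℂ, T c ≠ l • c := by
    by_contra hcon
    push Not at hcon
    exact hns (scalar_of_eigen hcon)
  obtain ⟨c, hc, hcl⟩ := hex
  have hc0 : c ≠ 0 := fun h0 => hcl 0 (by rw [h0, map_zero, smul_zero])
  have hrange : LinearMap.range f ≠ ⊤ := by
    intro htop
    have hker : LinearMap.ker f = ⊥ := LinearMap.ker_eq_bot_iff_range_eq_top.mpr htop
    rw [hker] at hc
    exact hc0 ((Submodule.mem_bot ℂ).mp hc)
  obtain ⟨p, hp0, hp⟩ : ∃ p : Dual ℂ V, p ≠ 0 ∧ ∀ v, p (f v) = 0 := by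
    obtain ⟨p, hp0, hp⟩ := Submodule.exists_le_ker_of_lt_top _ (lt_top_iff_ne_top.mpr hrange)
    exact ⟨p, hp0, fun v => hp ⟨v, rfl⟩⟩
  obtain ⟨w0, hw0⟩ : ∃ w0, ¬ Commute f w0 := by
    apply exists_noncomm
    intro l hl
    have hl0 : l ≠ 0 := fun h0 => hf0 (by rw [hl, h0, zero_smul])
    have : f c = l • c := by rw [hl]; rfl
    rw [LinearMap.mem_ker.mp hc] at this
    exact hc0 ((smul_eq_zero.mp this.symm).resolve_left hl0)
  refine ⟨f, w0, rk c p, hcomm, hw0, ?_, ?_⟩
  · refine LinearMap.ext fun v => ?_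
    show f (p v • c) = p (f v) • c
    rw [map_smul, LinearMap.mem_ker.mp hc, hp, smul_zero, zero_smul]
  · intro hcon
    obtain ⟨v, hv⟩ : ∃ v, p v ≠ 0 := by
      by_contra hz
      push Not at hz
      exact hp0 (LinearMap.ext hz)
    have h1 := LinearMap.congr_fun hcon.eq v
    change T (p v • c) = p (T v) • c at h1
    rw [map_smul] at h1
    apply hcl ((p v)⁻¹ * p (T v))
    rw [mul_smul, ← h1, smul_smul, inv_mul_cancel₀ hv, one_smul]

end Pool.Agent.Bst88
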